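import Mathlib

/-!
Linear algebra used for matrices recognizable in the Nies–Semukhin presentations.
-/

namespace Q28.Anosov

open Matrix

/-- multiplication by `x` on `ℤ[x]/(x² + p x - q)` in the basis `1, x` -/
def M (p q : ℤ) : Matrix (Fin 2) (Fin 2) ℤ := !![0, q; 1, -p]

theorem pow_entries (p q : ℤ) (d : ℕ) :
    (M p q ^ d) 0 1 = q * (M p q ^ d) 1 0 ∧
      (M p q ^ d) 0 0 - (M p q ^ d) 1 1 = p * (M p q ^ d) 1 0 := by
  induction d with
  | zero => simp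
  | succ d ih =>
    obtain ⟨h1, h2⟩ := ih
    rw [pow_succ]
    simp only [Matrix.mul_apply, Fin.sum_univ_two, M, of_apply, cons_val', cons_val_zero,
      cons_val_one, cons_val_fin_one] at *
    constructor
    · linear_combination (-p) * h1 + q * h2
    · linear_combination h1

/-- the last row of `M ^ d` modulo `q` -/
theorem pow_mod (p q : ℤ) (d : ℕ) : (M p q ^ d) 1 1 ≡ (-p) ^ d [ZMOD q] ∧
    (M p q ^ (d + 1)) 1 0 ≡ (-p) ^ d [ZMOD q] := by
  have key : ∀ d : ℕ, (M p q ^ (d + 1)) 1 0 = (M p q ^ d) 1 1 := by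
    intro d
    rw [pow_succ]
    simp [Matrix.mul_apply, Fin.sum_univ_two, M]
  have h : (M p q ^ d) 1 1 ≡ (-p) ^ d [ZMOD q] := by
    induction d with
    | zero => simp [Int.ModEq.refl]
    | succ d ih =>
      have h1 : (M p q ^ (d + 1)) 1 1 = q * (M p q ^ d) 1 0 + (M p q ^ d) 1 1 * (-p) := by
        rw [pow_succ]
        simp [Matrix.mul_apply, Fin.sum_univ_two, M]
        ring
      rw [h1, pow_succ]
      have h2 : q * (M p q ^ d) 1 0 + (M p q ^ d) 1 1 * (-p) ≡ 0 + (-p) ^ d * (-p) [ZMOD q] := by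
        refine Int.ModEq.add ?_ (ih.mul_right _)
        exact (Int.modEq_zero_iff_dvd.2 (dvd_mul_right _ _))
      simpa using h2
  exact ⟨h, by rw [key]; exact h⟩

theorem pow_ne (p q : ℤ) (hq : 1 < |q|) (hpq : IsCoprime p q) (d : ℕ) (hd : 1 ≤ d) :
    (M p q ^ d) 1 0 ≠ 0 := by
  obtain ⟨e, rfl⟩ : ∃ e, d = e + 1 := ⟨d - 1, by omega⟩
  intro h
  have h1 := (pow_mod p q e).2
  rw [h] at h1
  have h2 : q ∣ (-p) ^ e := Int.modEq_zero_iff_dvd.1 h1.symm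
  have h3 : IsCoprime ((-p) ^ e) q := (IsCoprime.neg_left hpq).pow_left
  have h4 : IsUnit q := h3.isUnit_of_dvd' h2 dvd_rfl
  rw [Int.isUnit_iff] at h4
  rcases h4 with h4 | h4 <;> rw [h4] at hq <;> norm_num at hq

theorem scal (A Y : Matrix (Fin 2) (Fin 2) ℤ) (p q : ℤ) (hq : q ≠ 0) (a : Fin 2 → ℤ)
    (ha : a ≠ 0)
    (hY : Y 0 1 = q * Y 1 0) (hY' : Y 0 0 - Y 1 1 = p * Y 1 0) (hy : Y 1 0 ≠ 0)
    (h1 : A *ᵥ (Y *ᵥ a) = Y *ᵥ (A *ᵥ a))
    (h2 : A *ᵥ (Y *ᵥ (Y *ᵥ a)) = Y *ᵥ (A *ᵥ (Y *ᵥ a)))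
    (hA : ∀ v : Fin 2 → ℤ, v ≠ 0 → v 0 * (A *ᵥ v) 1 ≠ v 1 * (A *ᵥ v) 0) :
    A 0 1 = q * A 1 0 ∧ A 0 0 - A 1 1 = p * A 1 0 := by
  have hAa := hA a ha
  have h10 := congrFun h1 0
  have h11 := congrFun h1 1
  have h20 := congrFun h2 0
  have h21 := congrFun h2 1
  simp only [Matrix.mulVec, dotProduct, Fin.sum_univ_two] at h10 h11 h20 h21 hAa
  obtain ⟨α, hα⟩ : ∃ z, z = A 0 0 := ⟨_, rfl⟩
  obtain ⟨β, hβ⟩ : ∃ z, z = A 0 1 := ⟨_, rfl⟩
  obtain ⟨γ, hγ⟩ : ∃ z, z = A 1 0 := ⟨_, rfl⟩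
  obtain ⟨δ, hδ⟩ : ∃ z, z = A 1 1 := ⟨_, rfl⟩
  obtain ⟨y, hy1⟩ : ∃ z, z = Y 1 0 := ⟨_, rfl⟩
  obtain ⟨w, hw⟩ : ∃ z, z = Y 1 1 := ⟨_, rfl⟩
  obtain ⟨s, hs⟩ : ∃ z, z = a 0 := ⟨_, rfl⟩
  obtain ⟨t, ht⟩ : ∃ z, z = a 1 := ⟨_, rfl⟩
  have hY00 : Y 0 0 = w + p * y := by rw [hw, hy1]; linarith
  rw [← hy1] at hY hy
  rw [hY00, hY] at h10 h11 h20 h21
  rw [← hα, ← hβ, ← hγ, ← hδ, ← hs, ← ht] at hAa
  rw [← hα, ← hβ, ← hγ, ← hδ, ← hs, ← ht, ← hy1, ← hw] at h10 h11 h20 h21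
  rw [← hα, ← hβ, ← hγ, ← hδ]
  -- `E a = 0`
  have e1 : (β - q * γ) * s + (α * q - β * p - q * δ) * t = 0 := by
    apply mul_left_cancel₀ hy
    linear_combination h10
  have e2 : (δ - α + p * γ) * s + (γ * q - β) * t = 0 := by
    apply mul_left_cancel₀ hy
    linear_combination h11
  -- `E (Y a) = 0`, hence `E (M a) = 0`
  have e3 : (β - q * γ) * (q * t) + (α * q - β * p - q * δ) * (s - p * t) = 0 := by
    apply mul_left_cancel₀ hy
    apply mul_left_cancel₀ hy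
    linear_combination h20 - (w + p * y) * y * e1
  have e4 : (δ - α + p * γ) * (q * t) + (γ * q - β) * (s - p * t) = 0 := by
    apply mul_left_cancel₀ hy
    apply mul_left_cancel₀ hy
    linear_combination h21 - (w + p * y) * y * e2
  by_cases hc : s * (s - p * t) - q * t * t = 0
  · -- `a` is an eigenvector of `M`
    exfalso
    -- `b = A a = (α s + β t, γ s + δ t)`
    have f1 : (α * s + β * t) * 0 + q * (γ * s + δ * t) = α * (q * t) + β * (s - p * t) := by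
      linear_combination (-1 : ℤ) * e1
    have hcross : s * (γ * s + δ * t) - t * (α * s + β * t) ≠ 0 := fun h => hAa (by linarith)
    have g1 : q * (s * (γ * s + δ * t) - t * (α * s + β * t)) = 0 := by
      linear_combination s * f1 + β * hc
    exact hcross (by simpa [hq] using g1)
  · have g1 : (s * (s - p * t) - q * t * t) * (β - q * γ) = 0 := by
      linear_combination (s - p * t) * e1 - t * e3
    have g2 : (s * (s - p * t) - q * t * t) * (δ - α + p * γ) = 0 := by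
      linear_combination (s - p * t) * e2 - t * e4
    have g3 := (mul_eq_zero.1 g1).resolve_left hc
    have g4 := (mul_eq_zero.1 g2).resolve_left hc
    constructor
    · linarith
    · linarith

/-- an integer matrix of determinant one with `|trace| > 2` has no rational eigenvector -/
theorem no_eigenvector (A : Matrix (Fin 2) (Fin 2) ℤ) (hdet : A.det = 1) (htr : 2 < |A.trace|)
    (v : Fin 2 → ℤ) (hv : v ≠ 0) : v 0 * (A *ᵥ v) 1 ≠ v 1 * (A *ᵥ v) 0 := by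
  intro h
  simp only [Matrix.mulVec, dotProduct, Fin.sum_univ_two] at h
  rw [Matrix.det_fin_two] at hdet
  rw [Matrix.trace_fin_two] at htr
  obtain ⟨α, hα⟩ : ∃ z, z = A 0 0 := ⟨_, rfl⟩
  obtain ⟨β, hβ⟩ : ∃ z, z = A 0 1 := ⟨_, rfl⟩
  obtain ⟨γ, hγ⟩ : ∃ z, z = A 1 0 := ⟨_, rfl⟩
  obtain ⟨δ, hδ⟩ : ∃ z, z = A 1 1 := ⟨_, rfl⟩
  obtain ⟨s, hs⟩ : ∃ z, z = v 0 := ⟨_, rfl⟩
  obtain ⟨t, ht⟩ : ∃ z, z = v 1 := ⟨_, rfl⟩
  rw [← hα, ← hβ, ← hγ, ← hδ] at hdet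
  rw [← hα, ← hδ] at htr
  rw [← hα, ← hβ, ← hγ, ← hδ, ← hs, ← ht] at h
  obtain ⟨T, hT⟩ : ∃ T, T = α + δ := ⟨_, rfl⟩
  rw [← hT] at htr
  by_cases ht0 : t = 0
  · have hs0 : s ≠ 0 := by
      intro hs0
      apply hv
      funext i
      fin_cases i
      · show v 0 = 0; rw [← hs]; exact hs0
      · show v 1 = 0; rw [← ht]; exact ht0
    rw [ht0] at h
    have hγ0 : γ = 0 := by
      have : s * s * γ = 0 := by linarith
      simpa [hs0] using this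
    rw [hγ0] at hdet
    have hαδ : α * δ = 1 := by linarith
    rcases Int.mul_eq_one_iff_eq_one_or_neg_one.1 hαδ with ⟨h1, h2⟩ | ⟨h1, h2⟩
    · rw [hT, h1, h2] at htr; norm_num at htr
    · rw [hT, h1, h2] at htr; norm_num at htr
  · have key : (T * T - 4) * (t * t) = (2 * γ * s + (δ - α) * t) * (2 * γ * s + (δ - α) * t) := by
      rw [hT]
      linear_combination (-4 * γ) * h + 4 * (t * t) * hdet
    have hdvd : t ^ 2 ∣ (2 * γ * s + (δ - α) * t) ^ 2 :=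
      ⟨T * T - 4, by rw [sq, ← key]; ring⟩
    have hdvd' : t ∣ (2 * γ * s + (δ - α) * t) := (Int.pow_dvd_pow_iff (by norm_num)).1 hdvd
    obtain ⟨k, hk⟩ := hdvd'
    rw [hk] at key
    have h2 : T * T - 4 = k * k := by
      apply mul_right_cancel₀ (mul_ne_zero ht0 ht0)
      linarith
    have h3 : |T| * |T| = T * T := abs_mul_abs_self T
    have h4 : |k| * |k| = k * k := abs_mul_abs_self k
    have h5 : |k| < |T| := by
      by_contra hcon
      push Not at hcon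
      have := mul_self_le_mul_self (abs_nonneg T) hcon
      nlinarith
    have h6 : |k| + 1 ≤ |T| := h5
    have h7 : 0 ≤ |k| := abs_nonneg k
    nlinarith

end Q28.Anosov
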