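import Mathlib

/-!
A countable infinite group all of whose boomerang subgroups are trivial or the whole group: a
countable group of permutations of the natural numbers, modulo the permutations of finite support,
which is closed under finitely many operations.
-/

namespace Q28.Boom

open Equiv Function

open scoped Classical

/-! ### extension of permutations along an injection -/

/-- extension of a permutation by the identity -/
noncomputable def ext {A : Type} (ψ : A → ℕ) (hψ : Injective ψ) : Perm A →* Perm ℕ :=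
  Equiv.Perm.extendDomainHom (p := fun m => m ∈ Set.range ψ) (Equiv.ofInjective ψ hψ)

theorem ext_apply {A : Type} (ψ : A → ℕ) (hψ : Injective ψ) (g : Perm A) (a : A) :
    ext ψ hψ g (ψ a) = ψ (g a) := by
  have := Equiv.Perm.extendDomain_apply_image (p := fun m => m ∈ Set.range ψ) g
    (Equiv.ofInjective ψ hψ) a
  exact this

theorem ext_off {A : Type} (ψ : A → ℕ) (hψ : Injective ψ) (g : Perm A) (m : ℕ)
    (hm : ∀ a, ψ a ≠ m) : ext ψ hψ g m = m := by
  apply Equiv.Perm.extendDomain_apply_not_subtype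
  rintro ⟨a, ha⟩
  exact hm a ha

theorem exists_ext {A : Type} (ψ : A → ℕ) (hψ : Injective ψ) (z : Perm ℕ)
    (hz : ∀ m, z m ≠ m → ∃ a, ψ a = m) : ∃ w : Perm A, ext ψ hψ w = z := by
  have h1 : ∀ m, (∃ a, ψ a = m) ↔ ∃ a, ψ a = z m := by
    intro m
    constructor
    · intro h
      by_cases hm : z m = m
      · rwa [hm]
      · exact hz _ fun h' => hm (z.injective h')
    · intro h
      by_cases hm : z m = m
      · rwa [hm] at h
      · exact hz _ hm
  let f := Equiv.ofInjective ψ hψ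
  let z' : Perm {m // m ∈ Set.range ψ} := z.subtypePerm fun m => (h1 m).symm
  refine ⟨f.trans (z'.trans f.symm), ?_⟩
  ext m
  by_cases hm : ∃ a, ψ a = m
  · obtain ⟨a, rfl⟩ := hm
    rw [ext_apply]
    have h2 : ∀ b, ψ (f.symm b) = b := fun b => by
      have := f.apply_symm_apply b
      exact congrArg Subtype.val this
    change ψ (f.symm (z' (f a))) = z (ψ a)
    rw [h2]
    rfl
  · rw [ext_off]
    · by_contra h
      exact hm (hz m fun h' => h h'.symm)
    · intro a ha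
      exact hm ⟨a, ha⟩

/-! ### the array -/

variable {P : Type}

/-- horizontal shift, with a twist -/
def sh (v : Perm P) : Perm (P × ℤ × ℤ) where
  toFun a := (if a.2.1 = 0 ∧ 1 ≤ a.2.2 then v a.1 else a.1, a.2.1 + 1, a.2.2)
  invFun a := (if a.2.1 = 1 ∧ 1 ≤ a.2.2 then v.symm a.1 else a.1, a.2.1 - 1, a.2.2)
  left_inv := by
    rintro ⟨p, i, j⟩
    by_cases h : i = 0 ∧ 1 ≤ j
    · simp [h]
    · have h' : ¬ (i + 1 = 1 ∧ 1 ≤ j) := fun ⟨a, b⟩ => h ⟨by omega, b⟩
      simp only [h, h', if_false]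
      simp
  right_inv := by
    rintro ⟨p, i, j⟩
    by_cases h : i = 1 ∧ 1 ≤ j
    · simp [h]
    · have h' : ¬ (i - 1 = 0 ∧ 1 ≤ j) := fun ⟨a, b⟩ => h ⟨by omega, b⟩
      simp only [h, h', if_false]
      simp

/-- vertical shift -/
def sv : Perm (P × ℤ × ℤ) where
  toFun a := (a.1, a.2.1, a.2.2 + 1)
  invFun a := (a.1, a.2.1, a.2.2 - 1)
  left_inv := by rintro ⟨p, i, j⟩; simp
  right_inv := by rintro ⟨p, i, j⟩; simp

theorem sv_pow (k : ℕ) (p : P) (i j : ℤ) : ((sv : Perm (P × ℤ × ℤ)) ^ k) (p, i, j) =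
    (p, i, j + k) := by
  induction k with
  | zero => simp
  | succ k ih =>
    rw [pow_succ', Perm.mul_apply, ih]
    change (p, i, j + k + 1) = _
    push_cast
    rw [add_assoc]

theorem sh_pow (v : Perm P) (n : ℕ) (p : P) (j : ℤ) : ((sh v) ^ (n + 1)) (p, 0, j) =
    (if 1 ≤ j then v p else p, (n : ℤ) + 1, j) := by
  induction n with
  | zero =>
    rw [zero_add, pow_one]
    change ((if (0 : ℤ) = 0 ∧ 1 ≤ j then v p else p), (0 : ℤ) + 1, j) = _
    simp
  | succ n ih =>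
    rw [pow_succ', Perm.mul_apply, ih]
    change ((if ((n : ℤ) + 1) = 0 ∧ 1 ≤ j then _ else _), (n : ℤ) + 1 + 1, j) = _
    have h : ¬ (((n : ℤ) + 1) = 0 ∧ 1 ≤ j) := fun ⟨a, _⟩ => by omega
    rw [if_neg h]
    push_cast
    rfl

/-- the commutator used -/
def cm {G : Type} [Group G] (a b : G) (n k : ℕ) : G := (a ^ n)⁻¹ * (b ^ k)⁻¹ * a ^ n * b ^ k

theorem cm_corner (v : Perm P) (n k : ℕ) (p : P) :
    cm (sh v) sv (n + 1) (k + 1) (p, 0, 0) = (v p, 0, 0) := by
  unfold cm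
  rw [Perm.mul_apply, Perm.mul_apply, Perm.mul_apply, sv_pow, sh_pow, if_pos (by push_cast; omega)]
  have h1 : ((sv : Perm (P × ℤ × ℤ)) ^ (k + 1))⁻¹ (v p, (n : ℤ) + 1, 0 + ((k + 1 : ℕ) : ℤ)) =
      (v p, (n : ℤ) + 1, 0) := by
    rw [Perm.inv_eq_iff_eq, sv_pow]
  rw [h1, Perm.inv_eq_iff_eq, sh_pow, if_neg (by omega)]

/-! ### the commutator of two permutations with almost disjoint supports -/

theorem comm_off {c d : Perm ℕ} {K : Set ℕ} (hc : ∀ m, c m ∈ K ↔ m ∈ K)
    (hd : ∀ m, d m ∈ K ↔ m ∈ K) (h : ∀ m, m ∉ K → c m = m ∨ d m = m) (m : ℕ) (hm : m ∉ K) :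
    (c⁻¹ * d⁻¹ * c * d) m = m := by
  rw [Perm.mul_apply, Perm.mul_apply, Perm.mul_apply, Perm.inv_eq_iff_eq, Perm.inv_eq_iff_eq]
  have hdm : d m ∉ K := fun h' => hm ((hd m).1 h')
  have hcm : c m ∉ K := fun h' => hm ((hc m).1 h')
  by_cases h1 : c (d m) = d m
  · by_cases h2 : d m = m
    · rw [h2] at h1 ⊢
      rw [h1, h2]
    · rcases h m hm with h3 | h3
      · rw [h1, h3]
      · exact absurd h3 h2
  · rcases h (d m) hdm with h2 | h2
    · exact absurd h2 h1
    · have h3 : d m = m := d.injective h2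
      rw [h3] at h1 ⊢
      rcases h (c m) hcm with h4 | h4
      · exact absurd (c.injective h4) h1
      · exact h4.symm

/-! ### the two arrays with a common corner -/

/-- cells -/
abbrev Cell : Type := (ℕ × ℤ) × Option (Bool × ℤ × ℤ)

/-- the embedding of the array of index `b` -/
def emb (b : Bool) (a : (ℕ × ℤ) × ℤ × ℤ) : Cell :=
  (a.1, if a.2.1 = 0 ∧ a.2.2 = 0 then none else some (b, a.2.1, a.2.2))

theorem emb_inj (b : Bool) : Injective (emb b) := by
  rintro ⟨p, i, j⟩ ⟨p', i', j'⟩ h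
  unfold emb at h
  simp only [Prod.mk.injEq] at h
  obtain ⟨h1, h2⟩ := h
  by_cases h3 : i = 0 ∧ j = 0 <;> by_cases h4 : i' = 0 ∧ j' = 0
  · simp [h1, h3, h4]
  · simp [h3, h4] at h2
  · simp [h3, h4] at h2
  · simp [h3, h4] at h2
    simp [h1, h2]

theorem emb_zero (b : Bool) (p : ℕ × ℤ) : emb b (p, 0, 0) = (p, none) := by simp [emb]

variable (φ : Cell → ℕ) (hφ : Injective φ)

/-- the cells of the target -/
def tgt (q : ℕ) : ℕ := φ ((q, -1), none)

include hφ in
theorem tgt_inj : Injective (tgt φ) := by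
  intro q q' h
  have := hφ h
  simpa using this

/-- the twist of the first array -/
def tw (w : Perm ℕ) : Perm (ℕ × ℤ) where
  toFun a := (if 0 ≤ a.2 then w a.1 else a.1, a.2)
  invFun a := (if 0 ≤ a.2 then w.symm a.1 else a.1, a.2)
  left_inv := by
    rintro ⟨q, t⟩
    by_cases h : 0 ≤ t <;> simp [h]
  right_inv := by
    rintro ⟨q, t⟩
    by_cases h : 0 ≤ t <;> simp [h]

/-- the twist of the second array -/
def tu : Perm (ℕ × ℤ) where
  toFun a := (a.1, a.2 + 1)
  invFun a := (a.1, a.2 - 1)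
  left_inv := by rintro ⟨q, t⟩; simp
  right_inv := by rintro ⟨q, t⟩; simp

theorem tw_tu (w : Perm ℕ) (q : ℕ) (t : ℤ) : ((tw w)⁻¹ * tu⁻¹ * tw w * tu) (q, t) =
    (if t = -1 then w q else q, t) := by
  rw [Perm.mul_apply, Perm.mul_apply, Perm.mul_apply, Perm.inv_eq_iff_eq, Perm.inv_eq_iff_eq]
  change ((if 0 ≤ t + 1 then w q else q), t + 1) =
    ((if 0 ≤ t then w (if t = -1 then w q else q) else (if t = -1 then w q else q)), t + 1)
  by_cases h1 : t = -1
  · subst h1; simp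
  · by_cases h2 : 0 ≤ t
    · rw [if_pos (by omega), if_pos h2, if_neg h1]
    · rw [if_neg (by omega), if_neg h2, if_neg h1]

/-- the array permutation -/
noncomputable def arr (b : Bool) : Perm ((ℕ × ℤ) × ℤ × ℤ) →* Perm ℕ :=
  ext (fun a => φ (emb b a)) (hφ.comp (emb_inj b))

theorem arr_apply (b : Bool) (g) (a) : arr φ hφ b g (φ (emb b a)) = φ (emb b (g a)) :=
  ext_apply _ _ _ _

theorem arr_off (b : Bool) (g) (m : ℕ) (hm : ∀ a, φ (emb b a) ≠ m) : arr φ hφ b g m = m :=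
  ext_off _ _ _ _ hm

theorem map_cm {G K : Type} [Group G] [Group K] (f : G →* K) (a b : G) (n k : ℕ) :
    f (cm a b n k) = cm (f a) (f b) n k := by
  simp [cm]

/-- the corner permutation of the array -/
theorem arr_corner (b : Bool) (v : Perm (ℕ × ℤ)) (n k : ℕ) (p : ℕ × ℤ) :
    cm (arr φ hφ b (sh v)) (arr φ hφ b sv) (n + 1) (k + 1) (φ (p, none)) = φ (v p, none) := by
  rw [← map_cm, ← emb_zero b, arr_apply, cm_corner, emb_zero]

theorem arr_corner_iff (b : Bool) (v : Perm (ℕ × ℤ)) (n k : ℕ) (m : ℕ) :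
    cm (arr φ hφ b (sh v)) (arr φ hφ b sv) (n + 1) (k + 1) m ∈ Set.range (fun p => φ (p, none)) ↔
      m ∈ Set.range (fun p => φ (p, none)) := by
  constructor
  · rintro ⟨p, hp⟩
    refine ⟨v.symm p, ?_⟩
    have := arr_corner φ hφ b v n k (v.symm p)
    rw [Equiv.apply_symm_apply] at this
    exact (Equiv.injective _) (this.trans hp)
  · rintro ⟨p, rfl⟩
    exact ⟨v p, (arr_corner φ hφ b v n k p).symm⟩

theorem main_comm (w : Perm ℕ) (n k n' k' : ℕ) :
    (cm (arr φ hφ true (sh (tw w))) (arr φ hφ true sv) (n + 1) (k + 1))⁻¹ *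
      (cm (arr φ hφ false (sh tu)) (arr φ hφ false sv) (n' + 1) (k' + 1))⁻¹ *
      cm (arr φ hφ true (sh (tw w))) (arr φ hφ true sv) (n + 1) (k + 1) *
      cm (arr φ hφ false (sh tu)) (arr φ hφ false sv) (n' + 1) (k' + 1) =
      ext (tgt φ) (tgt_inj φ hφ) w := by
  ext m
  by_cases hm : m ∈ Set.range (fun p : ℕ × ℤ => φ (p, none))
  · obtain ⟨⟨q, t⟩, rfl⟩ := hm
    have h1 : ∀ p, (cm (arr φ hφ true (sh (tw w))) (arr φ hφ true sv) (n + 1) (k + 1))
        (φ (p, none)) = φ (tw w p, none) := fun p => arr_corner φ hφ _ _ _ _ _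
    have h2 : ∀ p, (cm (arr φ hφ false (sh tu)) (arr φ hφ false sv) (n' + 1) (k' + 1))
        (φ (p, none)) = φ (tu p, none) := fun p => arr_corner φ hφ _ _ _ _ _
    have h1' : ∀ p, (cm (arr φ hφ true (sh (tw w))) (arr φ hφ true sv) (n + 1) (k + 1))⁻¹
        (φ (p, none)) = φ ((tw w)⁻¹ p, none) := fun p => by
      rw [Perm.inv_eq_iff_eq, h1, ← Perm.mul_apply, mul_inv_cancel, Perm.one_apply]
    have h2' : ∀ p, (cm (arr φ hφ false (sh tu)) (arr φ hφ false sv) (n' + 1) (k' + 1))⁻¹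
        (φ (p, none)) = φ (tu⁻¹ p, none) := fun p => by
      rw [Perm.inv_eq_iff_eq, h2, ← Perm.mul_apply, mul_inv_cancel, Perm.one_apply]
    have h3 : (tw w)⁻¹ (tu⁻¹ (tw w (tu (q, t)))) = (if t = -1 then w q else q, t) := tw_tu w q t
    change (_ * _ * _ * _ : Perm ℕ) (φ ((q, t), none)) = _
    rw [Perm.mul_apply, Perm.mul_apply, Perm.mul_apply, h2, h1, h2', h1', h3]
    by_cases ht : t = -1
    · subst ht
      rw [if_pos rfl]
      exact (ext_apply (tgt φ) (tgt_inj φ hφ) w q).symm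
    · rw [if_neg ht, ext_off]
      intro q' hq'
      have := hφ hq'
      simp only [Prod.mk.injEq] at this
      exact ht this.1.2.symm
  · rw [comm_off (K := Set.range (fun p : ℕ × ℤ => φ (p, none)))
      (arr_corner_iff φ hφ _ _ _ _) (arr_corner_iff φ hφ _ _ _ _) ?_ m hm, ext_off]
    · rintro q rfl
      exact hm ⟨(q, -1), rfl⟩
    · intro m hm
      by_cases h1 : ∃ a, φ (emb true a) = m
      · right
        obtain ⟨⟨p, i, j⟩, rfl⟩ := h1
        have hij : ¬ (i = 0 ∧ j = 0) := by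
          rintro ⟨rfl, rfl⟩
          exact hm ⟨p, by rw [emb_zero]⟩
        rw [← map_cm]
        apply arr_off
        rintro ⟨p', i', j'⟩ h
        have h2 := hφ h
        simp only [emb, hij, if_false, Prod.mk.injEq] at h2
        by_cases h3 : i' = 0 ∧ j' = 0
        · simp [h3] at h2
        · simp [h3] at h2
      · left
        rw [← map_cm]
        apply arr_off
        intro a ha
        exact h1 ⟨a, ha⟩

/-! ### sets -/

theorem exists_disp (z : Perm ℕ) (U : Set ℕ) (hU : U.Infinite) (hz : ∀ m ∈ U, z m ≠ m) :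
    ∃ f : ℕ → ℕ, Injective f ∧ (∀ i, f i ∈ U) ∧ ∀ i j, z (f i) ≠ f j := by
  obtain ⟨f, hf1, hf2⟩ := exists_seq_of_forall_finset_exists (fun m => m ∈ U)
    (fun x y => y ≠ x ∧ y ≠ z x ∧ z y ≠ x) (by
      intro s _
      have hfin : ((s : Set ℕ) ∪ z '' s ∪ z.symm '' s).Finite := by
        refine Set.Finite.union (Set.Finite.union s.finite_toSet ?_) ?_
        · exact s.finite_toSet.image _
        · exact s.finite_toSet.image _
      obtain ⟨y, hy, hys⟩ := (hU.sdiff hfin).nonempty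
      refine ⟨y, hy, ?_⟩
      intro x hx
      refine ⟨?_, ?_, ?_⟩
      · rintro rfl; exact hys (Or.inl (Or.inl hx))
      · rintro rfl; exact hys (Or.inl (Or.inr ⟨x, hx, rfl⟩))
      · intro h
        exact hys (Or.inr ⟨x, hx, by rw [← h]; simp⟩))
  refine ⟨f, ?_, hf1, ?_⟩
  · intro i j hij
    rcases lt_trichotomy i j with h | h | h
    · exact absurd hij.symm (hf2 i j h).1
    · exact h
    · exact absurd hij (hf2 j i h).1
  · intro i j hij
    rcases lt_trichotomy i j with h | h | h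
    · exact (hf2 i j h).2.1 hij.symm
    · subst h; exact hz _ (hf1 i) hij
    · exact (hf2 j i h).2.2 hij

theorem exists_split (U : Set ℕ) (hU : U.Infinite) (z : Perm ℕ) :
    ∃ π : Perm ℕ, {m | m ∈ U ∧ π m = m}.Infinite ∧ {m | m ∈ U ∧ π m = z m}.Infinite := by
  by_cases h : {m | m ∈ U ∧ z m = m}.Infinite
  · refine ⟨1, ?_, ?_⟩
    · convert hU using 1
      ext m; simp
    · convert h using 1
      ext m
      simp [eq_comm]
  · have h1 : {m | m ∈ U ∧ z m ≠ m}.Infinite := by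
      intro h2
      apply hU
      refine ((Set.not_infinite.1 h).union h2).subset ?_
      intro m hm
      by_cases h3 : z m = m
      · exact Or.inl ⟨hm, h3⟩
      · exact Or.inr ⟨hm, h3⟩
    obtain ⟨f, hf, hfU, hzf⟩ := exists_disp z _ h1 fun m hm => hm.2
    let A : Set ℕ := Set.range fun i => f (2 * i)
    let B : Set ℕ := z '' A
    have hAB : ∀ m, m ∈ A → m ∉ B := by
      rintro _ ⟨i, rfl⟩ ⟨_, ⟨j, rfl⟩, hj⟩
      exact hzf _ _ hj
    let g : ℕ → ℕ := fun m => if m ∈ A then z m else if m ∈ B then z.symm m else m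
    have hg : Involutive g := by
      intro m
      by_cases h1 : m ∈ A
      · have h2 : g m = z m := by simp only [g]; rw [if_pos h1]
        have h3 : z m ∈ B := ⟨m, h1, rfl⟩
        have h4 : z m ∉ A := fun h5 => hAB _ h5 h3
        rw [h2]
        simp only [g]
        rw [if_neg h4, if_pos h3]
        simp
      · by_cases h2 : m ∈ B
        · have h3 : g m = z.symm m := by simp only [g]; rw [if_neg h1, if_pos h2]
          obtain ⟨a, ha, rfl⟩ := h2
          rw [h3]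
          simp only [g, Equiv.symm_apply_apply]
          rw [if_pos ha]
        · have h3 : g m = m := by simp only [g]; rw [if_neg h1, if_neg h2]
          rw [h3, h3]
    refine ⟨hg.toPerm g, ?_, ?_⟩
    · refine Set.Infinite.mono ?_ (Set.infinite_range_of_injective (f := fun i => f (2 * i + 1)) ?_)
      · rintro _ ⟨i, rfl⟩
        refine ⟨(hfU _).1, ?_⟩
        have h1 : f (2 * i + 1) ∉ A := by
          rintro ⟨j, hj⟩
          have := hf hj
          omega
        have h2 : f (2 * i + 1) ∉ B := by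
          rintro ⟨_, ⟨j, rfl⟩, hj⟩
          exact hzf _ _ hj
        change g (f (2 * i + 1)) = _
        simp only [g]
        rw [if_neg h1, if_neg h2]
      · intro i j hij
        have := hf hij
        omega
    · refine Set.Infinite.mono ?_ (Set.infinite_range_of_injective (f := fun i => f (2 * i)) ?_)
      · rintro _ ⟨i, rfl⟩
        refine ⟨(hfU _).1, ?_⟩
        have h1 : f (2 * i) ∈ A := ⟨i, rfl⟩
        change g (f (2 * i)) = _
        simp only [g]
        rw [if_pos h1]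
      · intro i j hij
        have := hf hij
        omega

theorem exists_shrink (J T : Set ℕ) (hJ : J.Infinite) (hJc : Jᶜ.Infinite) (hT : T.Infinite)
    (hTc : Tᶜ.Infinite) : ∃ η : Perm ℕ, ∀ m ∈ T, η m ∈ J := by
  have := hJ.to_subtype
  have := hJc.to_subtype
  have := hT.to_subtype
  have := hTc.to_subtype
  obtain ⟨e1⟩ : Nonempty (T ≃ J) := nonempty_equiv_of_countable
  obtain ⟨e2⟩ : Nonempty ((Tᶜ : Set ℕ) ≃ (Jᶜ : Set ℕ)) := nonempty_equiv_of_countable
  refine ⟨(Equiv.Set.sumCompl T).symm.trans ((Equiv.sumCongr e1 e2).trans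
    (Equiv.Set.sumCompl J)), ?_⟩
  intro m hm
  rw [Equiv.trans_apply, Equiv.trans_apply, Equiv.Set.sumCompl_symm_apply_of_mem hm]
  simp

/-! ### the operations -/

/-- displaced sequence of a permutation -/
noncomputable def fx (x : Perm ℕ) : ℕ → ℕ :=
  if h : {m | x m ≠ m}.Infinite then (exists_disp x _ h fun _ hm => hm).choose else id

theorem fx_inj (x : Perm ℕ) : Injective (fx x) := by
  unfold fx
  split_ifs with h
  · exact (exists_disp x _ h fun _ hm => hm).choose_spec.1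
  · exact injective_id

theorem fx_disp (x : Perm ℕ) (h : {m | x m ≠ m}.Infinite) (i j : ℕ) : x (fx x i) ≠ fx x j := by
  unfold fx
  rw [dif_pos h]
  exact (exists_disp x _ h fun _ hm => hm).choose_spec.2.2 i j

/-- the embedding of the cells -/
noncomputable def ph (x : Perm ℕ) (c : Cell) : ℕ := fx x (Encodable.encode c)

theorem ph_inj (x : Perm ℕ) : Injective (ph x) :=
  (fx_inj x).comp Encodable.encode_injective

theorem ph_disp (x : Perm ℕ) (h : {m | x m ≠ m}.Infinite) (c d : Cell) : x (ph x c) ≠ ph x d :=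
  fx_disp x h _ _

/-- the target set -/
def J (x : Perm ℕ) : Set ℕ := Set.range (tgt (ph x))

theorem J_inf (x : Perm ℕ) : (J x).Infinite :=
  Set.infinite_range_of_injective (tgt_inj _ (ph_inj x))

theorem J_coinf (x : Perm ℕ) : (J x)ᶜ.Infinite := by
  refine Set.Infinite.mono ?_ (Set.infinite_range_of_injective
    (f := fun q : ℕ => ph x ((q, 0), none)) ?_)
  · rintro _ ⟨q, rfl⟩ ⟨q', hq'⟩
    have := ph_inj x hq'
    simp at this
  · intro q q' h
    have := ph_inj x h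
    simpa using this

/-- the permutation with the given extension -/
noncomputable def W (x z : Perm ℕ) : Perm ℕ :=
  if h : ∃ w, ext (tgt (ph x)) (tgt_inj _ (ph_inj x)) w = z then h.choose else 1

theorem W_spec (x z : Perm ℕ) (hz : ∀ m, z m ≠ m → m ∈ J x) :
    ext (tgt (ph x)) (tgt_inj _ (ph_inj x)) (W x z) = z := by
  have h : ∃ w, ext (tgt (ph x)) (tgt_inj _ (ph_inj x)) w = z := exists_ext _ _ z hz
  unfold W
  rw [dif_pos h]
  exact h.choose_spec

theorem exists_F5 (x z : Perm ℕ) : ∃ η : Perm ℕ, ({m | m ∉ J x ∧ z m = m}.Infinite →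
    (∀ m ∈ J x, η m ∈ J x) ∧ ∀ m, z m ≠ m → η m ∈ J x) := by
  by_cases h : {m | m ∉ J x ∧ z m = m}.Infinite
  · obtain ⟨η, hη⟩ := exists_shrink (J x) {m | m ∈ J x ∨ z m ≠ m} (J_inf x) (J_coinf x)
      ((J_inf x).mono fun m hm => Or.inl hm) (by
        convert h using 1
        ext m
        simp)
    exact ⟨η, fun _ => ⟨fun m hm => hη m (Or.inl hm), fun m hm => hη m (Or.inr hm)⟩⟩
  · exact ⟨1, fun h' => absurd h' h⟩

/-- the operations -/
noncomputable def F (i : Fin 6) (x z : Perm ℕ) : Perm ℕ :=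
  match i with
  | 0 => arr (ph x) (ph_inj x) true (sh (tw (W x z)))
  | 1 => arr (ph x) (ph_inj x) true sv
  | 2 => arr (ph x) (ph_inj x) false (sh tu)
  | 3 => arr (ph x) (ph_inj x) false sv
  | 4 => (exists_F5 x z).choose
  | 5 => (exists_split (J x)ᶜ (J_coinf x) z).choose

/-! ### closure -/

/-- successive closures -/
def C {G : Type} [Group G] (F : Fin 6 → G → G → G) (s : G) : ℕ → Set G
  | 0 => {1, s}
  | n + 1 => C F s n ∪ Set.image2 (· * ·) (C F s n) (C F s n) ∪ (fun g => g⁻¹) '' (C F s n) ∪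
      ⋃ i, Set.image2 (F i) (C F s n) (C F s n)

theorem C_mono {G : Type} [Group G] (F : Fin 6 → G → G → G) (s : G) : Monotone (C F s) :=
  monotone_nat_of_le_succ fun _ _ hg => Or.inl (Or.inl (Or.inl hg))

theorem C_countable {G : Type} [Group G] (F : Fin 6 → G → G → G) (s : G) (n : ℕ) :
    (C F s n).Countable := by
  induction n with
  | zero => exact (Set.toFinite ({1, s} : Set G)).countable
  | succ n ih =>
    exact ((ih.union (ih.image2 ih _)).union (ih.image _)).union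
      (Set.countable_iUnion fun i => ih.image2 ih _)

theorem exists_closed {G : Type} [Group G] (F : Fin 6 → G → G → G) (s : G) :
    ∃ H : Subgroup G, (H : Set G).Countable ∧ s ∈ H ∧
      ∀ i, ∀ x ∈ H, ∀ z ∈ H, F i x z ∈ H := by
  have hmem : ∀ x z, x ∈ ⋃ n, C F s n → z ∈ ⋃ n, C F s n → ∃ n, x ∈ C F s n ∧ z ∈ C F s n := by
    intro x z hx hz
    obtain ⟨n, hn⟩ := Set.mem_iUnion.1 hx
    obtain ⟨k, hk⟩ := Set.mem_iUnion.1 hz
    exact ⟨max n k, C_mono F s (le_max_left _ _) hn, C_mono F s (le_max_right _ _) hk⟩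
  refine ⟨{ carrier := ⋃ n, C F s n
            one_mem' := Set.mem_iUnion.2 ⟨0, Or.inl rfl⟩
            mul_mem' := ?_
            inv_mem' := ?_ }, ?_, ?_, ?_⟩
  · intro x z hx hz
    obtain ⟨n, hn, hk⟩ := hmem x z hx hz
    exact Set.mem_iUnion.2 ⟨n + 1, Or.inl (Or.inl (Or.inr ⟨x, hn, z, hk, rfl⟩))⟩
  · intro x hx
    obtain ⟨n, hn⟩ := Set.mem_iUnion.1 hx
    exact Set.mem_iUnion.2 ⟨n + 1, Or.inl (Or.inr ⟨x, hn, rfl⟩)⟩
  · exact Set.countable_iUnion fun n => C_countable F s n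
  · exact Set.mem_iUnion.2 ⟨0, Or.inr rfl⟩
  · intro i x hx z hz
    obtain ⟨n, hn, hk⟩ := hmem x z hx hz
    exact Set.mem_iUnion.2 ⟨n + 1, Or.inr (Set.mem_iUnion.2 ⟨i, x, hn, z, hk, rfl⟩)⟩

/-! ### recurrence -/

/-- the two consequences of recurrence, for subgroups of `Perm ℕ` -/
structure Rec (H D : Subgroup (Perm ℕ)) : Prop where
  /-- elements come back -/
  R1 : ∀ y ∈ D, ∀ γ ∈ H, ∃ n : ℕ, 1 ≤ n ∧ (γ ^ n)⁻¹ * y * γ ^ n ∈ D
  /-- elements whose conjugates lie inside lie inside -/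
  R2 : ∀ z ∈ H, ∀ γ ∈ H, (∀ n : ℕ, 1 ≤ n → (γ ^ n)⁻¹ * z * γ ^ n ∈ D) → z ∈ D

theorem cm_mem {H D : Subgroup (Perm ℕ)} (hR : Rec H D) {x γ δ : Perm ℕ} (hx : x ∈ D)
    (hγ : γ ∈ H) (hδ : δ ∈ H) (S : Set ℕ) (hS : ∀ m ∈ S, x m ∉ S)
    (hγS : ∀ m, m ∉ S → γ m = m) (hδS : ∀ m, m ∉ S → δ m = m) :
    ∃ n k : ℕ, cm γ δ (n + 1) (k + 1) ∈ D := by
  have key : ∀ (g : Perm ℕ), (∀ m, m ∉ S → g m = m) → ∀ m ∈ S, g m ∈ S := by
    intro g hg m hm
    by_contra h
    exact h (by rw [g.injective (hg _ h)]; exact hm)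
  have kinv : ∀ (g : Perm ℕ), (∀ m, m ∉ S → g m = m) → ∀ m, m ∉ S → g⁻¹ m = m := by
    intro g hg m hm
    rw [Perm.inv_eq_iff_eq, hg m hm]
  have kpow : ∀ (g : Perm ℕ), (∀ m, m ∉ S → g m = m) → ∀ n : ℕ, ∀ m, m ∉ S → (g ^ n) m = m := by
    intro g hg n
    induction n with
    | zero => intro m _; rfl
    | succ n ih => intro m hm; rw [pow_succ, Perm.mul_apply, hg m hm, ih m hm]
  obtain ⟨n, hn, h1⟩ := hR.R1 x hx γ hγ
  have ha : x⁻¹ * ((γ ^ n)⁻¹ * x * γ ^ n) ∈ D := D.mul_mem (D.inv_mem hx) h1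
  set a := x⁻¹ * ((γ ^ n)⁻¹ * x * γ ^ n) with ha_def
  have haS : ∀ m ∈ S, a m = (γ ^ n) m := by
    intro m hm
    rw [ha_def, Perm.mul_apply, Perm.mul_apply, Perm.mul_apply,
      kinv _ (kpow γ hγS n) _ (hS _ (key _ (kpow γ hγS n) m hm)), ← Perm.mul_apply,
      inv_mul_cancel, Perm.one_apply]
  have haSi : ∀ m ∈ S, a⁻¹ m = (γ ^ n)⁻¹ m := by
    intro m hm
    rw [Perm.inv_eq_iff_eq, haS _ (key _ (kinv _ (kpow γ hγS n)) m hm), ← Perm.mul_apply,
      mul_inv_cancel, Perm.one_apply]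
  have haSc : ∀ m, m ∉ S → a m ∉ S := by
    intro m hm h
    have h2 : a ((γ ^ n)⁻¹ (a m)) = a m := by
      rw [haS _ (key _ (kinv _ (kpow γ hγS n)) _ h), ← Perm.mul_apply, mul_inv_cancel,
        Perm.one_apply]
    have h3 := a.injective h2
    have h4 := key _ (kinv _ (kpow γ hγS n)) _ h
    rw [h3] at h4
    exact hm h4
  obtain ⟨k, hk, h5⟩ := hR.R1 a ha δ hδ
  have hb : a⁻¹ * ((δ ^ k)⁻¹ * a * δ ^ k) ∈ D := D.mul_mem (D.inv_mem ha) h5
  have hb' : a⁻¹ * ((δ ^ k)⁻¹ * a * δ ^ k) = cm γ δ n k := by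
    ext m
    unfold cm
    by_cases hm : m ∈ S
    · have h6 := key _ (kpow δ hδS k) m hm
      have h7 := key _ (kpow γ hγS n) _ h6
      have h8 := key _ (kinv _ (kpow δ hδS k)) _ h7
      simp only [Perm.mul_apply]
      rw [haS _ h6, haSi _ h8]
    · have h6 := kpow δ hδS k m hm
      simp only [Perm.mul_apply]
      rw [h6, kinv _ (kpow δ hδS k) _ (haSc m hm), kpow γ hγS n m hm,
        kinv _ (kpow δ hδS k) _ hm, kinv _ (kpow γ hγS n) _ hm, ← Perm.mul_apply,
        inv_mul_cancel, Perm.one_apply]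
  obtain ⟨n', rfl⟩ : ∃ n', n = n' + 1 := ⟨n - 1, by omega⟩
  obtain ⟨k', rfl⟩ : ∃ k', k = k' + 1 := ⟨k - 1, by omega⟩
  exact ⟨n', k', hb' ▸ hb⟩

theorem le_of_rec {H D : Subgroup (Perm ℕ)} (hR : Rec H D)
    (hH : ∀ i, ∀ x ∈ H, ∀ z ∈ H, F i x z ∈ H) {x : Perm ℕ} (hxH : x ∈ H) (hx : x ∈ D)
    (hinf : {m | x m ≠ m}.Infinite) : H ≤ D := by
  have hS : ∀ m ∈ Set.range (ph x), x m ∉ Set.range (ph x) := by
    rintro _ ⟨c, rfl⟩ ⟨d, hd⟩
    exact ph_disp x hinf c d hd.symm
  have harr : ∀ b g, ∀ m, m ∉ Set.range (ph x) → arr (ph x) (ph_inj x) b g m = m := by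
    intro b g m hm
    apply arr_off
    intro a ha
    exact hm ⟨_, ha⟩
  -- step 1
  have s1 : ∀ z ∈ H, (∀ m, z m ≠ m → m ∈ J x) → z ∈ D := by
    intro z hz hzJ
    obtain ⟨n, k, h1⟩ := cm_mem hR hx (hH 0 x hxH z hz) (hH 1 x hxH z hz) _ hS
      (harr _ _) (harr _ _)
    obtain ⟨n', k', h2⟩ := cm_mem hR hx (hH 2 x hxH z hz) (hH 3 x hxH z hz) _ hS
      (harr _ _) (harr _ _)
    have h3 := main_comm (ph x) (ph_inj x) (W x z) n k n' k'
    rw [W_spec x z hzJ] at h3
    rw [← h3]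
    exact D.mul_mem (D.mul_mem (D.mul_mem (D.inv_mem h1) (D.inv_mem h2)) h1) h2
  -- step 2
  have s2 : ∀ z ∈ H, {m | m ∉ J x ∧ z m = m}.Infinite → z ∈ D := by
    intro z hz hinf
    have hη := (exists_F5 x z).choose_spec hinf
    have hηH : (exists_F5 x z).choose ∈ H := hH 4 x hxH z hz
    set η := (exists_F5 x z).choose
    refine hR.R2 z hz η⁻¹ (H.inv_mem hηH) ?_
    intro n hn
    obtain ⟨n, rfl⟩ : ∃ n', n = n' + 1 := ⟨n - 1, by omega⟩
    have h1 : ∀ n : ℕ, ∀ m, z m ≠ m → (η ^ (n + 1)) m ∈ J x := by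
      intro n
      induction n with
      | zero => intro m hm; rw [zero_add, pow_one]; exact hη.2 m hm
      | succ n ih => intro m hm; rw [pow_succ', Perm.mul_apply]; exact hη.1 _ (ih m hm)
    have h2 : (η⁻¹ ^ (n + 1))⁻¹ * z * η⁻¹ ^ (n + 1) = η ^ (n + 1) * z * (η ^ (n + 1))⁻¹ := by
      rw [inv_pow, inv_inv]
    rw [h2]
    apply s1
    · exact H.mul_mem (H.mul_mem (H.pow_mem hηH _) hz) (H.inv_mem (H.pow_mem hηH _))
    · intro m hm
      have h3 : z ((η ^ (n + 1))⁻¹ m) ≠ (η ^ (n + 1))⁻¹ m := by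
        intro h4
        apply hm
        rw [Perm.mul_apply, Perm.mul_apply, h4, ← Perm.mul_apply, mul_inv_cancel, Perm.one_apply]
      have h5 := h1 n _ h3
      rwa [← Perm.mul_apply, mul_inv_cancel, Perm.one_apply] at h5
  -- step 3
  intro z hz
  have hπ := (exists_split (J x)ᶜ (J_coinf x) z).choose_spec
  have hπH : (exists_split (J x)ᶜ (J_coinf x) z).choose ∈ H := hH 5 x hxH z hz
  set π := (exists_split (J x)ᶜ (J_coinf x) z).choose
  have h1 : π ∈ D := s2 π hπH hπ.1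
  have h2 : π⁻¹ * z ∈ D := by
    apply s2 _ (H.mul_mem (H.inv_mem hπH) hz)
    convert hπ.2 using 1
    ext m
    rw [Set.mem_ofPred_eq, Set.mem_ofPred_eq, Perm.mul_apply, Perm.inv_eq_iff_eq]
    constructor
    · rintro ⟨a, b⟩; exact ⟨a, b.symm⟩
    · rintro ⟨a, b⟩; exact ⟨a, b.symm⟩
  have := D.mul_mem h1 h2
  rwa [mul_inv_cancel_left] at this

/-! ### permutations of finite support -/

/-- the permutations of finite support -/
def FS : Subgroup (Perm ℕ) where
  carrier := {g | {m | g m ≠ m}.Finite}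
  one_mem' := by simp
  mul_mem' := by
    intro g h hg hh
    refine (Set.Finite.union hg hh).subset ?_
    intro m hm
    by_cases h1 : h m = m
    · left
      intro h2
      apply hm
      change g (h m) = m
      rw [h1, h2]
    · exact Or.inr h1
  inv_mem' := by
    intro g hg
    refine Set.Finite.subset hg ?_
    intro m hm h1
    apply hm
    rw [Perm.inv_eq_iff_eq, h1]

theorem mem_FS (g : Perm ℕ) : g ∈ FS ↔ {m | g m ≠ m}.Finite := Iff.rfl

instance FS_normal : FS.Normal := by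
  constructor
  intro g hg h
  rw [mem_FS] at hg ⊢
  refine (hg.image h).subset ?_
  intro m hm
  refine ⟨h⁻¹ m, ?_, by rw [← Perm.mul_apply, mul_inv_cancel, Perm.one_apply]⟩
  intro h1
  apply hm
  change h (g (h⁻¹ m)) = m
  rw [h1, ← Perm.mul_apply, mul_inv_cancel, Perm.one_apply]

/-- a permutation all of whose powers have infinite support -/
theorem exists_shift : ∃ s : Perm ℕ, ∀ n : ℕ, 1 ≤ n → s ^ n ∉ FS := by
  let e : ℤ ≃ ℕ := Equiv.intEquivNat
  let s : Perm ℕ := e.symm.trans ((Equiv.addRight (1 : ℤ)).trans e)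
  refine ⟨s, ?_⟩
  have h1 : ∀ n : ℕ, ∀ i : ℤ, (s ^ n) (e i) = e (i + n) := by
    intro n
    induction n with
    | zero => intro i; simp
    | succ n ih =>
      intro i
      rw [pow_succ', Perm.mul_apply, ih]
      change e (e.symm (e (i + n)) + 1) = _
      rw [Equiv.symm_apply_apply]
      push_cast
      rw [add_assoc]
  intro n hn h2
  rw [mem_FS] at h2
  have h3 : {m | (s ^ n) m ≠ m} = Set.univ := by
    ext m
    simp only [Set.mem_ofPred_eq, Set.mem_univ, iff_true]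
    intro h4
    have h5 := h1 n (e.symm m)
    rw [Equiv.apply_symm_apply, h4] at h5
    have h6 := congrArg e.symm h5
    rw [Equiv.symm_apply_apply] at h6
    omega
  rw [h3] at h2
  exact Set.infinite_univ h2

end Q28.Boom
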