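import Mathlib

/-!
Echelon subgroups of free groups: definitions and basic tools.
-/

namespace Q28.Ech

open FreeGroup

/-- For an ordered free basis `x_1, ..., x_n` of `F` (indexed here by `Fin n`), the subgroup
`F_i = ⟨x_1, ..., x_i⟩` generated by the first `i` elements of the basis. -/
def level {n : ℕ} {F : Type} [Group F] (X : FreeGroupBasis (Fin n) F) (i : ℕ) : Subgroup F :=
  Subgroup.closure {g | ∃ j : Fin n, (j : ℕ) < i ∧ g = X j}

/-- `H` is in echelon form with respect to the ordered free basis `X` of `F`: it has an ordered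
free basis `y_1, ..., y_r` and there are indices `i_1 < ... < i_r` such that `y_j` lies in
`F_(i_j)` and not in `F_(i_j - 1)`. (The indices are `Fin n`-valued, so `i_j` is `i j + 1`.) -/
def InEchelonForm {n : ℕ} {F : Type} [Group F] (X : FreeGroupBasis (Fin n) F)
    (H : Subgroup F) : Prop :=
  ∃ (r : ℕ) (y : FreeGroupBasis (Fin r) H) (i : Fin r → Fin n), StrictMono i ∧
    ∀ j : Fin r, (y j : F) ∈ level X (i j + 1) ∧ (y j : F) ∉ level X (i j)

/-- `H` is an echelon subgroup of the free group `F` of finite rank: it is in echelon form with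
respect to some ordered free basis of `F`. -/
def IsEchelon {F : Type} [Group F] (H : Subgroup F) : Prop :=
  ∃ (n : ℕ) (X : FreeGroupBasis (Fin n) F), InEchelonForm X H

/-! ### free subgroups -/

theorem blocks_injective {ι α : Type} (B : ι × Bool → List (α × Bool))
    (h0 : ∀ p, B p ≠ []) (h1 : ∀ p, FreeGroup.IsReduced (B p))
    (h2 : ∀ p q, (p.1 = q.1 → p.2 = q.2) → ∀ a ∈ (B p).getLast?, ∀ b ∈ (B q).head?,
      a.1 = b.1 → a.2 = b.2)
    (h3 : ∀ i, B (i, false) = invRev (B (i, true))) :
    Function.Injective (FreeGroup.lift fun i => FreeGroup.mk (B (i, true))) := by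
  have key : ∀ L : List (ι × Bool), FreeGroup.lift (fun i => FreeGroup.mk (B (i, true)))
      (FreeGroup.mk L) = FreeGroup.mk ((L.map B).flatten) := by
    intro L
    induction L with
    | nil => rfl
    | cons p L ih =>
      have h4 : (FreeGroup.mk (p :: L)) = FreeGroup.mk [p] * FreeGroup.mk L := rfl
      rw [h4, MonoidHom.map_mul, ih, List.map_cons, List.flatten_cons, ← FreeGroup.mul_mk]
      congr 1
      obtain ⟨i, b⟩ := p
      cases b
      · rw [h3, ← FreeGroup.inv_mk]
        simp [FreeGroup.lift_mk]
      · simp [FreeGroup.lift_mk]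
  classical
  rw [injective_iff_map_eq_one]
  intro g hg
  have h5 := key g.toWord
  rw [FreeGroup.mk_toWord, hg] at h5
  by_contra hne
  have h6 : g.toWord ≠ [] := fun h => hne (FreeGroup.toWord_eq_nil_iff.1 h)
  have h7 : FreeGroup.IsReduced ((g.toWord.map B).flatten) := by
    unfold FreeGroup.IsReduced
    rw [List.isChain_flatten]
    · refine ⟨?_, ?_⟩
      · intro l hl
        obtain ⟨p, _, rfl⟩ := List.mem_map.1 hl
        exact h1 p
      · rw [List.isChain_map]
        have h8 : FreeGroup.IsReduced g.toWord := FreeGroup.isReduced_toWord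
        refine List.IsChain.imp ?_ h8
        intro p q hpq a ha b hb
        exact h2 p q hpq a ha b hb
    · intro hl
      obtain ⟨p, _, hp⟩ := List.mem_map.1 hl
      exact h0 p hp
  have h8 := h7.reduce_eq
  have h9 : (FreeGroup.mk ((g.toWord.map B).flatten)).toWord = [] := by
    rw [← h5]; exact FreeGroup.toWord_one
  rw [FreeGroup.toWord_mk, h8] at h9
  cases hL : g.toWord with
  | nil => exact h6 hL
  | cons p L =>
    rw [hL, List.map_cons, List.flatten_cons] at h9
    exact h0 p (List.append_eq_nil_iff.1 h9).1

/-- the free basis of the image -/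
noncomputable def basisRange {F : Type} [Group F] {r : ℕ} (f : Fin r → F)
    (h : Function.Injective (FreeGroup.lift f)) :
    FreeGroupBasis (Fin r) (FreeGroup.lift f).range :=
  (FreeGroupBasis.ofFreeGroup (Fin r)).map (MonoidHom.ofInjective h)

theorem basisRange_apply {F : Type} [Group F] {r : ℕ} (f : Fin r → F)
    (h : Function.Injective (FreeGroup.lift f)) (j : Fin r) :
    ((basisRange f h j : (FreeGroup.lift f).range) : F) = f j := by
  unfold basisRange
  rw [FreeGroupBasis.map_apply, FreeGroupBasis.ofFreeGroup_apply, MonoidHom.ofInjective_apply,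
    FreeGroup.lift_apply_of]

/-! ### ranks -/

theorem closure_range {ι G : Type} [Group G] (X : FreeGroupBasis ι G) :
    Subgroup.closure (Set.range X) = ⊤ := by
  have h1 : (Set.range X : Set G) = X.repr.symm '' (Set.range (FreeGroup.of : ι → _)) := by
    rw [← Set.range_comp]
    congr 1
  rw [h1]
  have h2 : Subgroup.closure (X.repr.symm '' (Set.range (FreeGroup.of : ι → _))) =
      (Subgroup.closure (Set.range (FreeGroup.of : ι → _))).map X.repr.symm.toMonoidHom := by
    rw [MonoidHom.map_closure]; rfl
  rw [h2, FreeGroup.closure_range_of, ← MonoidHom.range_eq_map, MonoidHom.range_eq_top]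
  exact X.repr.symm.surjective

theorem card_le_of_gen {n k : ℕ} {G : Type} [Group G] (X : FreeGroupBasis (Fin n) G)
    (S : Fin k → G) (hS : Subgroup.closure (Set.range S) = ⊤) : n ≤ k := by
  let Φ : (Fin n → Multiplicative (ZMod 2)) → (Fin k → Multiplicative (ZMod 2)) :=
    fun φ j => X.lift φ (S j)
  have hΦ : Function.Injective Φ := by
    intro φ ψ h
    apply X.lift.injective
    apply MonoidHom.eq_of_eqOn_top
    rw [← hS]
    apply MonoidHom.eqOn_closure
    rintro _ ⟨j, rfl⟩
    exact congrFun h j
  have h1 := Fintype.card_le_of_injective Φ hΦ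
  rw [Fintype.card_fun, Fintype.card_fun, Fintype.card_fin, Fintype.card_fin] at h1
  have h2 : Fintype.card (Multiplicative (ZMod 2)) = 2 := by
    rw [Fintype.card_multiplicative, ZMod.card]
  rw [h2] at h1
  exact (Nat.pow_le_pow_iff_right (by norm_num)).1 h1

theorem two_le_of_noncomm {r : ℕ} {G : Type} [Group G] (X : FreeGroupBasis (Fin r) G)
    (u v : G) (h : u * v ≠ v * u) : 2 ≤ r := by
  by_contra hr
  apply h
  have hsub : ∀ a ∈ Set.range X, ∀ b ∈ Set.range X, a = b := by
    rintro _ ⟨i, rfl⟩ _ ⟨j, rfl⟩
    congr 1
    ext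
    omega
  have h1 : ∀ a ∈ Set.range X, ∀ b, a * b = b * a := by
    intro a ha b
    have hb : b ∈ Subgroup.closure (Set.range X) := by rw [closure_range]; trivial
    induction hb using Subgroup.closure_induction with
    | mem b hb => rw [hsub a ha b hb]
    | one => rw [mul_one, one_mul]
    | mul b c _ _ hb hc => rw [← mul_assoc, hb, mul_assoc, hc, mul_assoc]
    | inv b _ hb => exact ((Commute.inv_right (show Commute a b from hb)) : _)
  have hu : u ∈ Subgroup.closure (Set.range X) := by rw [closure_range]; trivial
  induction hu using Subgroup.closure_induction with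
  | mem a ha => exact h1 a ha v
  | one => rw [mul_one, one_mul]
  | mul b c _ _ hb hc =>
    have hb' : b * v = v * b := by
      by_contra h2
      exact h2 (hb h2)
    have hc' : c * v = v * c := by
      by_contra h2
      exact h2 (hc h2)
    rw [mul_assoc, hc', ← mul_assoc, hb', mul_assoc]
  | inv b _ hb =>
    have hb' : b * v = v * b := by
      by_contra h2
      exact h2 (hb h2)
    exact ((Commute.inv_left (show Commute b v from hb')) : _)

end Q28.Ech
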