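import Pool.Agent.Q28.Ech

/-!
The intersection of the echelon subgroups `⟨x, y²x²y²⟩` and `⟨y, x²y²x²⟩`.
-/

namespace Q28.Ech

open FreeGroup

abbrev F2 : Type := FreeGroup (Fin 2)

abbrev x : F2 := FreeGroup.of 0
abbrev y : F2 := FreeGroup.of 1

/-! ### automata -/

/-- reading of a word by a system of partial injections -/
def run {α S : Type} (step : α × Bool → S → Option S) : List (α × Bool) → S → Option S
  | [], s => some s
  | l :: L, s => (step l s).bind (run step L)

theorem run_append {α S : Type} (step : α × Bool → S → Option S) (L M : List (α × Bool)) (s : S) :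
    run step (L ++ M) s = (run step L s).bind (run step M) := by
  induction L generalizing s with
  | nil => rfl
  | cons l L ih =>
    simp only [List.cons_append, run]
    cases step l s with
    | none => rfl
    | some t => simp [ih]

theorem run_step {α S : Type} (step : α × Bool → S → Option S)
    (hinv : ∀ l s t, step l s = some t → step (l.1, !l.2) t = some s)
    {L M : List (α × Bool)} (h : Red.Step L M) (s t : S) (hs : run step L s = some t) :
    run step M s = some t := by
  obtain @⟨A, B, a, b⟩ := h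
  rw [run_append] at hs ⊢
  cases hA : run step A s with
  | none => rw [hA] at hs; simp at hs
  | some u =>
    rw [hA] at hs
    simp only [Option.bind_some, run] at hs ⊢
    cases h2 : step (a, b) u with
    | none => rw [h2] at hs; simp at hs
    | some v =>
      rw [h2] at hs
      have h3 := hinv _ _ _ h2
      simp only [Option.bind_some] at hs
      rw [h3] at hs
      simpa using hs

theorem run_red {α S : Type} (step : α × Bool → S → Option S)
    (hinv : ∀ l s t, step l s = some t → step (l.1, !l.2) t = some s)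
    {L M : List (α × Bool)} (h : Red L M) (s t : S) (hs : run step L s = some t) :
    run step M s = some t := by
  induction h with
  | refl => exact hs
  | tail _ h1 ih => exact run_step step hinv h1 s t ih

theorem run_inv {α S : Type} (step : α × Bool → S → Option S)
    (hinv : ∀ l s t, step l s = some t → step (l.1, !l.2) t = some s)
    (L : List (α × Bool)) (s t : S) (hs : run step L s = some t) :
    run step (invRev L) t = some s := by
  induction L generalizing s with
  | nil =>
    simp only [run, Option.some.injEq] at hs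
    subst hs
    rfl
  | cons l L ih =>
    simp only [run] at hs
    cases h2 : step l s with
    | none => rw [h2] at hs; simp at hs
    | some u =>
      rw [h2] at hs
      have h3 := ih u hs
      have h4 : invRev (l :: L) = invRev L ++ [(l.1, !l.2)] := by
        simp [invRev]
      rw [h4, run_append, h3]
      simp [run, hinv _ _ _ h2]

/-- the subgroup read by a system of partial injections -/
def acc {α S : Type} [DecidableEq α] (step : α × Bool → S → Option S)
    (hinv : ∀ l s t, step l s = some t → step (l.1, !l.2) t = some s) (s₀ : S) :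
    Subgroup (FreeGroup α) where
  carrier := {g | run step g.toWord s₀ = some s₀}
  one_mem' := by
    change run step (1 : FreeGroup α).toWord s₀ = _
    rw [toWord_one]; rfl
  mul_mem' := by
    intro g h hg hh
    change run step (g * h).toWord s₀ = _
    rw [toWord_mul]
    refine run_red step hinv (reduce.red) _ _ ?_
    rw [run_append]
    have hg' : run step g.toWord s₀ = some s₀ := hg
    rw [hg']
    exact hh
  inv_mem' := by
    intro g hg
    change run step g⁻¹.toWord s₀ = _
    rw [toWord_inv]
    exact run_inv step hinv _ _ _ hg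

/-! ### the two automata -/

/-- the automaton of `⟨x, y²x²y²⟩` -/
def st1 (l : Fin 2 × Bool) (s : Fin 6) : Option (Fin 6) :=
  match l, s with
  | (0, true), 0 => some 0
  | (0, false), 0 => some 0
  | (1, true), 0 => some 1
  | (1, true), 1 => some 2
  | (0, true), 2 => some 3
  | (0, true), 3 => some 4
  | (1, true), 4 => some 5
  | (1, true), 5 => some 0
  | (1, false), 1 => some 0
  | (1, false), 2 => some 1
  | (0, false), 3 => some 2
  | (0, false), 4 => some 3
  | (1, false), 5 => some 4
  | (1, false), 0 => some 5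
  | _, _ => none

/-- the automaton of `⟨y, x²y²x²⟩` -/
def st2 (l : Fin 2 × Bool) (s : Fin 6) : Option (Fin 6) := st1 (1 - l.1, l.2) s

theorem st1_inv : ∀ l s t, st1 l s = some t → st1 (l.1, !l.2) t = some s := by decide

theorem st2_inv : ∀ l s t, st2 l s = some t → st2 (l.1, !l.2) t = some s := by decide

/-- the component of the product, with a height -/
def height (s : Fin 6 × Fin 6) : Option ℤ :=
  match s with
  | (0, 0) => some 0
  | (1, 0) => some (-1)
  | (2, 0) => some (-2)
  | (3, 1) => some (-1)
  | (4, 2) => some 0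
  | (5, 3) => some (-1)
  | (0, 4) => some (-2)
  | (0, 5) => some (-1)
  | (0, 1) => some 1
  | (0, 2) => some 2
  | (1, 3) => some 1
  | (2, 4) => some 0
  | (3, 5) => some 1
  | (4, 0) => some 2
  | (5, 0) => some 1
  | _ => none

/-- exponent difference of a letter -/
def eps (l : Fin 2 × Bool) : ℤ := (if l.1 = 0 then 1 else -1) * (if l.2 then 1 else -1)

theorem height_step : ∀ l s1 s2 t1 t2 : _, st1 l s1 = some t1 → st2 l s2 = some t2 →
    ∀ h, height (s1, s2) = some h → height (t1, t2) = some (h + eps l) := by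
  have : ∀ l s1 s2 t1 t2 : _, st1 l s1 = some t1 → st2 l s2 = some t2 →
    height (s1, s2) ≠ none → height (t1, t2) = (height (s1, s2)).map (· + eps l) := by decide
  intro l s1 s2 t1 t2 h1 h2 h hh
  rw [this l s1 s2 t1 t2 h1 h2 (by rw [hh]; simp), hh]
  rfl

/-- difference of exponents of a word -/
def lsum (L : List (Fin 2 × Bool)) : ℤ := (L.map eps).sum

theorem height_run (L : List (Fin 2 × Bool)) : ∀ s1 s2 t1 t2, run st1 L s1 = some t1 →
    run st2 L s2 = some t2 → ∀ h, height (s1, s2) = some h →
    height (t1, t2) = some (h + lsum L) := by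
  induction L with
  | nil =>
    intro s1 s2 t1 t2 h1 h2 h hh
    simp only [run, Option.some.injEq] at h1 h2
    subst h1 h2
    rw [hh]
    simp [lsum]
  | cons l L ih =>
    intro s1 s2 t1 t2 h1 h2 h hh
    simp only [run] at h1 h2
    cases h3 : st1 l s1 with
    | none => rw [h3] at h1; simp at h1
    | some u1 =>
      cases h4 : st2 l s2 with
      | none => rw [h4] at h2; simp at h2
      | some u2 =>
        rw [h3] at h1
        rw [h4] at h2
        rw [ih u1 u2 t1 t2 h1 h2 _ (height_step l s1 s2 u1 u2 h3 h4 h hh)]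
        simp [lsum, add_assoc]

/-- the homomorphism `x ↦ 1`, `y ↦ -1` to the integers -/
def dif : F2 →* Multiplicative ℤ :=
  FreeGroup.lift fun i => Multiplicative.ofAdd (if i = 0 then 1 else -1)

theorem dif_mk (L : List (Fin 2 × Bool)) : dif (FreeGroup.mk L) = Multiplicative.ofAdd (lsum L) := by
  induction L with
  | nil => rfl
  | cons l L ih =>
    have h4 : (FreeGroup.mk (l :: L)) = FreeGroup.mk [l] * FreeGroup.mk L := rfl
    rw [h4, MonoidHom.map_mul, ih]
    obtain ⟨i, b⟩ := l
    have h5 : dif (FreeGroup.mk [(i, b)]) = Multiplicative.ofAdd (eps (i, b)) := by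
      fin_cases i <;> cases b <;> rfl
    rw [h5, ← ofAdd_add]
    simp [lsum]

/-- `⟨x, y²x²y²⟩` -/
def gen1 : Fin 2 → F2 := ![x, y * y * x * x * y * y]
/-- `⟨y, x²y²x²⟩` -/
def gen2 : Fin 2 → F2 := ![y, x * x * y * y * x * x]

def H1 : Subgroup F2 := (FreeGroup.lift gen1).range
def H2 : Subgroup F2 := (FreeGroup.lift gen2).range

theorem range_le {F : Type} [Group F] {r : ℕ} (f : Fin r → F) (K : Subgroup F)
    (h : ∀ i, f i ∈ K) : (FreeGroup.lift f).range ≤ K := by
  rw [FreeGroup.range_lift_eq_closure, Subgroup.closure_le]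
  rintro _ ⟨i, rfl⟩
  exact h i

theorem H1_le : H1 ≤ acc st1 st1_inv 0 := by
  apply range_le
  intro i
  fin_cases i
  · change run st1 (FreeGroup.toWord _) 0 = some 0
    decide
  · change run st1 (FreeGroup.toWord _) 0 = some 0
    decide

theorem H2_le : H2 ≤ acc st2 st2_inv 0 := by
  apply range_le
  intro i
  fin_cases i
  · change run st2 (FreeGroup.toWord _) 0 = some 0
    decide
  · change run st2 (FreeGroup.toWord _) 0 = some 0
    decide

theorem dif_inter (g : F2) (h1 : g ∈ H1) (h2 : g ∈ H2) : dif g = 1 := by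
  have h3 : run st1 g.toWord 0 = some 0 := H1_le h1
  have h4 : run st2 g.toWord 0 = some 0 := H2_le h2
  have h5 := height_run g.toWord 0 0 0 0 h3 h4 0 rfl
  have h6 : lsum g.toWord = 0 := by
    have : height (0, 0) = some 0 := rfl
    rw [this] at h5
    simpa using h5.symm
  have h7 := dif_mk g.toWord
  rw [FreeGroup.mk_toWord, h6] at h7
  exact h7

/-- the reflection `t ↦ c - t` of the integers -/
def rf (c : ℤ) : Equiv.Perm ℤ where
  toFun t := c - t
  invFun t := c - t
  left_inv t := by ring
  right_inv t := by ring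

theorem rf_rf (c : ℤ) : rf c * rf c = 1 := by
  ext t
  change c - (c - t) = t
  ring

/-- the homomorphism to the infinite dihedral group -/
def dih : F2 →* Equiv.Perm ℤ := FreeGroup.lift fun i => if i = 0 then rf 0 else rf 1

theorem dih_x : dih x = rf 0 := rfl
theorem dih_y : dih y = rf 1 := rfl

theorem mem_zpowers_rf (c : ℤ) (a : Equiv.Perm ℤ) (h : a ∈ Subgroup.zpowers (rf c)) :
    a = 1 ∨ a = rf c := by
  obtain ⟨k, hk⟩ := h
  have hk' : a = rf c ^ k := hk.symm
  rw [hk']
  rcases Int.even_or_odd k with ⟨m, hm⟩ | ⟨m, hm⟩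
  · left
    rw [hm, ← two_mul, zpow_mul, zpow_two, rf_rf, one_zpow]
  · right
    rw [hm, zpow_add, zpow_mul, zpow_two, rf_rf, one_zpow, one_mul, zpow_one]

theorem dih_H1 (g : F2) (h : g ∈ H1) : dih g = 1 ∨ dih g = rf 0 := by
  have h1 : H1 ≤ (Subgroup.zpowers (rf 0)).comap dih := by
    apply range_le
    intro i
    fin_cases i
    · exact Subgroup.mem_zpowers _
    · change dih (y * y * x * x * y * y) ∈ Subgroup.zpowers (rf 0)
      have : dih (y * y * x * x * y * y) = 1 := by
        simp only [MonoidHom.map_mul, dih_x, dih_y]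
        rw [rf_rf, one_mul, rf_rf, one_mul, rf_rf]
      rw [this]
      exact one_mem _
  exact mem_zpowers_rf _ _ (h1 h)

theorem dih_H2 (g : F2) (h : g ∈ H2) : dih g = 1 ∨ dih g = rf 1 := by
  have h1 : H2 ≤ (Subgroup.zpowers (rf 1)).comap dih := by
    apply range_le
    intro i
    fin_cases i
    · exact Subgroup.mem_zpowers _
    · change dih (x * x * y * y * x * x) ∈ Subgroup.zpowers (rf 1)
      have : dih (x * x * y * y * x * x) = 1 := by
        simp only [MonoidHom.map_mul, dih_x, dih_y]
        rw [rf_rf, one_mul, rf_rf, one_mul, rf_rf]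
      rw [this]
      exact one_mem _
  exact mem_zpowers_rf _ _ (h1 h)

theorem dih_inter (g : F2) (h1 : g ∈ H1) (h2 : g ∈ H2) : dih g = 1 := by
  rcases dih_H1 g h1 with h | h
  · exact h
  · rcases dih_H2 g h2 with h' | h'
    · exact h'
    · rw [h] at h'
      have := congrArg (fun a : Equiv.Perm ℤ => a 0) h'
      change (0 : ℤ) - 0 = 1 - 0 at this
      omega

/-! ### no power of a primitive element lies in the intersection -/

abbrev C2 : Type := Multiplicative (ZMod 2)

/-- the exponent sums -/
def ex (i : Fin 2) : F2 →* Multiplicative ℤ :=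
  FreeGroup.lift fun j => Multiplicative.ofAdd (if j = i then 1 else 0)

theorem dif_eq (g : F2) : Multiplicative.toAdd (dif g) =
    Multiplicative.toAdd (ex 0 g) - Multiplicative.toAdd (ex 1 g) := by
  have h : dif = (ex 0) / (ex 1) := by
    ext i
    fin_cases i <;> rfl
  rw [h]
  rfl

theorem hom_eq (φ : F2 →* C2) (g : F2) : φ g = φ x ^ (Multiplicative.toAdd (ex 0 g)) *
    φ y ^ (Multiplicative.toAdd (ex 1 g)) := by
  have h : φ = ((zpowersHom C2 (φ x)).comp (ex 0)) * ((zpowersHom C2 (φ y)).comp (ex 1)) := by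
    ext i
    fin_cases i
    · change φ x = φ x ^ (1 : ℤ) * φ y ^ (0 : ℤ)
      simp
    · change φ y = φ x ^ (0 : ℤ) * φ y ^ (1 : ℤ)
      simp
  conv_lhs => rw [h]
  rfl

theorem C2_sq (a : C2) : a * a = 1 := by revert a; decide

/-- the shape of the images in the infinite dihedral group -/
def Shape (g : F2) : Prop := ∃ c : ℤ, Even (c - Multiplicative.toAdd (ex 1 g)) ∧
  ((Even (Multiplicative.toAdd (ex 0 g) + Multiplicative.toAdd (ex 1 g)) ∧
      ∀ t, dih g t = t + c) ∨
    (¬ Even (Multiplicative.toAdd (ex 0 g) + Multiplicative.toAdd (ex 1 g)) ∧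
      ∀ t, dih g t = c - t))

theorem shape_all (g : F2) : Shape g := by
  let S : Subgroup F2 :=
    { carrier := {g | Shape g}
      one_mem' := ⟨0, by simp, Or.inl ⟨by simp, fun t => by simp⟩⟩
      mul_mem' := by
        rintro g h ⟨c, hc, hg⟩ ⟨d, hd, hh⟩
        have e0 : Multiplicative.toAdd (ex 0 (g * h)) = Multiplicative.toAdd (ex 0 g) +
          Multiplicative.toAdd (ex 0 h) := by rw [MonoidHom.map_mul]; rfl
        have e1 : Multiplicative.toAdd (ex 1 (g * h)) = Multiplicative.toAdd (ex 1 g) +
          Multiplicative.toAdd (ex 1 h) := by rw [MonoidHom.map_mul]; rfl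
        have e2 : ∀ t, dih (g * h) t = dih g (dih h t) := by
          intro t; rw [MonoidHom.map_mul]; rfl
        rcases hg with ⟨p1, q1⟩ | ⟨p1, q1⟩ <;> rcases hh with ⟨p2, q2⟩ | ⟨p2, q2⟩
        · refine ⟨c + d, ?_, Or.inl ⟨?_, ?_⟩⟩
          · rw [e1]; grind
          · rw [e0, e1]; grind
          · intro t; rw [e2, q2, q1]; ring
        · refine ⟨c + d, ?_, Or.inr ⟨?_, ?_⟩⟩
          · rw [e1]; grind
          · rw [e0, e1]; grind
          · intro t; rw [e2, q2, q1]; ring
        · refine ⟨c - d, ?_, Or.inr ⟨?_, ?_⟩⟩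
          · rw [e1]; grind
          · rw [e0, e1]; grind
          · intro t; rw [e2, q2, q1]; ring
        · refine ⟨c - d, ?_, Or.inl ⟨?_, ?_⟩⟩
          · rw [e1]; grind
          · rw [e0, e1]; grind
          · intro t; rw [e2, q2, q1]; ring
      inv_mem' := by
        rintro g ⟨c, hc, hg⟩
        have e0 : Multiplicative.toAdd (ex 0 g⁻¹) = - Multiplicative.toAdd (ex 0 g) := by
          rw [MonoidHom.map_inv]; rfl
        have e1 : Multiplicative.toAdd (ex 1 g⁻¹) = - Multiplicative.toAdd (ex 1 g) := by
          rw [MonoidHom.map_inv]; rfl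
        have e2 : ∀ t, dih g⁻¹ t = (dih g)⁻¹ t := by
          intro t; rw [MonoidHom.map_inv]
        rcases hg with ⟨p1, q1⟩ | ⟨p1, q1⟩
        · refine ⟨-c, ?_, Or.inl ⟨?_, ?_⟩⟩
          · rw [e1]; grind
          · rw [e0, e1]; grind
          · intro t; rw [e2, Equiv.Perm.inv_eq_iff_eq, q1]; ring
        · refine ⟨c, ?_, Or.inr ⟨?_, ?_⟩⟩
          · rw [e1]; grind
          · rw [e0, e1]; grind
          · intro t; rw [e2, Equiv.Perm.inv_eq_iff_eq, q1]; ring }
  have h : (⊤ : Subgroup F2) ≤ S := by
    rw [← FreeGroup.closure_range_of, Subgroup.closure_le]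
    rintro _ ⟨i, rfl⟩
    fin_cases i
    · refine ⟨0, ?_, Or.inr ⟨?_, fun t => rfl⟩⟩
      · change Even ((0 : ℤ) - 0); decide
      · change ¬ Even ((1 : ℤ) + 0); decide
    · refine ⟨1, ?_, Or.inr ⟨?_, fun t => rfl⟩⟩
      · change Even ((1 : ℤ) - 1); decide
      · change ¬ Even ((0 : ℤ) + 1); decide
  exact h (Subgroup.mem_top g)

theorem addRight_zpow (c m : ℤ) : (Equiv.addRight c : Equiv.Perm ℤ) ^ m =
    Equiv.addRight (m * c) := by
  have h : ∀ k : ℕ, (Equiv.addRight c : Equiv.Perm ℤ) ^ k = Equiv.addRight ((k : ℤ) * c) := by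
    intro k
    induction k with
    | zero => ext t; simp
    | succ k ih =>
      rw [pow_succ, ih]
      ext t
      change t + c + k * c = t + ((k + 1 : ℕ) : ℤ) * c
      push_cast
      ring
  obtain ⟨k, rfl | rfl⟩ := m.eq_nat_or_neg
  · rw [zpow_natCast, h]
  · rw [zpow_neg, zpow_natCast, h]
    ext t
    rw [Equiv.Perm.inv_eq_iff_eq]
    change t = t + -(k : ℤ) * c + k * c
    ring

theorem no_power {n : ℕ} (X : FreeGroupBasis (Fin n) F2) (j : Fin n) (m : ℤ) (hm : m ≠ 0)
    (h1 : X j ^ m ∈ H1) (h2 : X j ^ m ∈ H2) : False := by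
  -- equal exponents
  have e1 : Multiplicative.toAdd (ex 0 (X j)) = Multiplicative.toAdd (ex 1 (X j)) := by
    have h3 := dif_inter _ h1 h2
    rw [MonoidHom.map_zpow] at h3
    have h4 : m * Multiplicative.toAdd (dif (X j)) = 0 := by
      have := congrArg Multiplicative.toAdd h3
      simpa using this
    have h5 := dif_eq (X j)
    rcases mul_eq_zero.1 h4 with h6 | h6
    · exact absurd h6 hm
    · omega
  -- odd exponents
  have e2 : ¬ Even (Multiplicative.toAdd (ex 1 (X j))) := by
    rintro ⟨k, hk⟩
    let φ : F2 →* C2 := X.lift fun _ => Multiplicative.ofAdd 1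
    have h3 : φ (X j) = Multiplicative.ofAdd 1 := by
      simp [φ]
    have h4 := hom_eq φ (X j)
    rw [e1, hk, zpow_add, zpow_add, ← mul_zpow, C2_sq, one_zpow, ← mul_zpow, C2_sq, one_zpow,
      one_mul, h3] at h4
    exact absurd h4 (by decide)
  obtain ⟨c, hc, h3 | h3⟩ := shape_all (X j)
  · have h4 := dih_inter _ h1 h2
    rw [MonoidHom.map_zpow] at h4
    have h5 : dih (X j) = Equiv.addRight c := by
      ext t
      rw [h3.2]; rfl
    rw [h5] at h4
    have h6 : (m * c : ℤ) = 0 := by
      rw [addRight_zpow] at h4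
      have := congrArg (fun a : Equiv.Perm ℤ => a 0) h4
      simpa using this
    rcases mul_eq_zero.1 h6 with h7 | h7
    · exact hm h7
    · rw [h7] at hc
      apply e2
      grind
  · apply h3.1
    rw [e1]
    exact ⟨_, rfl⟩

end Q28.Ech
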