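import Pool.Agent.Q28.Ech2

/-!
A homomorphism of the free group of rank two to a nilpotent-by-cyclic group, and a subgroup of
rank four.
-/

namespace Q28.Ech

open FreeGroup

theorem level_zero {n : ℕ} {F : Type} [Group F] (X : FreeGroupBasis (Fin n) F) :
    level X 0 = ⊥ := by
  unfold level
  rw [Subgroup.closure_eq_bot_iff]
  rintro g ⟨j, hj, _⟩
  omega

theorem level_one {n : ℕ} {F : Type} [Group F] (X : FreeGroupBasis (Fin n) F) (h : 0 < n) :
    level X 1 ≤ Subgroup.zpowers (X ⟨0, h⟩) := by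
  unfold level
  rw [Subgroup.closure_le]
  rintro g ⟨j, hj, rfl⟩
  have : j = ⟨0, h⟩ := by ext; simp only; omega
  rw [this]
  exact Subgroup.mem_zpowers _

theorem level_top {F : Type} [Group F] (X : FreeGroupBasis (Fin 2) F) :
    level X 2 = ⊤ := by
  rw [eq_top_iff, ← closure_range X, Subgroup.closure_le]
  rintro _ ⟨j, rfl⟩
  exact Subgroup.subset_closure ⟨j, j.2, rfl⟩

theorem echelon_of {X : FreeGroupBasis (Fin 2) F2} (f : Fin 2 → F2)
    (hf : Function.Injective (FreeGroup.lift f)) (h0 : f 0 = X 0)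
    (h1 : f 1 ∉ Subgroup.zpowers (X 0)) : IsEchelon (FreeGroup.lift f).range := by
  refine ⟨2, X, 2, basisRange f hf, id, strictMono_id, ?_⟩
  intro j
  rw [basisRange_apply]
  fin_cases j
  · refine ⟨?_, ?_⟩
    · exact Subgroup.subset_closure ⟨0, by decide, h0⟩
    · change f 0 ∉ level X 0
      rw [level_zero, Subgroup.mem_bot]
      intro h
      have h2 : FreeGroup.lift f (FreeGroup.of 0) = 1 := by rw [FreeGroup.lift_apply_of, h]
      have h3 := (injective_iff_map_eq_one _).1 hf _ h2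
      exact FreeGroup.of_ne_one 0 h3
  · refine ⟨?_, ?_⟩
    · change f 1 ∈ level X 2
      rw [level_top]
      trivial
    · intro h
      exact h1 (level_one X (by decide) h)

/-! ### the target group -/

/-- The semidirect product of a nilpotent group of class two and the integers. -/
@[ext] structure QQ where
  /-- abelianised part -/
  u : ZMod 3 → ℤ
  /-- commutator part -/
  s : ZMod 3 → ℤ
  /-- exponent of the shift -/
  n : ℤ

namespace QQ

instance : Mul QQ := ⟨fun a b => ⟨fun i => a.u i + b.u (i - a.n),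
  fun i => a.s i + b.s (i - a.n) + a.u i * b.u (i + 1 - a.n), a.n + b.n⟩⟩

instance : One QQ := ⟨⟨0, 0, 0⟩⟩

instance : Inv QQ := ⟨fun a => ⟨fun i => - a.u (i + a.n),
  fun i => - a.s (i + a.n) + a.u (i + a.n) * a.u (i + 1 + a.n), - a.n⟩⟩

theorem mul_u (a b : QQ) (i : ZMod 3) : (a * b).u i = a.u i + b.u (i - a.n) := rfl
theorem mul_s (a b : QQ) (i : ZMod 3) : (a * b).s i = a.s i + b.s (i - a.n) +
    a.u i * b.u (i + 1 - a.n) := rfl
theorem mul_n (a b : QQ) : (a * b).n = a.n + b.n := rfl
theorem one_u (i : ZMod 3) : (1 : QQ).u i = 0 := rfl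
theorem one_s (i : ZMod 3) : (1 : QQ).s i = 0 := rfl
theorem one_n : (1 : QQ).n = 0 := rfl
theorem inv_u (a : QQ) (i : ZMod 3) : (a⁻¹).u i = - a.u (i + a.n) := rfl
theorem inv_s (a : QQ) (i : ZMod 3) : (a⁻¹).s i = - a.s (i + a.n) +
    a.u (i + a.n) * a.u (i + 1 + a.n) := rfl
theorem inv_n (a : QQ) : (a⁻¹).n = - a.n := rfl

instance : Group QQ := Group.ofLeftAxioms
  (by
    intro a b c
    ext i
    · simp only [mul_u, mul_n, Int.cast_add]
      rw [show i - ((a.n : ZMod 3) + b.n) = i - a.n - b.n by ring]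
      ring
    · simp only [mul_u, mul_s, mul_n, Int.cast_add]
      rw [show i - ((a.n : ZMod 3) + b.n) = i - a.n - b.n by ring,
        show i + 1 - ((a.n : ZMod 3) + b.n) = i - a.n + 1 - b.n by ring,
        show i + 1 - (a.n : ZMod 3) - b.n = i - a.n + 1 - b.n by ring,
        show i - (a.n : ZMod 3) + 1 = i + 1 - a.n by ring]
      ring
    · simp only [mul_n]
      ring)
  (by
    intro a
    ext i
    · simp [mul_u, one_u, one_n]
    · simp [mul_s, one_u, one_s, one_n]
    · simp [mul_n, one_n])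
  (by
    intro a
    ext i
    · simp [mul_u, inv_u, inv_n, one_u]
    · simp [mul_s, inv_s, inv_n, one_s, inv_u]
    · simp [mul_n, inv_n, one_n])

end QQ

/-- the homomorphism -/
def rho : F2 →* QQ := FreeGroup.lift fun i =>
  if i = 0 then ⟨0, 0, 1⟩ else ⟨Pi.single 0 1, 0, 0⟩

end Q28.Ech
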