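import Mathlib

/-!
The combinatorial core: in a finitely generated fiber product of two free semigroups, any two
factorizations of an element into generators are connected by relations of bounded length.
-/

namespace Q28.Fiber

variable {ι A B P : Type*} [Monoid P]

/-- data of a finitely generated fiber product -/
structure Data (ι A B P : Type*) [Monoid P] where
  /-- the first homomorphism on letters -/
  a : A → P
  /-- the second homomorphism on letters -/
  b : B → P
  /-- first components of the generators -/
  xA : ι → List A
  /-- second components of the generators -/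
  xB : ι → List B
  /-- bound for the lengths of the generators -/
  C : ℕ
  /-- words with given value -/
  β : A → List B
  neA : ∀ i, xA i ≠ []
  neB : ∀ i, xB i ≠ []
  leA : ∀ i, (xA i).length ≤ C
  leB : ∀ i, (xB i).length ≤ C
  gen : ∀ i, ((xA i).map a).prod = ((xB i).map b).prod
  surj : ∀ u v, (u.map a).prod = (v.map b).prod → ∃ w : List ι, w.flatMap xA = u ∧ w.flatMap xB = v
  nofix : ∀ q z : P, q * z = q → z = 1
  one : ∀ u v, (u.map a).prod * (v.map b).prod = 1 → u = [] ∧ v = []
  one' : ∀ u v, (v.map b).prod * (u.map a).prod = 1 → u = [] ∧ v = []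
  hβ : ∀ x, ((β x).map b).prod = a x

namespace Data

variable (D : Data ι A B P)

/-- the first homomorphism -/
def φ (u : List A) : P := (u.map D.a).prod

/-- the second homomorphism -/
def ψ (v : List B) : P := (v.map D.b).prod

theorem φ_append (u u' : List A) : D.φ (u ++ u') = D.φ u * D.φ u' := by simp [φ]
theorem ψ_append (v v' : List B) : D.ψ (v ++ v') = D.ψ v * D.ψ v' := by simp [ψ]
theorem φ_nil : D.φ [] = 1 := by simp [φ]
theorem φ_cons (x : A) (u : List A) : D.φ (x :: u) = D.a x * D.φ u := by simp [φ]

theorem ψ_β (u : List A) : D.ψ (u.flatMap D.β) = D.φ u := by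
  induction u with
  | nil => simp [φ, ψ]
  | cons x u ih =>
    rw [List.flatMap_cons, ψ_append, ih, φ_cons]
    congr 1
    exact D.hβ x

theorem flat_eq (w : List ι) : D.φ (w.flatMap D.xA) = D.ψ (w.flatMap D.xB) := by
  induction w with
  | nil => simp [φ, ψ]
  | cons i w ih =>
    rw [List.flatMap_cons, List.flatMap_cons, φ_append, ψ_append, ih]
    congr 1
    exact D.gen i

theorem β_ne (x : A) : D.β x ≠ [] := by
  intro h
  have h1 := D.hβ x
  rw [h] at h1
  have h2 := D.one [x] [] (by simpa using h1.symm)
  simp at h2

theorem length_β (u : List A) : u.length ≤ (u.flatMap D.β).length := by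
  induction u with
  | nil => simp
  | cons x u ih =>
    rw [List.flatMap_cons, List.length_append, List.length_cons]
    have := List.length_pos_iff.2 (D.β_ne x)
    omega

theorem le_lengthA (w : List ι) : w.length ≤ (w.flatMap D.xA).length := by
  induction w with
  | nil => simp
  | cons i w ih =>
    rw [List.flatMap_cons, List.length_append, List.length_cons]
    have := List.length_pos_iff.2 (D.neA i)
    omega

theorem lengthA_le (w : List ι) : (w.flatMap D.xA).length ≤ D.C * w.length := by
  induction w with
  | nil => simp
  | cons i w ih =>
    rw [List.flatMap_cons, List.length_append, List.length_cons]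
    have := D.leA i
    nlinarith

/-- a nonempty initial segment of a product of blocks ends inside a block -/
theorem split_block (u : List A) (p rest : List B) (hp : p ≠ [])
    (h : u.flatMap D.β = p ++ rest) :
    ∃ (s : List A) (x : A) (t : List A) (b1 b2 : List B), u = s ++ x :: t ∧ D.β x = b1 ++ b2 ∧
      b1 ≠ [] ∧ p = s.flatMap D.β ++ b1 := by
  induction u generalizing p with
  | nil =>
    simp only [List.flatMap_nil] at h
    have := congrArg List.length h
    simp only [List.length_nil, List.length_append] at this
    have := List.length_pos_iff.2 hp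
    omega
  | cons x u ih =>
    rw [List.flatMap_cons] at h
    rcases List.append_eq_append_iff.1 h with ⟨p', h1, h2⟩ | ⟨c, h1, h2⟩
    · -- `p = β x ++ p'`
      by_cases hp' : p' = []
      · refine ⟨[], x, u, D.β x, [], rfl, by simp, D.β_ne x, ?_⟩
        rw [h1, hp']
        simp
      · obtain ⟨s, y, t, b1, b2, e1, e2, e3, e4⟩ := ih p' hp' h2
        refine ⟨x :: s, y, t, b1, b2, by rw [e1]; rfl, e2, e3, ?_⟩
        rw [h1, e4, List.flatMap_cons, List.append_assoc]
    · refine ⟨[], x, u, p, c, rfl, h1, hp, by simp⟩

/-- there is an initial segment of `c` whose second component has length in the window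
`(m, m + C]`. -/
theorem exists_take (c : List ι) (m : ℕ) (h : m < (c.flatMap D.xB).length) :
    ∃ c1 c2, c = c1 ++ c2 ∧ m < (c1.flatMap D.xB).length ∧
      (c1.flatMap D.xB).length ≤ m + D.C := by
  induction c using List.reverseRecOn with
  | nil => simp at h
  | append_singleton c i ih =>
    by_cases hc : m < (c.flatMap D.xB).length
    · obtain ⟨c1, c2, e1, e2, e3⟩ := ih hc
      exact ⟨c1, c2 ++ [i], by rw [e1]; simp, e2, e3⟩
    · refine ⟨c ++ [i], [], by simp, h, ?_⟩
      rw [List.flatMap_append, List.length_append, List.flatMap_singleton]
      have := D.leB i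
      omega

/-- **Compatibility of cuts.** -/
theorem compat' {ux μ ub ue : List A} {vx ν vb ve : List B}
    (hx : D.φ ux = D.ψ vx) (hy : D.φ (ux ++ μ) = D.ψ (vx ++ ν)) (hb : D.φ ub = D.ψ vb)
    (hC : D.C ≤ ub.length) (hub : ub ≠ [])
    (hall : D.φ (μ ++ ub ++ ue) = D.ψ (ν ++ vb ++ ve)) :
    D.φ (μ ++ ub) = D.ψ (ν ++ vb) := by
  -- the modified word
  have hW : D.φ (μ ++ ub ++ ue) = D.ψ (ν ++ ub.flatMap D.β ++ ve) := by
    rw [hall]
    simp only [ψ_append, ψ_β, hb]
  obtain ⟨c, hcA, hcB⟩ := D.surj _ _ hW
  have hlen : ν.length < (c.flatMap D.xB).length := by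
    rw [hcB, List.length_append, List.length_append]
    have := D.length_β ub
    have := List.length_pos_iff.2 hub
    omega
  obtain ⟨c1, c2, hc, h1, h2⟩ := D.exists_take c ν.length hlen
  obtain ⟨X', hX'⟩ : ∃ X', X' = c1.flatMap D.xA := ⟨_, rfl⟩
  obtain ⟨W', hW'⟩ : ∃ W', W' = c1.flatMap D.xB := ⟨_, rfl⟩
  have hXW : D.φ X' = D.ψ W' := by rw [hX', hW']; exact D.flat_eq c1
  rw [hc, List.flatMap_append, ← hX'] at hcA
  rw [hc, List.flatMap_append, ← hW'] at hcB
  rw [← hW'] at h1 h2
  -- `W' = ν ++ p` with `p` an initial segment of `β ub`
  obtain ⟨p, hp⟩ : ∃ p, W' = ν ++ p := by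
    rw [List.append_assoc] at hcB
    rcases List.append_eq_append_iff.1 hcB with ⟨c', e1, -⟩ | ⟨c', e1, -⟩
    · have := congrArg List.length e1
      rw [List.length_append] at this
      omega
    · exact ⟨c', e1⟩
  have hpne : p ≠ [] := by
    rintro rfl
    rw [hp, List.append_nil] at h1
    omega
  obtain ⟨rest, hrest⟩ : ∃ rest, ub.flatMap D.β = p ++ rest := by
    rw [hp, List.append_assoc, List.append_assoc] at hcB
    have e0 := List.append_cancel_left hcB
    rcases List.append_eq_append_iff.1 e0 with ⟨c', e1, -⟩ | ⟨c', e1, -⟩
    · exact ⟨c', e1⟩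
    · -- `p = β ub ++ c'`, lengths force `c' = []`
      have hl := congrArg List.length e1
      rw [List.length_append] at hl
      have := D.length_β ub
      rw [hp, List.length_append] at h2
      have hc' : c' = [] := List.length_eq_zero_iff.1 (by omega)
      exact ⟨[], by rw [e1, hc']; simp⟩
  obtain ⟨s, x, t, b1, b2, e1, e2, e3, e4⟩ := D.split_block ub p rest hpne hrest
  -- compare `X'` with `μ ++ s`
  have key : D.φ (ux ++ X') = D.φ (ux ++ μ ++ s) * D.ψ b1 := by
    rw [φ_append, hXW, hx, hp, e4, φ_append, hy]
    simp only [ψ_append, ψ_β, mul_assoc]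
  have hb12 : D.ψ b1 * D.ψ b2 = D.a x := by
    rw [← ψ_append, ← e2]
    exact D.hβ x
  rw [e1] at hcA
  have hcA' : X' ++ c2.flatMap D.xA = (μ ++ s) ++ (x :: t ++ ue) := by
    rw [hcA]; simp
  rcases List.append_eq_append_iff.1 hcA' with ⟨Z, f1, -⟩ | ⟨Z, f1, f2⟩
  · -- `μ ++ s = X' ++ Z`
    exfalso
    have f3 : D.φ (ux ++ μ ++ s) = D.φ (ux ++ X') * D.φ Z := by
      rw [List.append_assoc, f1, ← List.append_assoc, φ_append]
    rw [f3, mul_assoc] at key
    have f4 := D.nofix _ _ key.symm
    exact e3 (D.one Z b1 f4).2
  · -- `X' = μ ++ s ++ Z`
    rcases Z with _ | ⟨x', Z'⟩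
    · exfalso
      rw [List.append_nil] at f1
      rw [f1, ← List.append_assoc] at key
      have f4 := D.nofix _ _ key.symm
      exact e3 (D.one [] b1 (by rw [List.map_nil, List.prod_nil, one_mul]; exact f4)).2
    · have hxx : x' = x := by
        rw [List.cons_append] at f2
        rw [List.cons_append] at f2
        exact (List.cons.inj f2).1.symm
      subst hxx
      have f3 : D.φ (ux ++ X') = D.φ (ux ++ μ ++ s ++ [x']) * D.φ Z' := by
        rw [f1, ← φ_append]
        congr 1
        simp
      have f4 : D.φ (ux ++ μ ++ s ++ [x']) = D.φ (ux ++ μ ++ s) * (D.ψ b1 * D.ψ b2) := by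
        rw [hb12, φ_append, φ_cons, φ_nil, mul_one]
      have f5 : D.φ (ux ++ μ ++ s ++ [x']) * (D.φ Z' * D.ψ b2) = D.φ (ux ++ μ ++ s ++ [x']) := by
        rw [← mul_assoc, ← f3, key, f4, mul_assoc]
      obtain ⟨g1, g2⟩ := D.one _ _ (D.nofix _ _ f5)
      subst g1
      subst g2
      rw [List.append_nil] at e2
      -- conclusion
      have g3 : D.φ (μ ++ s ++ [x']) = D.ψ ν * D.φ (s ++ [x']) := by
        rw [← f1, hXW, hp, e4, ψ_append, ψ_append, ψ_β, ← e2, φ_append]
        congr 2
        rw [φ_cons, φ_nil, mul_one]
        exact D.hβ x'
      have g4 : μ ++ ub = (μ ++ s ++ [x']) ++ t := by rw [e1]; simp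
      have g5 : ub = (s ++ [x']) ++ t := by rw [e1]; simp
      rw [g4, φ_append, g3, mul_assoc, ← φ_append, ← g5, ψ_append, hb]

/-- **Main combinatorial theorem.** -/
theorem connected (R : List ι → List ι → Prop)
    (hsymm : ∀ w w', R w w' → R w' w) (htrans : ∀ w w' w'', R w w' → R w' w'' → R w w'')
    (hleft : ∀ c w w', R w w' → R (c ++ w) (c ++ w'))
    (hright : ∀ c w w', R w w' → R (w ++ c) (w' ++ c))
    (hbase : ∀ w w', w ≠ [] → w' ≠ [] → w.length ≤ D.C * (D.C + 2) + 1 →
      w'.length ≤ D.C * (D.C + 2) + 1 →
      w.flatMap D.xA = w'.flatMap D.xA → w.flatMap D.xB = w'.flatMap D.xB → R w w') :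
    ∀ w w', w ≠ [] → w' ≠ [] → w.flatMap D.xA = w'.flatMap D.xA →
      w.flatMap D.xB = w'.flatMap D.xB → R w w' := by
  have main : ∀ n : ℕ, ∀ w w' : List ι, (w.flatMap D.xA).length = n → w ≠ [] → w' ≠ [] →
      w.flatMap D.xA = w'.flatMap D.xA → w.flatMap D.xB = w'.flatMap D.xB → R w w' := by
    intro n
    induction n using Nat.strong_induction_on with
    | _ n ih =>
      -- the asymmetric step
      have step : ∀ (x y : ι) (w w' : List ι), ((x :: w).flatMap D.xA).length = n →
          D.C + 1 ≤ w.length → D.C + 1 ≤ w'.length →
          (x :: w).flatMap D.xA = (y :: w').flatMap D.xA →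
          (x :: w).flatMap D.xB = (y :: w').flatMap D.xB →
          (D.xA x).length ≤ (D.xA y).length → R (x :: w) (y :: w') := by
        intro x y w w' hn hw hw' hA hB hxy
        have hlenx := List.length_pos_iff.2 (D.neA x)
        have hleny := List.length_pos_iff.2 (D.neA y)
        have hCpos : 1 ≤ D.C := by have := D.leA x; omega
        have hwne : w ≠ [] := by rintro rfl; simp at hw
        have hwne' : w' ≠ [] := by rintro rfl; simp at hw'
        rw [List.flatMap_cons, List.flatMap_cons] at hA hB
        rw [List.flatMap_cons, List.length_append] at hn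
        obtain ⟨μ, hμ, hμ'⟩ : ∃ μ, D.xA y = D.xA x ++ μ ∧
            w.flatMap D.xA = μ ++ w'.flatMap D.xA := by
          rcases List.append_eq_append_iff.1 hA with ⟨c, e1, e2⟩ | ⟨c, e1, e2⟩
          · exact ⟨c, e1, e2⟩
          · have hc : c = [] := by
              have := congrArg List.length e1
              rw [List.length_append] at this
              exact List.length_eq_zero_iff.1 (by omega)
            subst hc
            exact ⟨[], by rw [e1]; simp, by rw [e2]; simp⟩
        -- the case of equal first letters
        have eqcase : μ = [] → D.xB x = D.xB y → R (x :: w) (y :: w') := by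
          intro hμ0 hxB
          subst hμ0
          rw [List.append_nil] at hμ
          rw [hxB] at hB
          have e2 := List.append_cancel_left hB
          have r1 : R w w' := ih _ (by omega) w w' rfl hwne hwne' (by simpa using hμ') e2
          have r2 : R [x] [y] := hbase _ _ (by simp) (by simp) (by simp) (by simp)
            (by simp [hμ]) (by simp [hxB])
          exact htrans _ _ _ (hright w _ _ r2) (hleft [y] _ _ r1)
        rcases List.append_eq_append_iff.1 hB with ⟨ν, e1, e2⟩ | ⟨c, e1, e2⟩
        · by_cases hν : ν = []
          · subst hν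
            -- then `μ = []` as well
            rw [List.append_nil] at e1
            have hμ0 : μ = [] := by
              have h1 := D.gen y
              have h2 := D.gen x
              rw [hμ, e1, ← h2, List.map_append, List.prod_append] at h1
              have h3 := D.nofix _ _ h1
              exact (D.one μ [] (by simpa using h3)).1
            exact eqcase hμ0 e1.symm
          · -- the main case
            obtain ⟨b, e, hbe, hblen⟩ : ∃ b e, w' = b ++ e ∧ b.length = D.C :=
              ⟨w'.take D.C, w'.drop D.C, (List.take_append_drop _ _).symm, by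
                rw [List.length_take]; omega⟩
            have hene : e ≠ [] := by
              rintro rfl
              rw [List.append_nil] at hbe
              rw [hbe] at hw'
              omega
            have hbne : b ≠ [] := by
              rintro rfl
              simp only [List.length_nil] at hblen
              omega
            rw [hbe, List.flatMap_append] at hμ' e2
            have hubne : b.flatMap D.xA ≠ [] := by
              intro h0
              have h1 := D.le_lengthA b
              rw [h0, List.length_nil] at h1
              omega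
            have hcomp : D.φ (μ ++ b.flatMap D.xA) = D.ψ (ν ++ b.flatMap D.xB) := by
              refine D.compat' (ux := D.xA x) (vx := D.xB x) (ue := e.flatMap D.xA)
                (ve := e.flatMap D.xB) (D.gen x) ?_ (D.flat_eq b) ?_ hubne ?_
              · rw [← hμ, ← e1]; exact D.gen y
              · rw [← hblen]; exact D.le_lengthA b
              · have h1 := D.flat_eq w
                rw [hμ', e2] at h1
                rw [List.append_assoc, List.append_assoc]
                exact h1
            obtain ⟨z, hzA, hzB⟩ := D.surj _ _ hcomp
            have hzne : z ≠ [] := by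
              rintro rfl
              simp only [List.flatMap_nil] at hzB
              have h1 := congrArg List.length hzB
              rw [List.length_append, List.length_nil] at h1
              have := List.length_pos_iff.2 hν
              omega
            have r1 : R w (z ++ e) := by
              refine ih _ (by omega) w _ rfl hwne ?_ ?_ ?_
              · simp [hzne]
              · rw [List.flatMap_append, hzA, hμ', List.append_assoc]
              · rw [List.flatMap_append, hzB, e2, List.append_assoc]
            have r2 : R (x :: z) (y :: b) := by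
              refine ih _ ?_ (x :: z) (y :: b) rfl (by simp) (by simp) ?_ ?_
              · rw [List.flatMap_cons, hzA, List.length_append, List.length_append]
                have h1 := congrArg List.length hμ'
                rw [List.length_append, List.length_append] at h1
                have h2 := D.le_lengthA e
                have h3 := List.length_pos_iff.2 hene
                omega
              · rw [List.flatMap_cons, List.flatMap_cons, hzA, hμ, List.append_assoc]
              · rw [List.flatMap_cons, List.flatMap_cons, hzB, e1, List.append_assoc]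
            rw [hbe]
            exact htrans _ _ _ (hleft [x] _ _ r1) (hright e _ _ r2)
        · -- `xB x = xB y ++ c`
          have h1 := D.gen y
          have h2 := D.gen x
          rw [hμ, List.map_append, List.prod_append, h2, e1, List.map_append, List.prod_append,
            mul_assoc] at h1
          obtain ⟨hμ0, hc0⟩ := D.one' μ c (D.nofix _ _ h1)
          subst hc0
          rw [List.append_nil] at e1
          exact eqcase hμ0 e1
      -- the general case
      intro w w' hn hw hw' hA hB
      by_cases hshort : w.length ≤ D.C * (D.C + 2) + 1 ∧ w'.length ≤ D.C * (D.C + 2) + 1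
      · exact hbase w w' hw hw' hshort.1 hshort.2 hA hB
      have l1 := D.le_lengthA w
      have l2 := D.lengthA_le w
      have l3 := D.le_lengthA w'
      have l4 := D.lengthA_le w'
      rw [← hA] at l3 l4
      have hbig : D.C * (D.C + 2) + 1 < w.length ∨ D.C * (D.C + 2) + 1 < w'.length := by
        by_contra hcon
        push Not at hcon
        exact hshort hcon
      have hCpos : 1 ≤ D.C := by
        obtain ⟨i, w0, rfl⟩ := List.exists_cons_of_ne_nil hw
        have := D.leA i
        have := List.length_pos_iff.2 (D.neA i)
        omega
      have hw2 : D.C + 2 ≤ w.length := by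
        rcases hbig with h | h
        · nlinarith
        · by_contra hcon
          push Not at hcon
          have : D.C * w.length ≤ D.C * (D.C + 2) := Nat.mul_le_mul_left _ hcon.le
          omega
      have hw2' : D.C + 2 ≤ w'.length := by
        rcases hbig with h | h
        · by_contra hcon
          push Not at hcon
          have : D.C * w'.length ≤ D.C * (D.C + 2) := Nat.mul_le_mul_left _ hcon.le
          omega
        · nlinarith
      obtain ⟨x, w0, rfl⟩ := List.exists_cons_of_ne_nil hw
      obtain ⟨y, w0', rfl⟩ := List.exists_cons_of_ne_nil hw'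
      rw [List.length_cons] at hw2 hw2'
      rcases le_total (D.xA x).length (D.xA y).length with h | h
      · exact step x y w0 w0' hn (by omega) (by omega) hA hB h
      · exact hsymm _ _ (step y x w0' w0 (by rw [← hA]; exact hn) (by omega) (by omega) hA.symm
          hB.symm h)
  intro w w' hw hw' hA hB
  exact main _ w w' rfl hw hw' hA hB

end Data

end Q28.Fiber
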