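import Mathlib
import Pool.Agent.H77R2.AssocLie

/-!
The free Lie ring on an abelian group, and groups whose associated Lie ring is quadratic.
-/

namespace Q28.FreeLieV

open BurnLie
open scoped commutatorElement

/-- The free Lie ring on the set `V` (Mathlib's free Lie algebra over the integers). -/
def FLA (V : Type) : Type := FreeLieAlgebra ℤ V

noncomputable instance (V : Type) : LieRing (FLA V) :=
  inferInstanceAs (LieRing (FreeLieAlgebra ℤ V))

/-- The generators of the free Lie ring on the set `V`. -/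
noncomputable def gen {V : Type} (v : V) : FLA V := FreeLieAlgebra.of ℤ v

/-- The homomorphism given by a map on the generators. -/
noncomputable def liftA {V M : Type} [LieRing M] (f : V → M) : FLA V →ₗ⁅ℤ⁆ M where
  toFun := FreeLieAlgebra.lift ℤ f
  map_add' x y := (FreeLieAlgebra.lift ℤ f).map_add x y
  map_smul' n x := map_zsmul
    ({ toFun := FreeLieAlgebra.lift ℤ f
       map_zero' := (FreeLieAlgebra.lift ℤ f).map_zero
       map_add' := (FreeLieAlgebra.lift ℤ f).map_add } : FLA V →+ M) n x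
  map_lie' {x y} := (FreeLieAlgebra.lift ℤ f).map_lie x y

theorem liftA_gen {V M : Type} [LieRing M] (f : V → M) (v : V) : liftA f (gen v) = f v :=
  FreeLieAlgebra.lift_of_apply (R := ℤ) f v

/-- The ideal generated by the elements `gen (v + w) - gen v - gen w`. -/
noncomputable def addIdeal (V : Type) [AddCommGroup V] : LieIdeal ℤ (FLA V) :=
  LieSubmodule.lieSpan ℤ (FLA V) {z | ∃ v w : V, z = gen (v + w) - gen v - gen w}

/-- The free Lie ring `L[V]` on the abelian group `V`: the quotient of the free Lie ring on the set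
`V` by the relations which make `V → L[V]` additive. -/
def FLie (V : Type) [AddCommGroup V] : Type := FLA V ⧸ addIdeal V

noncomputable instance (V : Type) [AddCommGroup V] : LieRing (FLie V) :=
  inferInstanceAs (LieRing (FLA V ⧸ addIdeal V))

/-- The inclusion `V → L[V]`. -/
noncomputable def incl {V : Type} [AddCommGroup V] (v : V) : FLie V :=
  (LieSubmodule.Quotient.mk (gen v) : FLA V ⧸ addIdeal V)

theorem addIdeal_le {V M : Type} [AddCommGroup V] [LieRing M] (f : V →+ M) :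
    addIdeal V ≤ (liftA (f : V → M)).ker := by
  unfold addIdeal
  rw [LieSubmodule.lieSpan_le]
  rintro _ ⟨v, w, rfl⟩
  change _ ∈ (liftA (f : V → M)).ker
  rw [LieHom.mem_ker, map_sub, map_sub, liftA_gen, liftA_gen, liftA_gen, map_add]
  abel

/-- The underlying additive map of the homomorphism below. -/
noncomputable def liftQ {V M : Type} [AddCommGroup V] [LieRing M] (f : V →+ M) :
    (FLA V ⧸ addIdeal V) →ₗ[ℤ] M :=
  (addIdeal V).toSubmodule.liftQ ((liftA (f : V → M)) : FLA V →ₗ[ℤ] M)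
    (fun _ hz => addIdeal_le f hz)

/-- The homomorphism of Lie rings `L[V] → M` given by an additive map `V → M`. -/
noncomputable def liftF {V M : Type} [AddCommGroup V] [LieRing M] (f : V →+ M) :
    FLie V →ₗ⁅ℤ⁆ M where
  toFun := liftQ f
  map_add' x y := (liftQ f).map_add x y
  map_smul' n x := map_zsmul
    ({ toFun := liftQ f
       map_zero' := (liftQ f).map_zero
       map_add' := (liftQ f).map_add } : FLie V →+ M) n x
  map_lie' {x y} := by
    obtain ⟨x, rfl⟩ := LieSubmodule.Quotient.surjective_mk' (addIdeal V) x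
    obtain ⟨y, rfl⟩ := LieSubmodule.Quotient.surjective_mk' (addIdeal V) y
    exact (liftA (f : V → M)).map_lie x y

theorem liftF_incl {V M : Type} [AddCommGroup V] [LieRing M] (f : V →+ M) (v : V) :
    liftF f (incl v) = f v := liftA_gen (f : V → M) v

/-- The natural homomorphism from the free Lie ring on `V = G/[G,G]` to the Lie ring
`E_0^*(G) = ⨁ Γ_k G / Γ_(k+1) G` of the lower central series, which is the identity on `V`. -/
noncomputable def natMap (G : Type) [Group G] : FLie (Grd G 0) →ₗ⁅ℤ⁆ AssocLie G := liftF (ofL 0)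

/-- The homogeneous component of degree two of `L[V]`. -/
noncomputable def degTwo (V : Type) [AddCommGroup V] : Submodule ℤ (FLie V) :=
  Submodule.span ℤ {z | ∃ v w : V, z = ⁅incl v, incl w⁆}

/-- The Lie ring `E_0^*(G)` of the lower central series is a free Lie algebra modulo quadratic
relations: the kernel of the natural map from the free Lie ring on `G/[G,G]` is generated, as a
Lie ideal, by its elements of degree two. -/
def IsQuadratic (G : Type) [Group G] : Prop :=
  (natMap G).ker = LieSubmodule.lieSpan ℤ (FLie (Grd G 0))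
    {z | z ∈ (natMap G).ker ∧ z ∈ degTwo (Grd G 0)}

/-- A criterion for the failure of quadraticity. -/
theorem not_quadratic {G M : Type} [Group G] [LieRing M] (ψ : Grd G 0 →+ M)
    (μ : AssocLie G →+ M) (hμ : ∀ v w : Grd G 0, μ ⁅ofL 0 v, ofL 0 w⁆ = ⁅ψ v, ψ w⁆)
    (z : FLie (Grd G 0)) (hz : natMap G z = 0) (hz' : liftF ψ z ≠ 0) : ¬ IsQuadratic G := by
  intro h
  apply hz'
  have h1 : z ∈ (natMap G).ker := LieHom.mem_ker.2 hz
  have hdeg : ∀ t ∈ degTwo (Grd G 0), liftF ψ t = μ (natMap G t) := by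
    intro t ht
    induction ht using Submodule.span_induction with
    | mem t ht =>
      obtain ⟨v, w, rfl⟩ := ht
      rw [LieHom.map_lie, LieHom.map_lie, liftF_incl, liftF_incl]
      unfold natMap
      rw [liftF_incl, liftF_incl, hμ]
    | zero => rw [map_zero, map_zero, map_zero]
    | add t u _ _ ht hu => rw [map_add, map_add, map_add, ht, hu]
    | smul n t _ ht => rw [map_zsmul, map_zsmul, map_zsmul, ht]
  have h2 : LieSubmodule.lieSpan ℤ (FLie (Grd G 0))
      {z | z ∈ (natMap G).ker ∧ z ∈ degTwo (Grd G 0)} ≤ (liftF ψ).ker := by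
    rw [LieSubmodule.lieSpan_le]
    rintro t ⟨ht1, ht2⟩
    change t ∈ (liftF ψ).ker
    rw [LieHom.mem_ker, hdeg t ht2, LieHom.mem_ker.1 ht1, map_zero]
  have h3 : z ∈ (liftF ψ).ker := h2 (h ▸ h1)
  exact LieHom.mem_ker.1 h3

/-- The Lie ring of integer matrices of size four used below. -/
def Mat4 : Type := Matrix (Fin 4) (Fin 4) ℤ

noncomputable instance : LieRing Mat4 :=
  LieRing.ofAssociativeRing (A := Matrix (Fin 4) (Fin 4) ℤ)

/-- The matrix `E12 + E23`. -/
def mK : Mat4 := !![0, 1, 0, 0; 0, 0, 1, 0; 0, 0, 0, 0; 0, 0, 0, 0]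

/-- The matrix `E34`. -/
def mk' : Mat4 := !![0, 0, 0, 0; 0, 0, 0, 0; 0, 0, 0, 1; 0, 0, 0, 0]

/-- The matrix `E24`. -/
def mL : Mat4 := !![0, 0, 0, 0; 0, 0, 0, 1; 0, 0, 0, 0; 0, 0, 0, 0]

/-- The matrix `E14`. -/
def mZ : Mat4 := !![0, 0, 0, 1; 0, 0, 0, 0; 0, 0, 0, 0; 0, 0, 0, 0]

theorem lie_K_k : ⁅mK, mk'⁆ = mL := by
  change (!![0, 1, 0, 0; 0, 0, 1, 0; 0, 0, 0, 0; 0, 0, 0, 0] : Matrix (Fin 4) (Fin 4) ℤ) *
    !![0, 0, 0, 0; 0, 0, 0, 0; 0, 0, 0, 1; 0, 0, 0, 0] -
    !![0, 0, 0, 0; 0, 0, 0, 0; 0, 0, 0, 1; 0, 0, 0, 0] *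
    !![0, 1, 0, 0; 0, 0, 1, 0; 0, 0, 0, 0; 0, 0, 0, 0] =
    !![0, 0, 0, 0; 0, 0, 0, 1; 0, 0, 0, 0; 0, 0, 0, 0]
  decide

theorem lie_K_L : ⁅mK, mL⁆ = mZ := by
  change (!![0, 1, 0, 0; 0, 0, 1, 0; 0, 0, 0, 0; 0, 0, 0, 0] : Matrix (Fin 4) (Fin 4) ℤ) *
    !![0, 0, 0, 0; 0, 0, 0, 1; 0, 0, 0, 0; 0, 0, 0, 0] -
    !![0, 0, 0, 0; 0, 0, 0, 1; 0, 0, 0, 0; 0, 0, 0, 0] *
    !![0, 1, 0, 0; 0, 0, 1, 0; 0, 0, 0, 0; 0, 0, 0, 0] =
    !![0, 0, 0, 1; 0, 0, 0, 0; 0, 0, 0, 0; 0, 0, 0, 0]
  decide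

theorem mZ_ne : mZ ≠ 0 := by
  intro h
  have h1 : (!![0, 0, 0, 1; 0, 0, 0, 0; 0, 0, 0, 0; 0, 0, 0, 0] : Matrix (Fin 4) (Fin 4) ℤ) = 0 := h
  have h2 := congrFun (congrFun h1 0) 3
  simp at h2

section criterion

variable {G : Type} [Group G]

/-- The data on a group `G` which exhibit a cubic relation. -/
structure CubicData (G : Type) [Group G] where
  a : G → ℤ
  p : G → ℤ
  q : G → ℤ
  m : G → ℤ
  a_mul : ∀ g h, a (g * h) = a g + a h
  p_mul : ∀ g h, p (g * h) = p g + p h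
  q_mul : ∀ g h, q (g * h) = q g + q h
  m_mul : ∀ g h, m (g * h) = m g + m h + p h * a g + a h * q g

variable (D : CubicData G)

namespace CubicData

theorem hom_one {E : G → ℤ} (h : ∀ g h, E (g * h) = E g + E h) : E 1 = 0 := by
  have := h 1 1
  rw [mul_one] at this
  omega

theorem hom_inv {E : G → ℤ} (h : ∀ g h, E (g * h) = E g + E h) (g : G) : E g⁻¹ = - E g := by
  have := h g g⁻¹
  rw [mul_inv_cancel, hom_one h] at this
  omega

theorem hom_comm {E : G → ℤ} (h : ∀ g h, E (g * h) = E g + E h) {g : G} (hg : g ∈ lcs G 1) :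
    E g = 0 := by
  let φ : G →* Multiplicative ℤ :=
    { toFun := fun g => Multiplicative.ofAdd (E g)
      map_one' := by rw [hom_one h]; rfl
      map_mul' := fun x y => by rw [h]; rfl }
  have h1 : lcs G 1 ≤ φ.ker := by
    rw [lcs, Subgroup.lowerCentralSeries_succ, Subgroup.commutator_le]
    intro x _ y _
    rw [MonoidHom.mem_ker, map_commutatorElement, commutatorElement_eq_one_iff_mul_comm]
    exact mul_comm _ _
  have h2 : φ g = 1 := h1 hg
  exact Multiplicative.ofAdd.injective h2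

/-- The difference of the two homomorphisms. -/
def b (g : G) : ℤ := D.p g - D.q g

theorem b_mul (g h : G) : D.b (g * h) = D.b g + D.b h := by
  unfold b; rw [D.p_mul, D.q_mul]; ring

theorem m_comm (g h : G) : D.m ⁅g, h⁆ = D.a g * D.b h - D.a h * D.b g := by
  have hc : ⁅g, h⁆ ∈ lcs G 1 := by
    rw [lcs, Subgroup.lowerCentralSeries_succ]
    exact Subgroup.commutator_mem_commutator (Subgroup.mem_top _) (Subgroup.mem_top _)
  have h1 : ⁅g, h⁆ * (h * g) = g * h := by simp only [commutatorElement_def]; group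
  have h2 := D.m_mul ⁅g, h⁆ (h * g)
  rw [h1, D.m_mul, D.m_mul, hom_comm D.a_mul hc, hom_comm D.q_mul hc] at h2
  unfold b
  linear_combination -h2

theorem m_mul_of_mem {g h : G} (hg : g ∈ lcs G 1) : D.m (g * h) = D.m g + D.m h := by
  rw [D.m_mul, hom_comm D.a_mul hg, hom_comm D.q_mul hg]; ring

theorem m_mem_two {g : G} (hg : g ∈ lcs G 2) : D.m g = 0 := by
  rw [lcs, Subgroup.mem_lowerCentralSeries_succ_iff] at hg
  have h01 : D.m 1 = 0 := by
    have := D.m_mul 1 1
    rw [mul_one, hom_one D.a_mul, hom_one D.q_mul] at this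
    omega
  have key : g ∈ lcs G 1 ∧ D.m g = 0 := by
    induction hg using Subgroup.closure_induction with
    | mem x hx =>
      obtain ⟨y, hy, w, -, rfl⟩ := hx
      refine ⟨?_, ?_⟩
      · exact lcs_anti (m := 1) (n := 2) (by norm_num)
          (lcs_comm_mem (m := 1) (n := 0) hy (Subgroup.mem_top w))
      · have hb : D.b y = 0 := hom_comm D.b_mul hy
        rw [D.m_comm, hom_comm D.a_mul hy, hb]; ring
    | one => exact ⟨one_mem _, h01⟩
    | mul x y _ _ hx hy =>
      exact ⟨mul_mem hx.1 hy.1, by rw [D.m_mul_of_mem hx.1, hx.2, hy.2]; rfl⟩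
    | inv x _ hx =>
      refine ⟨inv_mem hx.1, ?_⟩
      have := D.m_mul_of_mem (h := x) (inv_mem hx.1)
      rw [inv_mul_cancel, h01, hx.2] at this
      omega
  exact key.2

/-- The additive map on `G/[G,G]` given by a homomorphism to the integers. -/
noncomputable def onV {E : G → ℤ} (h : ∀ g h, E (g * h) = E g + E h) : Grd G 0 →+ ℤ :=
  MonoidHom.toAdditiveLeft (QuotientGroup.lift ((lcs G 1).subgroupOf (lcs G 0))
    ({ toFun := fun g => Multiplicative.ofAdd (E g)
       map_one' := by rw [Subgroup.coe_one, hom_one h]; rfl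
       map_mul' := fun x y => by rw [Subgroup.coe_mul, h]; rfl } : lcs G 0 →* Multiplicative ℤ)
    (fun g hg => by
      change Multiplicative.ofAdd (E g) = 1
      rw [hom_comm h (Subgroup.mem_subgroupOf.1 hg)]; rfl))

theorem onV_mk {E : G → ℤ} (h : ∀ g h, E (g * h) = E g + E h) (g : lcs G 0) :
    onV h (grMk 0 g) = E g := rfl

/-- The additive map on `Γ_2/Γ_3` given by `m`. -/
noncomputable def onTwo : Grd G 1 →+ ℤ :=
  MonoidHom.toAdditiveLeft (QuotientGroup.lift ((lcs G 2).subgroupOf (lcs G 1))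
    ({ toFun := fun g => Multiplicative.ofAdd (D.m g)
       map_one' := by rw [Subgroup.coe_one, D.m_mem_two (one_mem _)]; rfl
       map_mul' := fun x y => by rw [Subgroup.coe_mul, D.m_mul_of_mem x.2]; rfl } :
      lcs G 1 →* Multiplicative ℤ)
    (fun g hg => by
      change Multiplicative.ofAdd (D.m g) = 1
      rw [D.m_mem_two (Subgroup.mem_subgroupOf.1 hg)]; rfl))

theorem onTwo_mk (g : lcs G 1) : D.onTwo (grMk 1 g) = D.m g := rfl

/-- The map from degree one to matrices. -/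
noncomputable def ψ : Grd G 0 →+ Mat4 where
  toFun v := onV D.a_mul v • mK + onV D.b_mul v • mk'
  map_zero' := by simp
  map_add' v w := by simp only [map_add, add_smul]; abel

/-- The map from the associated Lie ring to matrices. -/
noncomputable def μ : AssocLie G →+ Mat4 :=
  DirectSum.toAddMonoid fun n =>
    match n with
    | 0 => 0
    | 1 => ((AddMonoidHom.flip (smulAddHom ℤ Mat4)) mL).comp D.onTwo
    | (_ + 2) => 0

theorem μ_ofL_one (x : Grd G 1) : D.μ (ofL 1 x) = D.onTwo x • mL :=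
  DirectSum.toAddMonoid_of _ _ _

theorem lie_mk (m n : ℕ) (g : lcs G m) (h : lcs G n) :
    ⁅ofL m (grMk m g), ofL n (grMk n h)⁆ =
      ofL (m + n + 1) (grMk (m + n + 1) ⟨⁅(g : G), (h : G)⁆, lcs_comm_mem g.2 h.2⟩) :=
  lieHom_mkL m n g h

theorem hμ (v w : Grd G 0) : D.μ ⁅ofL 0 v, ofL 0 w⁆ = ⁅D.ψ v, D.ψ w⁆ := by
  obtain ⟨g, rfl⟩ := grMk_surj 0 v
  obtain ⟨h, rfl⟩ := grMk_surj 0 w
  rw [lie_mk]
  change D.μ (ofL 1 (grMk 1 ⟨⁅(g : G), (h : G)⁆, _⟩)) = _
  rw [μ_ofL_one, onTwo_mk]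
  change D.m ⁅(g : G), (h : G)⁆ • mL =
    ⁅D.a g • mK + D.b g • mk', D.a h • mK + D.b h • mk'⁆
  have hsk : ⁅mk', mK⁆ = - mL := by rw [← lie_skew, lie_K_k]
  rw [D.m_comm, lie_add, add_lie, add_lie, zsmul_lie, zsmul_lie, zsmul_lie, zsmul_lie,
    lie_zsmul, lie_zsmul, lie_zsmul, lie_zsmul, lie_self, lie_self, lie_K_k, hsk]
  simp only [smul_zero, zero_add, add_zero, sub_smul, smul_smul, smul_neg]
  rw [mul_comm (D.b g) (D.a h)]
  abel

theorem not_quad (f h k : G) (hfh : f⁻¹ * h ∈ lcs G 1) (hc : ⁅f, ⁅h, k⁆⁆ = 1)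
    (haf : D.a f = 1) (hbf : D.b f = 0) (hak : D.a k = 0) (hbk : D.b k = 1) :
    ¬ IsQuadratic G := by
  let F : lcs G 0 := ⟨f, Subgroup.mem_top f⟩
  let H : lcs G 0 := ⟨h, Subgroup.mem_top h⟩
  let K : lcs G 0 := ⟨k, Subgroup.mem_top k⟩
  have hFH : grMk 0 F = grMk 0 H := (grMk_eq 0 F H).2 hfh
  refine not_quadratic D.ψ D.μ D.hμ
    ⁅incl (grMk 0 F), ⁅incl (grMk 0 F), incl (grMk 0 K)⁆⁆ ?_ ?_
  · rw [LieHom.map_lie, LieHom.map_lie]
    unfold natMap
    rw [liftF_incl, liftF_incl]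
    nth_rewrite 2 [hFH]
    rw [lie_mk, lie_mk]
    change ofL 2 (grMk 2 ⟨⁅f, ⁅h, k⁆⁆, _⟩) = 0
    have : (⟨⁅f, ⁅h, k⁆⁆, lcs_comm_mem (m := 0) (n := 1) (Subgroup.mem_top f)
        (lcs_comm_mem (m := 0) (n := 0) (Subgroup.mem_top h) (Subgroup.mem_top k))⟩ : lcs G 2)
        = 1 := Subtype.ext hc
    rw [this, grMk_one, map_zero]
  · rw [LieHom.map_lie, LieHom.map_lie, liftF_incl, liftF_incl]
    have h1 : D.ψ (grMk 0 F) = mK := by
      change D.a f • mK + D.b f • mk' = mK
      rw [haf, hbf, one_smul, zero_smul, add_zero]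
    have h2 : D.ψ (grMk 0 K) = mk' := by
      change D.a k • mK + D.b k • mk' = mk'
      rw [hak, hbk, one_smul, zero_smul, zero_add]
    rw [h1, h2, lie_K_k, lie_K_L]
    exact mZ_ne

end CubicData

end criterion

end Q28.FreeLieV
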