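import Mathlib

/-!
Homomorphisms inducing isomorphisms on the quotients by the terms of the lower central series.
-/

namespace Q28.LowerCentral

open Subgroup
open scoped commutatorElement

/-- `C^{n+1} G`. -/
abbrev L (G : Type*) [Group G] (n : ℕ) : Subgroup G := (⊤ : Subgroup G).lowerCentralSeries n

section

variable {G : Type*} [Group G]

theorem comm_mem {a b : G} {n : ℕ} (ha : a ∈ L G n) : ⁅a, b⁆ ∈ L G (n + 1) :=
  commutator_mem_commutator ha (mem_top b)

theorem L_le {m n : ℕ} (h : m ≤ n) : L G n ≤ L G m := Subgroup.lowerCentralSeries_antitone _ h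

/-- The elements of `L n` are central modulo `L (n+1)`. -/
theorem central_mod {a : G} {n : ℕ} (ha : a ∈ L G n) (b : G) :
    (QuotientGroup.mk (a * b) : G ⧸ L G (n + 1)) = QuotientGroup.mk (b * a) := by
  rw [QuotientGroup.eq]
  have h := comm_mem (b := b⁻¹) ((L G n).inv_mem ha)
  have : (a * b)⁻¹ * (b * a) = ⁅b⁻¹, a⁻¹⁆ := by
    simp only [commutatorElement_def]; group
  rw [this, ← commutatorElement_inv]
  exact (L G (n + 1)).inv_mem h

/-- For `a ∈ L n`, the map `b ↦ [a, b]` is multiplicative modulo `L (n+2)`. -/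
theorem comm_mul_mod {a : G} {n : ℕ} (ha : a ∈ L G n) (b c : G) :
    (QuotientGroup.mk ⁅a, b * c⁆ : G ⧸ L G (n + 2)) =
      QuotientGroup.mk ⁅a, b⁆ * QuotientGroup.mk ⁅a, c⁆ := by
  have h1 : ⁅a, b * c⁆ = ⁅a, b⁆ * (b * ⁅a, c⁆ * b⁻¹) := by
    simp only [commutatorElement_def]; group
  rw [h1, QuotientGroup.mk_mul]
  congr 1
  have h2 := central_mod (n := n + 1) (comm_mem (b := c) ha) b
  rw [QuotientGroup.mk_mul, ← h2, ← QuotientGroup.mk_mul]
  simp

/-- `[L n, L 1] ≤ L (n+2)`. -/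
theorem comm_L_one {a : G} {n : ℕ} (ha : a ∈ L G n) {d : G} (hd : d ∈ L G 1) :
    ⁅a, d⁆ ∈ L G (n + 2) := by
  -- the set of `d` with `[a,d] ∈ L (n+2)` is a subgroup containing all commutators
  let f : G →* G ⧸ L G (n + 2) :=
    { toFun := fun b => QuotientGroup.mk ⁅a, b⁆
      map_one' := by rw [commutatorElement_one_right]; rfl
      map_mul' := fun b c => comm_mul_mod ha b c }
  have hker : L G 1 ≤ f.ker := by
    show ⁅(⊤ : Subgroup G), (⊤ : Subgroup G)⁆ ≤ f.ker
    rw [commutator_le]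
    intro b _ c _
    rw [MonoidHom.mem_ker, map_commutatorElement, commutatorElement_eq_one_iff_mul_comm,
      ← map_mul]
    show (QuotientGroup.mk ⁅a, b * c⁆ : G ⧸ L G (n + 2)) = QuotientGroup.mk ⁅a, c⁆ * QuotientGroup.mk ⁅a, b⁆
    rw [comm_mul_mod ha, ← QuotientGroup.mk_mul, ← QuotientGroup.mk_mul]
    exact central_mod (n := n + 1) (comm_mem ha) _
  have := hker hd
  rw [MonoidHom.mem_ker] at this
  exact (QuotientGroup.eq_one_iff _).1 this

/-- For `c ∈ L (n+1)`: `[a c, b] ≡ [a, b]` modulo `L (n+2)`. -/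
theorem comm_mod_left (a b : G) {c : G} {n : ℕ} (hc : c ∈ L G (n + 1)) :
    (QuotientGroup.mk ⁅a * c, b⁆ : G ⧸ L G (n + 2)) = QuotientGroup.mk ⁅a, b⁆ := by
  have h1 : ⁅a * c, b⁆ = (a * ⁅c, b⁆ * a⁻¹) * ⁅a, b⁆ := by
    simp only [commutatorElement_def]; group
  rw [h1, QuotientGroup.mk_mul]
  have h2 : (QuotientGroup.mk (a * ⁅c, b⁆ * a⁻¹) : G ⧸ L G (n + 2)) = 1 := by
    rw [QuotientGroup.eq_one_iff]
    exact (inferInstance : (L G (n + 2)).Normal).conj_mem _ (comm_mem hc) a
  rw [h2, one_mul]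

/-- an endomorphism which is the identity modulo `L 1` is the identity on all `L n / L (n+1)` -/
theorem gr_id (f : G →* G) (hf : ∀ g, g⁻¹ * f g ∈ L G 1) (n : ℕ) :
    ∀ g ∈ L G n, g⁻¹ * f g ∈ L G (n + 1) := by
  induction n with
  | zero => intro g _; exact hf g
  | succ n ih =>
    intro g hg
    -- both `f` and `id` induce maps to the quotient, equal on `L (n+1)`
    let q : G →* G ⧸ L G (n + 2) := QuotientGroup.mk' _
    have hle : L G (n + 1) ≤ (q.comp f).eqLocus q := by
      show ⁅L G n, (⊤ : Subgroup G)⁆ ≤ _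
      rw [commutator_le]
      intro a ha b _
      show q (f ⁅a, b⁆) = q ⁅a, b⁆
      rw [map_commutatorElement]
      obtain ⟨c, hc⟩ : ∃ c, c = a⁻¹ * f a := ⟨_, rfl⟩
      obtain ⟨d, hd⟩ : ∃ d, d = b⁻¹ * f b := ⟨_, rfl⟩
      have hfa : f a = a * c := by rw [hc]; group
      have hfb : f b = b * d := by rw [hd]; group
      have hcm : c ∈ L G (n + 1) := hc ▸ ih a ha
      have hdm : d ∈ L G 1 := hd ▸ hf b
      rw [hfa, hfb]
      show (QuotientGroup.mk ⁅a * c, b * d⁆ : G ⧸ L G (n + 2)) = QuotientGroup.mk ⁅a, b⁆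
      rw [comm_mod_left a (b * d) hcm, comm_mul_mod ha,
        (QuotientGroup.eq_one_iff ⁅a, d⁆).2 (comm_L_one ha hdm), mul_one]
    have h := hle hg
    have h2 : q (f g) = q g := h
    exact QuotientGroup.eq.1 h2.symm

end

/-- `f` induces a bijection `G / L n → H / L n` -/
def BijMod {G H : Type*} [Group G] [Group H] (f : G →* H) (n : ℕ) : Prop :=
  (∀ g, f g ∈ L H n → g ∈ L G n) ∧ (∀ h, ∃ g, (f g)⁻¹ * h ∈ L H n)

theorem map_mem {G H : Type*} [Group G] [Group H] (f : G →* H) {n : ℕ} {g : G}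
    (hg : g ∈ L G n) : f g ∈ L H n := by
  have h : (L G n).map f ≤ L H n := by
    rw [map_lowerCentralSeries]
    exact lowerCentralSeries_mono n le_top
  exact h (mem_map_of_mem f hg)

theorem bijMod_of_id {G : Type*} [Group G] (f : G →* G) (hf : ∀ g, g⁻¹ * f g ∈ L G 1) (n : ℕ) :
    BijMod f n := by
  constructor
  · intro g hg
    have key : ∀ i, i ≤ n → g ∈ L G i := by
      intro i
      induction i with
      | zero => intro _; exact mem_top g
      | succ i ih =>
        intro hi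
        have h1 := ih (by omega)
        have h2 := gr_id f hf i g h1
        have h3 : f g ∈ L G (i + 1) := L_le hi hg
        have h4 : g⁻¹ = (g⁻¹ * f g) * (f g)⁻¹ := by group
        have h5 : g⁻¹ ∈ L G (i + 1) := by
          rw [h4]; exact (L G (i + 1)).mul_mem h2 ((L G (i + 1)).inv_mem h3)
        exact inv_mem_iff.1 h5
    exact key n le_rfl
  · induction n with
    | zero => intro h; exact ⟨1, mem_top _⟩
    | succ n ih =>
      intro h
      obtain ⟨g, hg⟩ := ih h
      obtain ⟨r, hr⟩ : ∃ r, r = (f g)⁻¹ * h := ⟨_, rfl⟩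
      have hr' : r ∈ L G n := hr ▸ hg
      refine ⟨g * r, ?_⟩
      have h2 := gr_id f hf n r hr'
      have h3 : (f (g * r))⁻¹ * h = (r⁻¹ * f r)⁻¹ := by
        rw [map_mul, hr]; group
      rw [h3]
      exact (L G (n + 1)).inv_mem h2

/-- a homomorphism of a free group to itself which is bijective modulo `L 1` is bijective modulo
all `L n` -/
theorem bijMod_of_one {X : Type*} (f : FreeGroup X →* FreeGroup X) (h1 : BijMod f 1) (n : ℕ) :
    BijMod f n := by
  choose s hs using h1.2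
  let χ : FreeGroup X →* FreeGroup X := FreeGroup.lift (fun x => s (FreeGroup.of x))
  have hfχ : ∀ g, g⁻¹ * (f.comp χ) g ∈ L (FreeGroup X) 1 := by
    let q : FreeGroup X →* FreeGroup X ⧸ L (FreeGroup X) 1 := QuotientGroup.mk' _
    have : q.comp (f.comp χ) = q := by
      apply FreeGroup.ext_hom
      intro x
      show (QuotientGroup.mk (f (χ (FreeGroup.of x))) : FreeGroup X ⧸ L (FreeGroup X) 1) =
        QuotientGroup.mk (FreeGroup.of x)
      rw [QuotientGroup.eq]
      have : χ (FreeGroup.of x) = s (FreeGroup.of x) := FreeGroup.lift_apply_of ..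
      rw [this]
      exact hs _
    intro g
    have h2 := DFunLike.congr_fun this g
    exact QuotientGroup.eq.1 h2.symm
  have hχf : ∀ g, g⁻¹ * (χ.comp f) g ∈ L (FreeGroup X) 1 := by
    intro g
    apply h1.1
    have h3 := hfχ (f g)
    simpa using h3
  refine ⟨fun g hg => (bijMod_of_id _ hχf n).1 g (map_mem χ hg), fun h => ?_⟩
  obtain ⟨g, hg⟩ := (bijMod_of_id _ hfχ n).2 h
  exact ⟨χ g, hg⟩

theorem mk_mem_comm {G : Type*} [Group G] (n : ℕ) (g : G) :
    (QuotientGroup.mk g : G ⧸ L G (n + 1)) ∈ L (G ⧸ L G (n + 1)) 1 ↔ g ∈ L G 1 := by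
  constructor
  · intro h
    have h2 : (L G 1).map (QuotientGroup.mk' (L G (n + 1))) = L (G ⧸ L G (n + 1)) 1 := by
      rw [map_lowerCentralSeries, Subgroup.map_top_of_surjective _ (QuotientGroup.mk'_surjective _)]
    rw [← h2, mem_map] at h
    obtain ⟨x, hx, hxg⟩ := h
    have h3 : x⁻¹ * g ∈ L G (n + 1) := QuotientGroup.eq.1 hxg
    have h4 : x⁻¹ * g ∈ L G 1 := L_le (by omega) h3
    have h5 : g = x * (x⁻¹ * g) := by group
    rw [h5]
    exact (L G 1).mul_mem hx h4
  · intro h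
    exact map_mem (QuotientGroup.mk' (L G (n + 1))) h

/-- **Main lemma.** If `Γ / L n ≅ F / L n` for all `n`, `F` free, then some homomorphism `F → Γ`
is bijective modulo all `L n`. -/
theorem exists_hom {Γ : Type*} [Group Γ] {X : Type*}
    (h : ∀ n, Nonempty (Γ ⧸ L Γ n ≃* FreeGroup X ⧸ L (FreeGroup X) n)) :
    ∃ φ : FreeGroup X →* Γ, ∀ n, BijMod φ n := by
  obtain ⟨θ⟩ := h 1
  -- lift the basis
  have hlift : ∀ x : X, ∃ γ : Γ, (QuotientGroup.mk γ : Γ ⧸ L Γ 1) =
      θ.symm (QuotientGroup.mk (FreeGroup.of x)) := fun x => QuotientGroup.mk_surjective _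
  choose γ hγ using hlift
  let φ : FreeGroup X →* Γ := FreeGroup.lift γ
  have hφ : ∀ w, (QuotientGroup.mk (φ w) : Γ ⧸ L Γ 1) = θ.symm (QuotientGroup.mk w) := by
    have : (QuotientGroup.mk' (L Γ 1)).comp φ =
        (θ.symm.toMonoidHom).comp (QuotientGroup.mk' (L (FreeGroup X) 1)) := by
      apply FreeGroup.ext_hom
      intro x
      show (QuotientGroup.mk (φ (FreeGroup.of x)) : Γ ⧸ L Γ 1) = _
      have : φ (FreeGroup.of x) = γ x := FreeGroup.lift_apply_of ..
      rw [this, hγ]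
      rfl
    exact fun w => DFunLike.congr_fun this w
  have hφ1 : BijMod φ 1 := by
    constructor
    · intro w hw
      have h1 := hφ w
      rw [(QuotientGroup.eq_one_iff _).2 hw] at h1
      have h2 : (QuotientGroup.mk w : FreeGroup X ⧸ L (FreeGroup X) 1) = 1 := by
        apply θ.symm.injective
        rw [← h1, map_one]
      exact (QuotientGroup.eq_one_iff _).1 h2
    · intro g
      obtain ⟨w, hw⟩ := QuotientGroup.mk_surjective (θ (QuotientGroup.mk g))
      refine ⟨w, ?_⟩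
      rw [← QuotientGroup.eq, hφ, hw, θ.symm_apply_apply]
  refine ⟨φ, fun n => ?_⟩
  rcases n with _ | n
  · exact ⟨fun g _ => mem_top g, fun _ => ⟨1, mem_top _⟩⟩
  obtain ⟨α⟩ := h (n + 1)
  -- lift `α ∘ φ` to an endomorphism of the free group
  have hlift2 : ∀ x : X, ∃ u : FreeGroup X, (QuotientGroup.mk u : FreeGroup X ⧸ L (FreeGroup X) (n + 1)) =
      α (QuotientGroup.mk (φ (FreeGroup.of x))) := fun x => QuotientGroup.mk_surjective _
  choose u hu using hlift2
  let β : FreeGroup X →* FreeGroup X := FreeGroup.lift u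
  have hβ : ∀ w, (QuotientGroup.mk (β w) : FreeGroup X ⧸ L (FreeGroup X) (n + 1)) =
      α (QuotientGroup.mk (φ w)) := by
    have : (QuotientGroup.mk' (L (FreeGroup X) (n + 1))).comp β =
        (α.toMonoidHom).comp ((QuotientGroup.mk' (L Γ (n + 1))).comp φ) := by
      apply FreeGroup.ext_hom
      intro x
      show (QuotientGroup.mk (β (FreeGroup.of x)) : FreeGroup X ⧸ L (FreeGroup X) (n + 1)) = _
      have : β (FreeGroup.of x) = u x := FreeGroup.lift_apply_of ..
      rw [this, hu]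
      rfl
    exact fun w => DFunLike.congr_fun this w
  have hβ1 : BijMod β 1 := by
    constructor
    · intro w hw
      rw [← mk_mem_comm n, hβ] at hw
      have h2 := map_mem (α.symm.toMonoidHom) hw
      have h3 : (QuotientGroup.mk (φ w) : Γ ⧸ L Γ (n + 1)) ∈ L _ 1 := by
        have : α.symm.toMonoidHom (α (QuotientGroup.mk (φ w))) = QuotientGroup.mk (φ w) :=
          α.symm_apply_apply _
        rwa [this] at h2
      exact hφ1.1 w ((mk_mem_comm n _).1 h3)
    · intro y
      obtain ⟨g, hg⟩ := QuotientGroup.mk_surjective (α.symm (QuotientGroup.mk y))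
      obtain ⟨w, hw⟩ := hφ1.2 g
      refine ⟨w, ?_⟩
      rw [← mk_mem_comm n, QuotientGroup.mk_mul, QuotientGroup.mk_inv, hβ]
      have h2 := map_mem (α.toMonoidHom) ((mk_mem_comm n _).2 hw)
      rw [QuotientGroup.mk_mul, QuotientGroup.mk_inv, map_mul, map_inv, hg] at h2
      have : α.toMonoidHom (α.symm (QuotientGroup.mk y)) = QuotientGroup.mk y :=
        α.apply_symm_apply _
      rwa [this] at h2
  have hβn := bijMod_of_one β hβ1 (n + 1)
  constructor
  · intro w hw
    apply hβn.1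
    rw [← QuotientGroup.eq_one_iff, hβ, (QuotientGroup.eq_one_iff _).2 hw, map_one]
  · intro g
    obtain ⟨y, hy⟩ := QuotientGroup.mk_surjective (α (QuotientGroup.mk g))
    obtain ⟨w, hw⟩ := hβn.2 y
    refine ⟨w, ?_⟩
    rw [← QuotientGroup.eq] at hw ⊢
    rw [hβ, hy] at hw
    exact α.injective hw

end Q28.LowerCentral
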