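import Mathlib

/-!
A countable family of monotone functions `g i : ℕ → ℕ`, each of which is subexponential in the
discrete sense `∀ L, eventually (g n)^L ≤ 2^n`, is eventually dominated by one strictly increasing
function which is subexponential in the same sense.
-/

namespace Q28.Osc

open Filter

/-- discrete form of subexponential growth -/
def Sub (f : ℕ → ℕ) : Prop := ∀ L : ℕ, ∀ᶠ n in atTop, f n ^ L ≤ 2 ^ n

theorem exists_bound (g : ℕ → ℕ → ℕ) (hmono : ∀ i, Monotone (g i)) (hsub : ∀ i, Sub (g i)) :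
    ∃ f : ℕ → ℕ, StrictMono f ∧ Sub f ∧ (∀ n, n ^ 2 + 1 ≤ f n) ∧
      ∀ i, ∀ᶠ n in atTop, g i n ≤ f n := by
  classical
  have hN : ∀ i, ∃ N, ∀ n ≥ N, g i n ^ i ≤ 2 ^ n := fun i => eventually_atTop.1 (hsub i i)
  choose N hN using hN
  let A : ℕ → Finset ℕ := fun n => (Finset.range (n + 1)).filter (fun i => N i ≤ n)
  let h : ℕ → ℕ := fun n => (A n).sup (fun i => g i n)
  have hAmono : ∀ m n, m ≤ n → A m ⊆ A n := by
    intro m n hmn i hi
    simp only [A, Finset.mem_filter, Finset.mem_range] at hi ⊢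
    omega
  have hmono' : Monotone h := by
    intro m n hmn
    apply Finset.sup_le
    intro i hi
    exact (hmono i hmn).trans (Finset.le_sup (f := fun i => g i n) (hAmono m n hmn hi))
  have hhsub : Sub h := by
    intro L
    have h1 : ∀ᶠ n in atTop, ∀ i ∈ Finset.range L, g i n ^ L ≤ 2 ^ n := by
      rw [Filter.eventually_all_finset]
      intro i _
      exact hsub i L
    filter_upwards [h1] with n hn
    by_cases hA : (A n).Nonempty
    · obtain ⟨i, hi, hie⟩ := Finset.exists_mem_eq_sup (A n) hA (fun i => g i n)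
      have : h n = g i n := hie
      rw [this]
      by_cases hiL : i < L
      · exact hn i (Finset.mem_range.2 hiL)
      · have hi2 : N i ≤ n := (Finset.mem_filter.1 hi).2
        rcases Nat.eq_zero_or_pos (g i n) with h0 | h0
        · rw [h0]
          rcases Nat.eq_zero_or_pos L with hL | hL
          · subst hL; simpa using Nat.one_le_two_pow
          · rw [zero_pow hL.ne']; exact Nat.zero_le _
        · exact (Nat.pow_le_pow_right h0 (by omega)).trans (hN i n hi2)
    · rw [Finset.not_nonempty_iff_eq_empty] at hA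
      have : h n = 0 := by simp [h, hA]
      rw [this]
      rcases Nat.eq_zero_or_pos L with hL | hL
      · subst hL; simpa using Nat.one_le_two_pow
      · rw [zero_pow hL.ne']; exact Nat.zero_le _
  have hq : Sub (fun n => n ^ 2 + 1) := by
    intro L
    -- `(n^2+1)^L` is a polynomial
    have key : Tendsto (fun n : ℕ => ((n : ℝ) ^ 2 + 1) ^ L / (2 : ℝ) ^ n) atTop (nhds 0) := by
      have h2 : Tendsto (fun n : ℕ => (n : ℝ) ^ (3 * L) / (2 : ℝ) ^ n) atTop (nhds 0) :=
        tendsto_pow_const_div_const_pow_of_one_lt (3 * L) (by norm_num)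
      refine squeeze_zero' (Eventually.of_forall fun n => by positivity) ?_ h2
      filter_upwards [eventually_ge_atTop 2] with n hn
      have hn' : (2 : ℝ) ≤ n := by exact_mod_cast hn
      have : ((n : ℝ) ^ 2 + 1) ≤ (n : ℝ) ^ 3 := by nlinarith [sq_nonneg ((n : ℝ) - 1)]
      rw [pow_mul]
      gcongr
    have h3 := key.eventually (gt_mem_nhds (show (0 : ℝ) < 1 by norm_num))
    filter_upwards [h3] with n hn
    rw [div_lt_one (by positivity)] at hn
    have : (((n ^ 2 + 1) ^ L : ℕ) : ℝ) ≤ ((2 ^ n : ℕ) : ℝ) := by push_cast; exact hn.le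
    exact_mod_cast this
  refine ⟨fun n => (n ^ 2 + 1) + h n, ?_, ?_, fun n => Nat.le_add_right _ _, ?_⟩
  · refine strictMono_nat_of_lt_succ fun n => ?_
    have := hmono' (Nat.le_succ n)
    simp only [Nat.succ_eq_add_one] at this
    have h5 : (n + 1) ^ 2 = n ^ 2 + 2 * n + 1 := by ring
    show (n ^ 2 + 1) + h n < ((n + 1) ^ 2 + 1) + h (n + 1)
    rw [h5]
    omega
  · intro L
    filter_upwards [hq (2 * L), hhsub (2 * L), eventually_ge_atTop (2 * L)] with n h1 h2 h3
    have hmax : ((n ^ 2 + 1) + h n) ≤ 2 * max (n ^ 2 + 1) (h n) := by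
      have := le_max_left (n ^ 2 + 1) (h n)
      have := le_max_right (n ^ 2 + 1) (h n)
      omega
    have hm : (max (n ^ 2 + 1) (h n)) ^ (2 * L) ≤ 2 ^ n := by
      rcases max_choice (n ^ 2 + 1) (h n) with hh | hh <;> rw [hh] <;> assumption
    have : (((n ^ 2 + 1) + h n) ^ L) ^ 2 ≤ (2 ^ n) ^ 2 := by
      calc (((n ^ 2 + 1) + h n) ^ L) ^ 2 ≤ ((2 * max (n ^ 2 + 1) (h n)) ^ L) ^ 2 := by gcongr
        _ = 2 ^ (2 * L) * (max (n ^ 2 + 1) (h n)) ^ (2 * L) := by
            rw [← pow_mul, mul_pow]; ring_nf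
        _ ≤ 2 ^ n * 2 ^ n := by
            gcongr
            norm_num
        _ = (2 ^ n) ^ 2 := by ring
    exact le_of_pow_le_pow_left₀ (by norm_num) (Nat.zero_le _) this
  · intro i
    filter_upwards [eventually_ge_atTop (max i (N i))] with n hn
    have hi : i ∈ A n := by
      simp only [A, Finset.mem_filter, Finset.mem_range]
      have := le_max_left i (N i)
      have := le_max_right i (N i)
      omega
    have := Finset.le_sup (f := fun i => g i n) hi
    exact le_trans this (Nat.le_add_left _ _)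

/-- a function `g ≥ 1` with `g (m + n) ≤ g m * g n` either grows exponentially or is `Sub`. -/
theorem dichotomy (g : ℕ → ℕ) (hmono : Monotone g) (h1 : ∀ n, 1 ≤ g n)
    (hmul : ∀ m n, g (m + n) ≤ g m * g n) :
    (∃ K : ℕ, 1 ≤ K ∧ ∀ n, 2 ^ n ≤ g (K * n)) ∨ Sub g := by
  by_cases hA : ∃ K : ℕ, 1 ≤ K ∧ ∀ n, 2 ^ n ≤ g (K * n)
  · exact Or.inl hA
  · right
    push Not at hA
    intro L
    rcases Nat.eq_zero_or_pos L with hL | hL
    · subst hL
      exact Eventually.of_forall fun n => by simpa using Nat.one_le_two_pow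
    obtain ⟨n, hn⟩ := hA (2 * L) (by omega)
    -- multiples
    have hpow : ∀ m j, g (j * m) ≤ g m ^ j * g 0 := by
      intro m j
      induction j with
      | zero => simp
      | succ j ih =>
        calc g ((j + 1) * m) = g (j * m + m) := by ring_nf
          _ ≤ g (j * m) * g m := hmul _ _
          _ ≤ (g m ^ j * g 0) * g m := by gcongr
          _ = g m ^ (j + 1) * g 0 := by ring
    have hnpos : 0 < n ∨ n = 0 := by omega
    rcases hnpos with hnpos | hn0
    swap
    · subst hn0
      simp at hn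
      have := h1 0
      omega
    set m := 2 * L * n with hm
    have hmpos : 0 < m := by positivity
    -- for every t, g t ≤ 2^(n (t/m + 1)) * g 0
    have hbound : ∀ t, g t ≤ 2 ^ (n * (t / m + 1)) * g 0 := by
      intro t
      have ht : t ≤ (t / m + 1) * m := by
        have := Nat.lt_div_mul_add hmpos (a := t)
        nlinarith
      calc g t ≤ g ((t / m + 1) * m) := hmono ht
        _ ≤ g m ^ (t / m + 1) * g 0 := hpow _ _
        _ ≤ (2 ^ n) ^ (t / m + 1) * g 0 := by gcongr
        _ = 2 ^ (n * (t / m + 1)) * g 0 := by rw [← pow_mul]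
    -- choose c with g 0 ≤ 2^c
    obtain ⟨c, hc⟩ : ∃ c, g 0 ≤ 2 ^ c := ⟨g 0, Nat.lt_two_pow_self.le⟩
    filter_upwards [eventually_ge_atTop (2 * L * n + 2 * L * c)] with t ht
    have h2 : (g t ^ L) ^ 2 ≤ (2 ^ t) ^ 2 := by
      calc (g t ^ L) ^ 2 = g t ^ (2 * L) := by rw [← pow_mul]; ring_nf
        _ ≤ (2 ^ (n * (t / m + 1)) * g 0) ^ (2 * L) := by gcongr; exact hbound t
        _ ≤ (2 ^ (n * (t / m + 1)) * 2 ^ c) ^ (2 * L) := by gcongr
        _ = 2 ^ ((n * (t / m + 1) + c) * (2 * L)) := by rw [← pow_add, ← pow_mul]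
        _ ≤ 2 ^ (t * 2) := by
            apply Nat.pow_le_pow_right (by norm_num)
            have h3 : m * (t / m) ≤ t := Nat.mul_div_le t m
            have h4 : (n * (t / m + 1) + c) * (2 * L) = m * (t / m) + (2 * L * n + 2 * L * c) := by
              rw [hm]; ring
            rw [h4]
            omega
        _ = (2 ^ t) ^ 2 := by rw [← pow_mul]
    exact le_of_pow_le_pow_left₀ (by norm_num) (Nat.zero_le _) h2

end Q28.Osc
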