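import Mathlib

/-!
Positive words in free groups: `p ^ 5 z p ^ 5 z⁻¹` is not conjugate to a positive word when `z ≠ 1`
has total exponent sum zero.
-/

namespace Q28.PW

open FreeGroup

variable {α : Type}

/-- sign of a letter -/
def sg (a : α × Bool) : ℤ := if a.2 = true then 1 else -1

/-- total exponent sum of a word -/
def epsL (L : List (α × Bool)) : ℤ := (L.map sg).sum

theorem epsL_cons (a : α × Bool) (L : List (α × Bool)) : epsL (a :: L) = sg a + epsL L := by
  simp [epsL]

theorem epsL_append (L M : List (α × Bool)) : epsL (L ++ M) = epsL L + epsL M := by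
  simp [epsL]

theorem epsL_invRev (L : List (α × Bool)) : epsL (invRev L) = -epsL L := by
  induction L with
  | nil => rfl
  | cons a L ih =>
    rw [invRev_cons, epsL_append, ih, epsL_cons]
    have h : epsL (invRev [a]) = -sg a := by
      rcases a with ⟨x, b⟩
      cases b <;> simp [epsL, invRev, sg]
    rw [h]
    ring

/-- total exponent sum, as a homomorphism -/
def eps : FreeGroup α →* Multiplicative ℤ := FreeGroup.lift fun _ => Multiplicative.ofAdd 1

/-- total exponent sum -/
def e (g : FreeGroup α) : ℤ := Multiplicative.toAdd (eps g)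

theorem e_mul (g h : FreeGroup α) : e (g * h) = e g + e h := by
  unfold e; rw [MonoidHom.map_mul]; rfl

theorem e_one : e (1 : FreeGroup α) = 0 := by
  unfold e; rw [MonoidHom.map_one]; rfl

theorem e_inv (g : FreeGroup α) : e g⁻¹ = -e g := by
  unfold e; rw [MonoidHom.map_inv]; rfl

theorem e_pow (g : FreeGroup α) (n : ℕ) : e (g ^ n) = n * e g := by
  induction n with
  | zero => rw [pow_zero, e_one]; simp
  | succ n ih => rw [pow_succ, e_mul, ih]; push_cast; ring

theorem e_mk (L : List (α × Bool)) : e (mk L) = epsL L := by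
  induction L with
  | nil => rw [← one_eq_mk, e_one]; rfl
  | cons a L ih =>
    have h : mk (a :: L) = mk [a] * mk L := by rw [mul_mk]; rfl
    rw [h, e_mul, ih, epsL_cons]
    congr 1
    unfold e eps
    rw [lift_mk]
    rcases a with ⟨x, b⟩
    cases b
    · simp [sg]
    · simp [sg]

/-- positive words -/
def PosL (L : List (α × Bool)) : Prop := ∀ a ∈ L, a.2 = true

theorem epsL_pos {L : List (α × Bool)} (h : PosL L) : epsL L = L.length := by
  induction L with
  | nil => rfl
  | cons a L ih =>
    rw [epsL_cons, ih fun b hb => h b (List.mem_cons_of_mem _ hb), List.length_cons]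
    have h1 : sg a = 1 := if_pos (h a List.mem_cons_self)
    rw [h1]
    push_cast
    ring

theorem red_left {A B : List (α × Bool)} (h : FreeGroup.IsReduced (A ++ B)) :
    FreeGroup.IsReduced A := (List.isChain_append.1 h).1

theorem red_right {A B : List (α × Bool)} (h : FreeGroup.IsReduced (A ++ B)) :
    FreeGroup.IsReduced B := (List.isChain_append.1 h).2.1

/-- cancellation in a product of two reduced words -/
theorem canc (U V : List (α × Bool)) (hU : IsReduced U) (hV : IsReduced V) :
    ∃ A C B, U = A ++ C ∧ V = invRev C ++ B ∧ IsReduced (A ++ B) := by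
  induction U using List.reverseRecOn generalizing V with
  | nil => exact ⟨[], [], V, rfl, rfl, hV⟩
  | append_singleton U a ih =>
    cases V with
    | nil => exact ⟨U ++ [a], [], [], by simp, rfl, by simpa using hU⟩
    | cons b V =>
      by_cases h : a.1 = b.1 ∧ a.2 ≠ b.2
      · obtain ⟨A, C, B, h1, h2, h3⟩ := ih V (red_left hU)
          (red_right (A := [b]) hV)
        refine ⟨A, C ++ [a], B, by rw [h1, List.append_assoc], ?_, h3⟩
        rw [invRev_append]
        have hab : invRev [a] = [b] := by
          rcases a with ⟨x, s⟩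
          rcases b with ⟨y, t⟩
          obtain ⟨h4, h5⟩ := h
          simp only at h4 h5
          subst h4
          cases s <;> cases t <;> simp_all [invRev]
        rw [hab, List.append_assoc, ← h2]
        rfl
      · refine ⟨U ++ [a], [], b :: V, by simp, rfl, ?_⟩
        unfold FreeGroup.IsReduced
        rw [List.isChain_append]
        refine ⟨hU, hV, ?_⟩
        intro x hx y hy hxy
        rw [List.getLast?_concat, Option.mem_some_iff] at hx
        rw [List.head?_cons, Option.mem_some_iff] at hy
        subst hx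
        subst hy
        by_contra hne
        exact h ⟨hxy, hne⟩

section Dec

variable [DecidableEq α]

/-- positive elements -/
def Pos (g : FreeGroup α) : Prop := PosL g.toWord

theorem Pos.mul {g h : FreeGroup α} (hg : Pos g) (hh : Pos h) : Pos (g * h) := by
  intro a ha
  rcases List.mem_append.1 ((toWord_mul_sublist g h).subset ha) with h1 | h1
  · exact hg a h1
  · exact hh a h1

theorem pos_one : Pos (1 : FreeGroup α) := by
  intro a ha
  rw [toWord_one] at ha
  exact absurd ha List.not_mem_nil

theorem Pos.pow {g : FreeGroup α} (hg : Pos g) (n : ℕ) : Pos (g ^ n) := by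
  induction n with
  | zero => rw [pow_zero]; exact pos_one
  | succ n ih => rw [pow_succ]; exact ih.mul hg

theorem pos_mk {L : List (α × Bool)} (h : PosL L) : Pos (mk L) := by
  intro a ha
  rw [toWord_mk] at ha
  have h1 : reduce L = L := by
    apply IsReduced.reduce_eq
    unfold FreeGroup.IsReduced
    rw [List.isChain_iff_forall_rel_of_append_cons_cons]
    intro x y l₁ l₂ hl _
    rw [h x (by rw [hl]; simp), h y (by rw [hl]; simp)]
  rw [h1] at ha
  exact h a ha

theorem Pos.norm_eq {g : FreeGroup α} (hg : Pos g) : (g.norm : ℤ) = e g := by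
  have h1 := epsL_pos hg
  rw [← e_mk, mk_toWord] at h1
  exact h1.symm

theorem uniq {u v q : FreeGroup α} (hu : u.norm = q.norm) (hv : v.norm = q.norm)
    (h : u * q⁻¹ * v = q) : u = q := by
  have h' : q⁻¹ * v = u⁻¹ * q := by
    have h0 : u⁻¹ * (u * q⁻¹ * v) = u⁻¹ * q := by rw [h]
    rwa [mul_assoc, inv_mul_cancel_left] at h0
  obtain ⟨A, C, B, h1, h2, h3⟩ := canc (q⁻¹).toWord v.toWord isReduced_toWord isReduced_toWord
  obtain ⟨A', C', B', h1', h2', h3'⟩ := canc (u⁻¹).toWord q.toWord isReduced_toWord
    isReduced_toWord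
  have e1 : (q⁻¹ * v).toWord = A ++ B := by
    rw [toWord_mul, h1, h2, ← h3.reduce_eq]
    apply reduce.sound
    rw [← mul_mk, ← mul_mk, ← mul_mk, ← inv_mk, ← mul_mk]
    group
  have e2 : (u⁻¹ * q).toWord = A' ++ B' := by
    rw [toWord_mul, h1', h2', ← h3'.reduce_eq]
    apply reduce.sound
    rw [← mul_mk, ← mul_mk, ← mul_mk, ← inv_mk, ← mul_mk]
    group
  have e3 : A ++ B = A' ++ B' := by rw [← e1, ← e2, h']
  have l1 := congrArg List.length h1
  have l2 := congrArg List.length h2
  have l1' := congrArg List.length h1'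
  have l2' := congrArg List.length h2'
  have l3 := congrArg List.length e3
  rw [toWord_inv, invRev_length] at l1 l1'
  simp only [List.length_append, invRev_length] at l1 l2 l1' l2' l3
  have n1 : u.toWord.length = u.norm := rfl
  have n2 : v.toWord.length = v.norm := rfl
  have n3 : q.toWord.length = q.norm := rfl
  have lA : A.length = A'.length := by omega
  obtain ⟨hA, hB⟩ := List.append_inj e3 lA
  have lC : (invRev C).length = (invRev C').length := by
    rw [invRev_length, invRev_length]
    omega
  -- the word of `q`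
  have w1 : q.toWord = invRev C ++ invRev A := by
    have : invRev (q⁻¹).toWord = q.toWord := by rw [toWord_inv, invRev_invRev]
    rw [← this, h1, invRev_append]
  have w2 : invRev C = invRev C' := (List.append_inj (w1.symm.trans h2') lC).1
  have w3 : u.toWord = invRev C' ++ invRev A' := by
    have : invRev (u⁻¹).toWord = u.toWord := by rw [toWord_inv, invRev_invRev]
    rw [← this, h1', invRev_append]
  apply toWord_injective
  rw [w3, w1, w2, hA]

/-- The key lemma on cancellations. -/
theorem key (P : List (α × Bool)) (hP : IsCyclicallyReduced P) (hne : P ≠ [])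
    (heps : epsL P ≠ 0) (Z : FreeGroup α) (hl : Z.norm ≤ (mk P * Z).norm)
    (hr : Z.norm ≤ (Z * mk P).norm) :
    ∃ X, IsReduced (P ++ X ++ P) ∧ mk P ^ 3 * Z * mk P ^ 3 = mk P * mk X * mk P := by
  have hLpos : 0 < P.length := List.length_pos_iff.2 hne
  have hP3 : IsReduced (P ++ P ++ P) := by
    have h := (hP.flatten_replicate 3).isReduced
    simpa [List.replicate_succ, List.append_assoc] using h
  have hZ : Z = mk Z.toWord := mk_toWord.symm
  have hnorm : Z.norm = Z.toWord.length := rfl
  obtain ⟨A, C, B, hA, hR, hAB⟩ := canc (P ++ P ++ P) Z.toWord hP3 isReduced_toWord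
  have hZ' : Z = (mk C)⁻¹ * mk B := by rw [inv_mk, mul_mk, ← hR]; exact hZ
  have hRl : Z.norm = C.length + B.length := by
    rw [hnorm, hR, List.length_append, invRev_length]
  have sufC : C <:+ P ++ P ++ P := ⟨A, hA.symm⟩
  have sufP : P <:+ P ++ P ++ P := ⟨P ++ P, rfl⟩
  have preP : P <+: P ++ P ++ P := ⟨P ++ P, by simp⟩
  -- step a
  have hC : 2 * C.length ≤ P.length := by
    by_contra hcon
    rw [not_le] at hcon
    rcases le_or_gt P.length C.length with h | h
    · obtain ⟨C', hC'⟩ := List.suffix_of_suffix_length_le sufP sufC h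
      have h1 : mk P * Z = mk (invRev C' ++ B) := by
        rw [hZ', ← hC', ← mul_mk, ← mul_mk, ← inv_mk]
        group
      have h2 : (mk P * Z).norm ≤ C'.length + B.length := by
        rw [h1]
        refine norm_mk_le.trans ?_
        rw [List.length_append, invRev_length]
      have h3 := congrArg List.length hC'
      rw [List.length_append] at h3
      omega
    · obtain ⟨A', hA'⟩ := List.suffix_of_suffix_length_le sufC sufP h.le
      have h1 : mk P * Z = mk (A' ++ B) := by
        rw [hZ', ← hA', ← mul_mk, ← mul_mk]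
        group
      have h2 : (mk P * Z).norm ≤ A'.length + B.length := by
        rw [h1]
        refine norm_mk_le.trans ?_
        rw [List.length_append]
      have h3 := congrArg List.length hA'
      rw [List.length_append] at h3
      omega
  obtain ⟨A', hA'⟩ := List.suffix_of_suffix_length_le sufC sufP (by omega)
  have hlP : A'.length + C.length = P.length := by
    rw [← List.length_append, hA']
  have hAeq : A = P ++ P ++ A' := by
    have h1 : A ++ C = P ++ P ++ A' ++ C := by
      rw [← hA, List.append_assoc (P ++ P), hA']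
    exact List.append_cancel_right h1
  -- step b
  obtain ⟨E, G, H, hE, hG, hEH⟩ := canc (A ++ B) (P ++ P ++ P) hAB hP3
  have sufG : G <:+ A ++ B := ⟨E, hE.symm⟩
  have sufB : B <:+ A ++ B := ⟨A, rfl⟩
  have preG : invRev G <+: P ++ P ++ P := ⟨H, hG.symm⟩
  have hGl : G.length + C.length ≤ 2 * P.length := by
    by_contra hcon
    rw [not_le] at hcon
    rcases le_or_gt G.length B.length with h | h
    · obtain ⟨B', hB'⟩ := List.suffix_of_suffix_length_le sufG sufB h
      obtain ⟨T, hT⟩ := List.prefix_of_prefix_length_le preP preG (by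
        rw [invRev_length]; omega)
      have hG' : G = invRev T ++ invRev P := by
        rw [← invRev_append, hT, invRev_invRev]
      have h1 : Z * mk P = mk (invRev C ++ B' ++ invRev T) := by
        rw [hZ', ← hB', hG']
        simp only [← mul_mk, ← inv_mk]
        group
      have h2 : (Z * mk P).norm ≤ C.length + B'.length + T.length := by
        rw [h1]
        refine norm_mk_le.trans ?_
        rw [List.length_append, List.length_append, invRev_length, invRev_length]
      have h3 := congrArg List.length hB'
      have h4 := congrArg List.length hG'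
      rw [List.length_append] at h3 h4
      rw [invRev_length, invRev_length] at h4
      omega
    · obtain ⟨G', hG'⟩ := List.suffix_of_suffix_length_le sufB sufG h.le
      have hEG : E ++ G' = A := by
        have h1 : E ++ G' ++ B = A ++ B := by rw [List.append_assoc, hG', ← hE]
        exact List.append_cancel_right h1
      have hGr : invRev G = invRev B ++ invRev G' := by rw [← invRev_append, hG']
      have preB : invRev B <+: P ++ P ++ P := ⟨invRev G' ++ H, by
        rw [← List.append_assoc, ← hGr, ← hG]⟩
      have hB : 2 * B.length ≤ P.length := by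
        by_contra hcon2
        rw [not_le] at hcon2
        rcases le_or_gt P.length B.length with h5 | h5
        · obtain ⟨T, hT⟩ := List.prefix_of_prefix_length_le preP preB (by
            rw [invRev_length]; omega)
          have hB' : B = invRev T ++ invRev P := by
            rw [← invRev_append, hT, invRev_invRev]
          have h1 : Z * mk P = mk (invRev C ++ invRev T) := by
            rw [hZ', hB']
            simp only [← mul_mk, ← inv_mk]
            group
          have h2 : (Z * mk P).norm ≤ C.length + T.length := by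
            rw [h1]
            refine norm_mk_le.trans ?_
            rw [List.length_append, invRev_length, invRev_length]
          have h4 := congrArg List.length hB'
          rw [List.length_append, invRev_length, invRev_length] at h4
          omega
        · obtain ⟨T, hT⟩ := List.prefix_of_prefix_length_le preB preP (by
            rw [invRev_length]; omega)
          have h1 : Z * mk P = mk (invRev C ++ T) := by
            rw [hZ', ← hT]
            simp only [← mul_mk, ← inv_mk]
            group
          have h2 : (Z * mk P).norm ≤ C.length + T.length := by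
            rw [h1]
            refine norm_mk_le.trans ?_
            rw [List.length_append, invRev_length]
          have h4 := congrArg List.length hT
          rw [List.length_append, invRev_length] at h4
          omega
      obtain ⟨B₂, hB₂⟩ := List.prefix_of_prefix_length_le preB preP (by
        rw [invRev_length]; omega)
      have hlG : G'.length + B.length = G.length := by
        rw [← List.length_append, hG']
      have suf1 : G' <:+ A := ⟨E, hEG⟩
      have suf2 : C ++ A' <:+ A := ⟨P ++ A', by
        rw [hAeq, List.append_assoc, ← List.append_assoc A', hA', ← List.append_assoc]⟩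
      obtain ⟨G₂, hG₂⟩ := List.suffix_of_suffix_length_le suf2 suf1 (by
        rw [List.length_append]; omega)
      have hlen : (B₂ ++ invRev B).length = (invRev (C ++ A')).length := by
        rw [invRev_length, List.length_append, List.length_append, invRev_length]
        have h4 := congrArg List.length hB₂
        rw [List.length_append, invRev_length] at h4
        omega
      have h6 : (B₂ ++ invRev B) ++ (B₂ ++ P) = invRev (C ++ A') ++ (invRev G₂ ++ H) := by
        have h7 : invRev B ++ ((B₂ ++ invRev B) ++ (B₂ ++ P)) =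
            invRev B ++ (invRev (C ++ A') ++ (invRev G₂ ++ H)) := by
          calc invRev B ++ ((B₂ ++ invRev B) ++ (B₂ ++ P))
              = (invRev B ++ B₂) ++ (invRev B ++ B₂) ++ P := by
                simp only [List.append_assoc]
            _ = P ++ P ++ P := by rw [hB₂]
            _ = invRev G ++ H := hG
            _ = invRev B ++ (invRev (C ++ A') ++ (invRev G₂ ++ H)) := by
                rw [hGr, ← hG₂, invRev_append (L₁ := G₂)]
                simp only [List.append_assoc]
        exact List.append_cancel_left h7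
      have h8 := (List.append_inj h6 hlen).1
      have h9 := congrArg epsL h8
      rw [epsL_invRev, epsL_append, epsL_append] at h9
      have h10 : epsL (invRev B) + epsL B₂ = epsL P := by rw [← epsL_append, hB₂]
      have h11 : epsL A' + epsL C = epsL P := by rw [← epsL_append, hA']
      apply heps
      omega
  have hlE : E.length + G.length = A.length + B.length := by
    rw [← List.length_append, ← List.length_append, hE]
  have hlA : A.length = 2 * P.length + A'.length := by
    rw [hAeq, List.length_append, List.length_append]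
    omega
  have hlH : G.length + H.length = 3 * P.length := by
    have h1 := congrArg List.length hG
    simp only [List.length_append, invRev_length] at h1
    omega
  obtain ⟨E', hE'⟩ := List.prefix_of_prefix_length_le (l₁ := P) (l₂ := E) (l₃ := A ++ B)
    ⟨P ++ A' ++ B, by rw [hAeq]; simp only [List.append_assoc]⟩ ⟨G, hE.symm⟩ (by omega)
  obtain ⟨H', hH'⟩ := List.suffix_of_suffix_length_le (l₁ := P) (l₂ := H) sufP
    ⟨invRev G, hG.symm⟩ (by omega)
  refine ⟨E' ++ H', ?_, ?_⟩
  · have h1 : P ++ (E' ++ H') ++ P = E ++ H := by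
      rw [← hE', ← hH']
      simp only [List.append_assoc]
    rw [h1]
    exact hEH
  · have h1 : mk P ^ 3 = mk (P ++ P ++ P) := by
      rw [pow_succ, pow_two, mul_mk, mul_mk]
    have h2 : mk P * mk (E' ++ H') * mk P = mk (E ++ H) := by
      rw [mul_mk, mul_mk, ← hE', ← hH']
      simp only [List.append_assoc]
    have h3 : mk P ^ 3 * Z = mk (A ++ B) := by
      rw [h1, hA, hZ']
      simp only [← mul_mk]
      group
    rw [h3, h2, hE, h1, hG]
    simp only [← mul_mk, ← inv_mk]
    group

end Dec

/-- number of negative letters -/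
def neg (L : List (α × Bool)) : ℕ := L.countP fun a => !a.2

theorem neg_append (L M : List (α × Bool)) : neg (L ++ M) = neg L + neg M :=
  List.countP_append

theorem neg_le_length (L : List (α × Bool)) : neg L ≤ L.length := List.countP_le_length

theorem neg_eq_zero {L : List (α × Bool)} : neg L = 0 ↔ PosL L := by
  unfold neg PosL
  rw [List.countP_eq_zero]
  simp

section Dec2

variable [DecidableEq α]

theorem neg_mul_le (g h : FreeGroup α) :
    neg (g * h).toWord ≤ neg g.toWord + neg h.toWord := by
  rw [← neg_append]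
  exact (toWord_mul_sublist g h).countP_le

theorem neg_pow_cyc {S : List (α × Bool)} (hS : IsCyclicallyReduced S) (n : ℕ) :
    neg (mk S ^ n).toWord = n * neg S := by
  have h1 : (mk S ^ n).toWord = (List.replicate n S).flatten := by
    rw [toWord_pow, toWord_mk, hS.isReduced.reduce_eq, (hS.flatten_replicate n).isReduced.reduce_eq]
  rw [h1]
  induction n with
  | zero => simp [neg]
  | succ n ih =>
    have h2 : (mk S ^ n).toWord = (List.replicate n S).flatten := by
      rw [toWord_pow, toWord_mk, hS.isReduced.reduce_eq,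
        (hS.flatten_replicate n).isReduced.reduce_eq]
    rw [List.replicate_succ, List.flatten_cons, neg_append, ih h2]
    ring

/-- a cyclically reduced word conjugate to a positive word is positive -/
theorem pos_of_conj {S : List (α × Bool)} (hS : IsCyclicallyReduced S) {W g : FreeGroup α}
    (hW : Pos W) (h : mk S = g * W * g⁻¹) : PosL S := by
  rw [← neg_eq_zero]
  by_contra hne
  have h1 : ∀ n : ℕ, n * neg S ≤ g.norm + g.norm := by
    intro n
    rw [← neg_pow_cyc hS n, h, conj_pow]
    have h2 : neg (W ^ n).toWord = 0 := neg_eq_zero.2 (hW.pow n)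
    calc neg (g * W ^ n * g⁻¹).toWord
        ≤ neg (g * W ^ n).toWord + neg (g⁻¹).toWord := neg_mul_le _ _
      _ ≤ neg g.toWord + neg (W ^ n).toWord + neg (g⁻¹).toWord :=
          Nat.add_le_add_right (neg_mul_le _ _) _
      _ ≤ g.norm + 0 + (g⁻¹).norm := by
          rw [h2]
          exact Nat.add_le_add (Nat.add_le_add_right (neg_le_length _) _) (neg_le_length _)
      _ = g.norm + g.norm := by rw [norm_inv_eq, add_zero]
  have h3 := h1 (g.norm + g.norm + 1)
  have h4 : 1 ≤ neg S := Nat.one_le_iff_ne_zero.2 hne
  nlinarith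

/-- **Main lemma.** -/
theorem main (p z W g : FreeGroup α) (hz : e z = 0) (hz1 : z ≠ 1)
    (hW : W = g * (p ^ 5 * z * p ^ 5 * z⁻¹) * g⁻¹) (hpos : Pos W) (hW1 : W ≠ 1) : False := by
  have heW : e W = 10 * e p := by
    rw [hW]
    simp only [e_mul, e_inv, e_pow]
    push_cast
    ring
  have hep : e p ≠ 0 := by
    intro h0
    rw [h0, mul_zero, ← hpos.norm_eq] at heW
    have h1 : W.norm = 0 := by exact_mod_cast heW
    exact hW1 (norm_eq_zero.1 h1)
  set P := reduceCyclically p.toWord with hPdef
  have hP : IsCyclicallyReduced P := reduceCyclically.isCyclicallyReduced isReduced_toWord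
  set q : FreeGroup α := mk (reduceCyclically.conjugator p.toWord) with hq
  have hpq : p = q * mk P * q⁻¹ := by
    have h1 := reduceCyclically.conj_conjugator_reduceCyclically p.toWord
    calc p = mk p.toWord := mk_toWord.symm
      _ = q * mk P * q⁻¹ := by
        rw [hq, hPdef, inv_mk, mul_mk, mul_mk, h1]
  have hePp : e (mk P) = e p := by
    rw [hpq]
    simp only [e_mul, e_inv]
    ring
  have heps : epsL P ≠ 0 := by rw [← e_mk, hePp]; exact hep
  have hne : P ≠ [] := by
    rintro h0
    rw [h0] at heps
    exact heps rfl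
  obtain ⟨z₀, hz₀⟩ : ∃ z₀, z₀ = q⁻¹ * z * q := ⟨_, rfl⟩
  have hz₀e : e z₀ = 0 := by
    rw [hz₀]
    simp only [e_mul, e_inv]
    omega
  -- minimal representative in the double coset
  let f : ℤ × ℤ → ℕ := fun ij => ((mk P) ^ ij.1 * z₀ * (mk P) ^ ij.2).norm
  obtain ⟨⟨i, j⟩, hij⟩ : ∃ ij, ∀ kl, f ij ≤ f kl := by
    obtain ⟨m, ⟨ij, rfl⟩, hm⟩ := WellFounded.has_min (wellFounded_lt (α := ℕ)) (Set.range f)
      ⟨_, (0, 0), rfl⟩
    exact ⟨ij, fun kl => not_lt.1 (hm _ ⟨kl, rfl⟩)⟩
  obtain ⟨Z, hZ⟩ : ∃ Z, Z = (mk P) ^ i * z₀ * (mk P) ^ j := ⟨_, rfl⟩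
  have hmin : ∀ k l : ℤ, Z.norm ≤ ((mk P) ^ k * z₀ * (mk P) ^ l).norm := by
    intro k l
    rw [hZ]
    exact hij (k, l)
  have m1 : Z.norm ≤ (mk P * Z).norm := by
    have h := hmin (1 + i) j
    rwa [zpow_add, zpow_one, mul_assoc (mk P), mul_assoc (mk P), ← hZ] at h
  have m2 : Z.norm ≤ (Z * mk P).norm := by
    have h := hmin i (j + 1)
    rwa [zpow_add, zpow_one, ← mul_assoc, ← hZ] at h
  have m3 : (Z⁻¹).norm ≤ (mk P * Z⁻¹).norm := by
    have h := hmin i (j + (-1))
    rw [zpow_add, zpow_neg_one, ← mul_assoc, ← hZ] at h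
    rw [norm_inv_eq, ← norm_inv_eq (x := mk P * Z⁻¹), mul_inv_rev, inv_inv]
    exact h
  have m4 : (Z⁻¹).norm ≤ (Z⁻¹ * mk P).norm := by
    have h := hmin (-1 + i) j
    rw [zpow_add, zpow_neg_one, mul_assoc (mk P)⁻¹, mul_assoc (mk P)⁻¹, ← hZ] at h
    rw [norm_inv_eq, ← norm_inv_eq (x := Z⁻¹ * mk P), mul_inv_rev, inv_inv]
    exact h
  obtain ⟨X, hX1, hX2⟩ := key P hP hne heps Z m1 m2
  obtain ⟨Y, hY1, hY2⟩ := key P hP hne heps Z⁻¹ m3 m4
  have hX : mk X = (mk P) ^ 2 * Z * (mk P) ^ 2 := by
    have h1 : mk X = (mk P)⁻¹ * (mk P * mk X * mk P) * (mk P)⁻¹ := by group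
    rw [h1, ← hX2]
    group
  have hY : mk Y = (mk P) ^ 2 * Z⁻¹ * (mk P) ^ 2 := by
    have h1 : mk Y = (mk P)⁻¹ * (mk P * mk Y * mk P) * (mk P)⁻¹ := by group
    rw [h1, ← hY2]
    group
  -- the cyclically reduced word
  have hbig : IsReduced (P ++ X ++ P ++ (Y ++ P)) := by
    refine IsReduced.append_overlap hX1 ?_ hne
    rw [← List.append_assoc]
    exact hY1
  have hS : IsCyclicallyReduced (P ++ X ++ P ++ Y) := by
    have h1 : IsReduced ((P ++ X ++ P ++ Y) ++ P) := by
      rw [List.append_assoc (P ++ X ++ P)]
      exact hbig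
    have h2 := h1
    unfold FreeGroup.IsReduced at h2
    rw [List.isChain_append] at h2
    refine ⟨h2.1, ?_⟩
    intro a ha b hb
    apply h2.2.2 a ha b
    obtain ⟨c, P', hcP⟩ := List.exists_cons_of_ne_nil hne
    rw [hcP] at hb ⊢
    simpa using hb
  have hSW : mk (P ++ X ++ P ++ Y) = ((mk P) ^ (-2 : ℤ) * (mk P) ^ i * q⁻¹ * g⁻¹) * W *
      ((mk P) ^ (-2 : ℤ) * (mk P) ^ i * q⁻¹ * g⁻¹)⁻¹ := by
    have h1 : mk (P ++ X ++ P ++ Y) = mk P * mk X * mk P * mk Y := by
      rw [mul_mk, mul_mk, mul_mk]
    rw [h1, hX, hY, hZ, hW, hz₀]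
    conv_rhs => rw [hpq]
    rw [conj_pow]
    group
  have hSpos := pos_of_conj hS hpos hSW
  have hPpos : PosL P := fun a ha => hSpos a (by simp [ha])
  have hXpos : PosL X := fun a ha => hSpos a (by simp [ha])
  have hYpos : PosL Y := fun a ha => hSpos a (by simp [ha])
  have pP : Pos (mk P) := pos_mk hPpos
  have pX : Pos (mk X) := pos_mk hXpos
  have pY : Pos (mk Y) := pos_mk hYpos
  -- the final contradiction
  obtain ⟨N, hN⟩ : ∃ N : ℕ, N = 2 + i.natAbs + j.natAbs := ⟨_, rfl⟩
  obtain ⟨a1, ha1⟩ : ∃ a : ℕ, (a : ℤ) = N - 2 - i := ⟨(N - 2 - i : ℤ).toNat, by omega⟩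
  obtain ⟨a2, ha2⟩ : ∃ a : ℕ, (a : ℤ) = N - 2 - j := ⟨(N - 2 - j : ℤ).toNat, by omega⟩
  obtain ⟨a3, ha3⟩ : ∃ a : ℕ, (a : ℤ) = N - 2 + j := ⟨(N - 2 + j : ℤ).toNat, by omega⟩
  obtain ⟨a4, ha4⟩ : ∃ a : ℕ, (a : ℤ) = N - 2 + i := ⟨(N - 2 + i : ℤ).toNat, by omega⟩
  have hu : (mk P) ^ N * z₀ * (mk P) ^ N = (mk P) ^ a1 * mk X * (mk P) ^ a2 := by
    rw [hX, hZ, ← zpow_natCast (mk P) N, ← zpow_natCast (mk P) a1, ← zpow_natCast (mk P) a2,
      ha1, ha2]
    group
  have hv : (mk P) ^ N * z₀⁻¹ * (mk P) ^ N = (mk P) ^ a3 * mk Y * (mk P) ^ a4 := by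
    rw [hY, hZ, ← zpow_natCast (mk P) N, ← zpow_natCast (mk P) a3, ← zpow_natCast (mk P) a4,
      ha3, ha4]
    group
  have pu : Pos ((mk P) ^ N * z₀ * (mk P) ^ N) := by
    rw [hu]
    exact ((pP.pow _).mul pX).mul (pP.pow _)
  have pv : Pos ((mk P) ^ N * z₀⁻¹ * (mk P) ^ N) := by
    rw [hv]
    exact ((pP.pow _).mul pY).mul (pP.pow _)
  have pq : Pos ((mk P) ^ (N + N)) := pP.pow _
  have eu : e ((mk P) ^ N * z₀ * (mk P) ^ N) = e ((mk P) ^ (N + N)) := by
    simp only [e_mul, e_pow, hz₀e]
    push_cast
    ring
  have ev : e ((mk P) ^ N * z₀⁻¹ * (mk P) ^ N) = e ((mk P) ^ (N + N)) := by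
    simp only [e_mul, e_pow, e_inv, hz₀e]
    push_cast
    ring
  have hfin := uniq (u := (mk P) ^ N * z₀ * (mk P) ^ N) (v := (mk P) ^ N * z₀⁻¹ * (mk P) ^ N)
    (q := (mk P) ^ (N + N))
    (by have := pu.norm_eq; have := pq.norm_eq; omega)
    (by have := pv.norm_eq; have := pq.norm_eq; omega)
    (by rw [pow_add]; group)
  rw [pow_add] at hfin
  have hz₀1 : z₀ = 1 := by
    have h1 := mul_right_cancel hfin
    exact mul_eq_left.1 h1
  apply hz1
  rw [hz₀] at hz₀1
  have h2 : z = q * (q⁻¹ * z * q) * q⁻¹ := by group
  rw [h2, hz₀1]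
  group

end Dec2

end Q28.PW
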