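import Mathlib
import Pool.Agent.Helper307.PP.Pattern

/-!
A cyclically reduced word containing all patterns is not the image of a partially positive word
under an automorphism. The argument is the one of the module `Pool.Agent.Helper307.PP.Pattern` of
the starting files, for the length which counts the occurrences of one letter only.
-/

namespace Q28.TP

open FreeGroup H307PP

variable {Y : Type} [DecidableEq Y]

/-! ### counting one letter -/

/-- number of letters `a`, `a⁻¹` -/
def na (a : Y) (g : FreeGroup Y) : ℕ := g.toWord.countP fun l => decide (l.1 = a)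

theorem na_mul_le (a : Y) (g h : FreeGroup Y) : na a (g * h) ≤ na a g + na a h := by
  unfold na
  rw [← List.countP_append]
  exact (toWord_mul_sublist g h).countP_le

theorem countP_invRev (a : Y) (L : List (Y × Bool)) :
    (invRev L).countP (fun l => decide (l.1 = a)) = L.countP fun l => decide (l.1 = a) := by
  unfold invRev
  rw [List.countP_reverse, List.countP_map]
  rfl

theorem na_inv (a : Y) (g : FreeGroup Y) : na a g⁻¹ = na a g := by
  unfold na
  rw [toWord_inv, countP_invRev]

theorem na_mk_le (a : Y) (L : List (Y × Bool)) :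
    na a (mk L) ≤ L.countP fun l => decide (l.1 = a) := by
  unfold na
  rw [toWord_mk]
  have h : (reduce L).Sublist L := (reduce.red (L := L)).sublist
  exact h.countP_le

theorem na_pow_cyc (a : Y) {u : FreeGroup Y} (h : IsCyclicallyReduced u.toWord) (m : ℕ) :
    na a (u ^ m) = m * na a u := by
  have h1 : (u ^ m).toWord = (List.replicate m u.toWord).flatten := by
    rw [toWord_pow, (h.flatten_replicate m).isReduced.reduce_eq]
  unfold na
  rw [h1]
  induction m with
  | zero => simp
  | succ m ih =>
    rw [List.replicate_succ, List.flatten_cons, List.countP_append, ih (by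
      rw [toWord_pow, (h.flatten_replicate m).isReduced.reduce_eq])]
    ring

/-- exponent sum of the letter `a` -/
def zh (a : Y) : FreeGroup Y →* Multiplicative ℤ :=
  FreeGroup.lift fun y => if y = a then Multiplicative.ofAdd 1 else 1

/-- exponent sum of the letter `a` -/
def za (a : Y) (g : FreeGroup Y) : ℤ := Multiplicative.toAdd (zh a g)

theorem za_mul (a : Y) (g h : FreeGroup Y) : za a (g * h) = za a g + za a h := by
  unfold za; rw [_root_.map_mul]; rfl

theorem za_inv (a : Y) (g : FreeGroup Y) : za a g⁻¹ = -za a g := by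
  unfold za; rw [_root_.map_inv]; rfl

theorem za_one (a : Y) : za a 1 = 0 := by
  unfold za; rw [_root_.map_one]; rfl

theorem za_single (a : Y) (l : Y × Bool) :
    za a (mk [l]) = if l.1 = a then (if l.2 = true then 1 else -1) else 0 := by
  rcases l with ⟨y, b⟩
  unfold za zh
  rw [lift_mk]
  by_cases h : y = a
  · cases b <;> simp [h]
  · cases b <;> simp [h]

theorem za_le_mk (a : Y) (L : List (Y × Bool)) :
    za a (mk L) ≤ L.countP fun l => decide (l.1 = a) := by
  induction L with
  | nil => rw [← one_eq_mk, za_one]; simp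
  | cons l L ih =>
    rw [mk_cons', za_mul, za_single, List.countP_cons]
    by_cases h : l.1 = a
    · rw [if_pos h, decide_eq_true h]
      cases l.2 <;> simp <;> omega
    · rw [if_neg h, decide_eq_false h]
      simp
      omega

theorem za_le (a : Y) (g : FreeGroup Y) : za a g ≤ na a g := by
  conv_lhs => rw [← mk_toWord (x := g)]
  exact za_le_mk a _

theorem za_eq_mk (a : Y) (L : List (Y × Bool)) (h : (a, false) ∉ L) :
    za a (mk L) = L.countP fun l => decide (l.1 = a) := by
  induction L with
  | nil => rw [← one_eq_mk, za_one]; simp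
  | cons l L ih =>
    rw [mk_cons', za_mul, za_single, List.countP_cons, ih fun h' => h (List.mem_cons_of_mem _ h')]
    by_cases h1 : l.1 = a
    · have h2 : l.2 = true := by
        by_contra h3
        apply h
        have : l = (a, false) := by
          ext
          · exact h1
          · simpa using h3
        rw [this]
        exact List.mem_cons_self
      rw [if_pos h1, if_pos h2, decide_eq_true h1]
      simp
      ring
    · rw [if_neg h1, decide_eq_false h1]
      simp

theorem za_eq (a : Y) {g : FreeGroup Y} (h : (a, false) ∉ g.toWord) : za a g = na a g := by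
  conv_lhs => rw [← mk_toWord (x := g)]
  exact za_eq_mk a _ h

/-! ### the substitution `a ↦ a ^ (N + 1)` -/

/-- the substitution -/
def sig (a : Y) (N : ℕ) : FreeGroup Y →* FreeGroup Y :=
  FreeGroup.lift fun y => if y = a then of a ^ (N + 1) else of y

/-- the block of a letter -/
def bl (a : Y) (N : ℕ) (l : Y × Bool) : List (Y × Bool) :=
  if l.1 = a then List.replicate (N + 1) l else [l]

omit [DecidableEq Y] in
theorem mk_replicate (l : Y × Bool) (n : ℕ) :
    (mk (List.replicate n l) : FreeGroup Y) = mk [l] ^ n := by
  induction n with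
  | zero => rfl
  | succ n ih =>
    rw [List.replicate_succ, mk_cons', ih, pow_succ']

theorem sig_single (a : Y) (N : ℕ) (l : Y × Bool) : sig a N (mk [l]) = mk (bl a N l) := by
  rcases l with ⟨y, b⟩
  unfold sig bl
  rw [lift_mk]
  by_cases h : y = a
  · subst h
    simp only [if_true]
    rw [mk_replicate]
    cases b
    · have : (mk [(y, false)] : FreeGroup Y) = (of y)⁻¹ := by rw [of, inv_mk]; rfl
      rw [this]
      simp
    · simp [of]
  · simp only [if_neg h]
    cases b
    · have : (mk [(y, false)] : FreeGroup Y) = (of y)⁻¹ := by rw [of, inv_mk]; rfl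
      rw [this]
      simp [h]
    · simp [of, h]

theorem sig_mk (a : Y) (N : ℕ) (L : List (Y × Bool)) :
    sig a N (mk L) = mk (L.flatMap (bl a N)) := by
  induction L with
  | nil => rw [← one_eq_mk, _root_.map_one]; rfl
  | cons l L ih =>
    rw [mk_cons', _root_.map_mul, ih, sig_single, List.flatMap_cons, mul_mk]

theorem bl_ne (a : Y) (N : ℕ) (l : Y × Bool) : bl a N l ≠ [] := by
  unfold bl
  split_ifs <;> simp

theorem bl_all (a : Y) (N : ℕ) (l x : Y × Bool) (hx : x ∈ bl a N l) : x = l := by
  unfold bl at hx
  split_ifs at hx with h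
  · exact List.eq_of_mem_replicate hx
  · simpa using hx

theorem bl_reduced (a : Y) (N : ℕ) (l : Y × Bool) : FreeGroup.IsReduced (bl a N l) := by
  unfold bl
  split_ifs with h
  · exact List.isChain_replicate_of_rel _ fun _ => rfl
  · exact IsReduced.singleton

theorem flat_reduced (a : Y) (N : ℕ) (L : List (Y × Bool)) (hL : FreeGroup.IsReduced L) :
    FreeGroup.IsReduced (L.flatMap (bl a N)) := by
  induction L with
  | nil => exact IsReduced.nil
  | cons l L ih =>
    rw [List.flatMap_cons, FreeGroup.IsReduced, List.isChain_append]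
    refine ⟨bl_reduced a N l, ih (redsub hL ⟨[l], [], by simp⟩), ?_⟩
    intro x hx y hy
    have hxl := bl_all a N l x (List.mem_of_mem_getLast? hx)
    subst hxl
    cases L with
    | nil => simp at hy
    | cons l' L =>
      rw [List.flatMap_cons, List.head?_append_of_ne_nil _ (bl_ne a N l')] at hy
      have hyl := bl_all a N l' y (List.mem_of_mem_head? hy)
      subst hyl
      exact (isReduced_cons_cons.1 hL).1

theorem flat_length (a : Y) (N : ℕ) (L : List (Y × Bool)) :
    (L.flatMap (bl a N)).length = L.length + N * L.countP fun l => decide (l.1 = a) := by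
  induction L with
  | nil => simp
  | cons l L ih =>
    rw [List.flatMap_cons, List.length_append, ih, List.countP_cons, List.length_cons]
    unfold bl
    by_cases h : l.1 = a
    · simp [h]; ring
    · simp [h]; ring

theorem norm_sig (a : Y) (N : ℕ) (g : FreeGroup Y) :
    (sig a N g).norm = g.norm + N * na a g := by
  have h1 : sig a N g = mk (g.toWord.flatMap (bl a N)) := by
    rw [← sig_mk, mk_toWord]
  rw [FreeGroup.norm, h1, toWord_mk, (flat_reduced a N _ isReduced_toWord).reduce_eq, flat_length]
  rfl

theorem sig_injective (a : Y) (N : ℕ) : Function.Injective (sig a N) := by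
  rw [injective_iff_map_eq_one]
  intro g hg
  have h := norm_sig a N g
  rw [hg, FreeGroup.norm_one] at h
  exact norm_eq_zero.1 (by omega)

/-! ### bounded cancellation for one letter -/

section

variable {X : Type} [DecidableEq X] [Fintype X] [Inhabited Y]

/-- total number of letters `a` -/
def Atot (a : Y) (φ : FreeGroup X →* FreeGroup Y) : ℕ := ∑ x, na a (φ (of x))

theorem bca (a : Y) (φ : FreeGroup X →* FreeGroup Y) (hφ : Function.Injective φ)
    (w1 w2 : List (X × Bool)) (h : FreeGroup.IsReduced (w1 ++ w2)) :
    na a (φ (mk w1)) + na a (φ (mk w2)) ≤ na a (φ (mk (w1 ++ w2))) + 2 * Atot a φ := by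
  by_contra hcon
  rw [not_le] at hcon
  set N := (φ (mk (w1 ++ w2))).norm + 2 * Etot φ + 1 with hN
  have h1 := bc2 ((sig a N).comp φ) ((sig_injective a N).comp hφ) w1 w2 h
  have h2 : Etot ((sig a N).comp φ) = Etot φ + N * Atot a φ := by
    unfold Etot Atot
    rw [Finset.mul_sum, ← Finset.sum_add_distrib]
    refine Finset.sum_congr rfl fun x _ => ?_
    exact norm_sig a N _
  rw [h2] at h1
  simp only [MonoidHom.comp_apply, norm_sig] at h1
  have h3 : N * (na a (φ (mk (w1 ++ w2))) + 2 * Atot a φ + 1) ≤
      N * (na a (φ (mk w1)) + na a (φ (mk w2))) := Nat.mul_le_mul_left N hcon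
  have e1 : N * (na a (φ (mk (w1 ++ w2))) + 2 * Atot a φ + 1) =
      N * na a (φ (mk (w1 ++ w2))) + 2 * (N * Atot a φ) + N := by ring
  have e2 : N * (na a (φ (mk w1)) + na a (φ (mk w2))) =
      N * na a (φ (mk w1)) + N * na a (φ (mk w2)) := by ring
  rw [e1, e2] at h3
  omega

theorem fiveA (a : Y) (φ : FreeGroup X →* FreeGroup Y) (hφ : Function.Injective φ)
    (α v z β : List (X × Bool)) (h : FreeGroup.IsReduced (α ++ ((v ++ (z ++ invRev v)) ++ β))) :
    na a (φ (mk α)) + 2 * na a (φ (mk v)) + na a (φ (mk z)) + na a (φ (mk β)) ≤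
      na a (φ (mk (α ++ ((v ++ (z ++ invRev v)) ++ β)))) + 8 * Atot a φ := by
  have h1 := bca a φ hφ _ _ h
  have r1 : FreeGroup.IsReduced ((v ++ (z ++ invRev v)) ++ β) := redsub h ⟨α, [], by simp⟩
  have h2 := bca a φ hφ _ _ r1
  have r2 : FreeGroup.IsReduced (v ++ (z ++ invRev v)) := redsub r1 ⟨[], β, by simp⟩
  have h3 := bca a φ hφ _ _ r2
  have r3 : FreeGroup.IsReduced (z ++ invRev v) := redsub r2 ⟨v, [], by simp⟩
  have h4 := bca a φ hφ _ _ r3
  have h5 : na a (φ (mk (invRev v))) = na a (φ (mk v)) := by
    rw [← inv_mk, _root_.map_inv, na_inv]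
  omega

theorem powersA (a : Y) (φ : FreeGroup X →* FreeGroup Y) (hφ : Function.Injective φ)
    (w : List (X × Bool)) (hw : IsCyclicallyReduced w) (k : ℕ) :
    k * na a (φ (mk w)) ≤ na a (φ (mk w) ^ k) + 2 * k * Atot a φ := by
  induction k with
  | zero => simp
  | succ k ih =>
    have hr := (hw.flatten_replicate (k + 1)).isReduced
    rw [List.replicate_succ, List.flatten_cons] at hr
    have h1 := bca a φ hφ _ _ hr
    have e1 : (mk ((List.replicate k w).flatten) : FreeGroup X) = mk w ^ k := by rw [pow_mk]
    rw [← mul_mk, e1, _root_.map_mul, _root_.map_pow] at h1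
    rw [pow_succ']
    have e2 : (k + 1) * na a (φ (mk w)) = k * na a (φ (mk w)) + na a (φ (mk w)) := by ring
    have e3 : 2 * (k + 1) * Atot a φ = 2 * k * Atot a φ + 2 * Atot a φ := by ring
    omega

/-- the main non-positivity argument for one word -/
theorem no_bigA (a : Y) (ψ : FreeGroup X →* FreeGroup Y) (hψ : Function.Injective ψ)
    (c : FreeGroup Y) (φ : FreeGroup X →* FreeGroup Y) (hφc : ∀ g, φ g = c⁻¹ * ψ g * c)
    (α v z β : List (X × Bool)) (hw : IsCyclicallyReduced (α ++ ((v ++ (z ++ invRev v)) ++ β)))
    (hpos : (a, false) ∉ (ψ (mk (α ++ ((v ++ (z ++ invRev v)) ++ β)))).toWord) :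
    na a (φ (mk v)) ≤ 5 * Atot a φ := by
  set w := α ++ ((v ++ (z ++ invRev v)) ++ β) with hwdef
  have hφ : Function.Injective φ := by
    intro a b hab
    rw [hφc, hφc] at hab
    exact hψ (mul_left_cancel (mul_right_cancel hab))
  have h5 := fiveA a φ hφ α v z β hw.isReduced
  rw [← hwdef] at h5
  by_contra hlt
  push Not at hlt
  set k := na a c + 1 with hk
  have hp := powersA a φ hφ w hw k
  -- upper bound for powers
  have hup : na a (φ (mk w) ^ k) ≤ 2 * na a c + k * na a (ψ (mk w)) := by
    have e1 : φ (mk w) ^ k = c⁻¹ * ψ (mk w) ^ k * c := by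
      rw [hφc]
      have : ∀ n : ℕ, (c⁻¹ * ψ (mk w) * c) ^ n = c⁻¹ * ψ (mk w) ^ n * c := by
        intro n
        induction n with
        | zero => simp
        | succ n ih => rw [pow_succ, ih, pow_succ]; group
      exact this k
    rw [e1]
    have e2 : ∀ n : ℕ, na a (ψ (mk w) ^ n) ≤ n * na a (ψ (mk w)) := by
      intro n
      induction n with
      | zero =>
        rw [pow_zero, zero_mul]
        simp [na]
      | succ n ih =>
        rw [pow_succ]
        refine (na_mul_le _ _ _).trans ?_
        have : (n + 1) * na a (ψ (mk w)) = n * na a (ψ (mk w)) + na a (ψ (mk w)) := by ring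
        omega
    have e3 := na_mul_le a (c⁻¹ * ψ (mk w) ^ k) c
    have e4 := na_mul_le a (c⁻¹) (ψ (mk w) ^ k)
    rw [na_inv] at e4
    have e5 := e2 k
    omega
  -- count of positive
  have hH : (na a (ψ (mk w)) : ℤ) ≤ na a (φ (mk α)) + na a (φ (mk z)) + na a (φ (mk β)) := by
    rw [← za_eq a hpos]
    have e1 : za a (ψ (mk w)) = za a (φ (mk w)) := by
      rw [hφc, za_mul, za_mul, za_inv]; ring
    rw [e1, hwdef, ← mul_mk, ← mul_mk, ← mul_mk, ← mul_mk, ← inv_mk, _root_.map_mul,
      _root_.map_mul, _root_.map_mul, _root_.map_mul, _root_.map_inv, za_mul, za_mul, za_mul,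
      za_mul, za_inv]
    have a1 := za_le a (φ (mk α))
    have a2 := za_le a (φ (mk z))
    have a3 := za_le a (φ (mk β))
    linarith
  have hH' : na a (ψ (mk w)) ≤ na a (φ (mk α)) + na a (φ (mk z)) + na a (φ (mk β)) := by
    exact_mod_cast hH
  -- combine
  have h6 : k * (na a (φ (mk α)) + 2 * na a (φ (mk v)) + na a (φ (mk z)) + na a (φ (mk β)))
      ≤ k * (na a (φ (mk w)) + 8 * Atot a φ) := Nat.mul_le_mul_left k h5
  have h7 : k * na a (ψ (mk w)) ≤
      k * (na a (φ (mk α)) + na a (φ (mk z)) + na a (φ (mk β))) :=
    Nat.mul_le_mul_left k hH'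
  have h8 : k * (5 * Atot a φ + 1) ≤ k * na a (φ (mk v)) :=
    Nat.mul_le_mul_left k hlt
  have e1 : k * (na a (φ (mk α)) + 2 * na a (φ (mk v)) + na a (φ (mk z)) + na a (φ (mk β)))
      = k * (na a (φ (mk α)) + na a (φ (mk z)) + na a (φ (mk β))) +
        2 * (k * na a (φ (mk v))) := by ring
  have e2 : k * (na a (φ (mk w)) + 8 * Atot a φ) =
      k * na a (φ (mk w)) + 8 * (k * Atot a φ) := by ring
  have e3 : 2 * k * Atot a φ = 2 * (k * Atot a φ) := by ring
  have e4 : k * (5 * Atot a φ + 1) = 5 * (k * Atot a φ) + k := by ring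
  rw [e1, e2] at h6
  rw [e3] at hp
  rw [e4] at h8
  omega

/-! ### a good pair starting with any given generator -/

theorem good_any (φ : FreeGroup X →* FreeGroup Y) (hφ : Function.Injective φ)
    (hmin : ∀ d : Y × Bool, Etot φ ≤ ∑ x, ((mk [d])⁻¹ * φ (of x) * mk [d]).norm) (i : X) :
    IsCyclicallyReduced (φ (of i)).toWord ∨
    (∃ j, i ≠ j ∧ IsCyclicallyReduced ((φ (of i)).toWord ++ (φ (of j)).toWord)) := by
  by_cases hc : IsCyclicallyReduced (φ (of i)).toWord
  · exact Or.inl hc
  · right
    have hri : FreeGroup.IsReduced (φ (of i)).toWord := isReduced_toWord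
    rw [isCyclicallyReduced_iff] at hc
    push Not at hc
    obtain ⟨a, ha, d, hd, h1, h2⟩ := hc hri
    -- word of i
    rcases List.eq_nil_or_concat (φ (of i)).toWord with h0 | ⟨R0, a', hR0⟩
    · exact absurd h0 (word_ne_nil φ hφ i)
    · rw [List.concat_eq_append] at hR0
      have haa : a' = a := by
        rw [hR0] at ha
        simpa using ha
      subst haa
      cases hR1 : R0 with
      | nil =>
        rw [hR0, hR1] at hd
        simp only [List.nil_append, List.head?_cons, Option.mem_def, Option.some.injEq] at hd
        rw [hd] at h2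
        exact absurd rfl h2
      | cons d' mid =>
        have hdd : d' = d := by
          rw [hR0, hR1] at hd
          simpa using hd
        subst hdd
        have ha2 : a' = (d'.1, !d'.2) := by
          ext
          · exact h1
          · revert h2; cases a'.2 <;> cases d'.2 <;> simp
        have hinv : (mk [a'] : FreeGroup Y) = (mk [d'])⁻¹ := by
          rw [ha2, inv_mk]; rfl
        have hwi : φ (of i) = mk [d'] * mk mid * (mk [d'])⁻¹ := by
          rw [← hinv, mul_mk, mul_mk, ← mk_toWord (x := φ (of i)), hR0, hR1]
          rfl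
        have hni : ((mk [d'])⁻¹ * φ (of i) * mk [d']).norm < (φ (of i)).norm := by
          have e1 : (mk [d'])⁻¹ * φ (of i) * mk [d'] = mk mid := by rw [hwi]; group
          rw [e1]
          have e2 : (φ (of i)).norm = mid.length + 2 := by
            rw [FreeGroup.norm, hR0, hR1]; simp
          have e3 : (mk mid : FreeGroup Y).norm ≤ mid.length := norm_mk_le
          omega
        have hex : ∃ j, (φ (of j)).norm < ((mk [d'])⁻¹ * φ (of j) * mk [d']).norm := by
          by_contra hno
          push Not at hno
          have := Finset.sum_lt_sum (s := Finset.univ) (fun x _ => hno x) ⟨i, Finset.mem_univ _, hni⟩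
          have h5 := hmin d'
          unfold Etot at h5
          omega
        obtain ⟨j, hj⟩ := hex
        have hij : i ≠ j := by
          rintro rfl; omega
        refine ⟨j, hij, ?_⟩
        have hrj : FreeGroup.IsReduced (φ (of j)).toWord := isReduced_toWord
        have hfirst : ∀ f ∈ (φ (of j)).toWord.head?, f ≠ d' := by
          intro f hf hfd
          cases hw : (φ (of j)).toWord with
          | nil => rw [hw] at hf; simp at hf
          | cons g rest =>
            rw [hw] at hf
            have hg : g = f := by simpa using hf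
            subst hg
            subst hfd
            have e1 : φ (of j) = mk [g] * mk rest := by
              rw [mul_mk, ← mk_toWord (x := φ (of j)), hw]; rfl
            have e2 : (mk [g])⁻¹ * φ (of j) * mk [g] = mk rest * mk [g] := by rw [e1]; group
            have e3 : (φ (of j)).norm = rest.length + 1 := by rw [FreeGroup.norm, hw]; simp
            have e4 : (mk rest * mk [g] : FreeGroup Y).norm ≤ rest.length + 1 := by
              rw [mul_mk]
              refine norm_mk_le.trans ?_
              simp
            rw [e2] at hj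
            omega
        have hlast : ∀ l ∈ (φ (of j)).toWord.getLast?, l ≠ (d'.1, !d'.2) := by
          intro l hl hld
          rcases List.eq_nil_or_concat (φ (of j)).toWord with h0 | ⟨R2, l', hR2⟩
          · exact word_ne_nil φ hφ j h0
          · rw [List.concat_eq_append] at hR2
            rw [hR2] at hl
            have hll : l' = l := by simpa using hl
            subst hll
            have hinv2 : (mk [l'] : FreeGroup Y) = (mk [d'])⁻¹ := by
              rw [hld, inv_mk]; rfl
            have e1 : φ (of j) = mk R2 * (mk [d'])⁻¹ := by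
              rw [← hinv2, mul_mk, ← mk_toWord (x := φ (of j)), hR2]
            have e2 : (mk [d'])⁻¹ * φ (of j) * mk [d'] = (mk [d'])⁻¹ * mk R2 := by rw [e1]; group
            have e3 : (φ (of j)).norm = R2.length + 1 := by rw [FreeGroup.norm, hR2]; simp
            have e4 : ((mk [d'])⁻¹ * mk R2 : FreeGroup Y).norm ≤ R2.length + 1 := by
              refine (FreeGroup.norm_mul_le _ _).trans ?_
              rw [norm_inv_eq]
              have e5 : (mk [d'] : FreeGroup Y).norm ≤ 1 := norm_mk_le.trans (by simp)
              have e6 : (mk R2 : FreeGroup Y).norm ≤ R2.length := norm_mk_le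
              omega
            rw [e2] at hj
            omega
        rw [isCyclicallyReduced_iff]
        constructor
        · rw [FreeGroup.IsReduced, List.isChain_append]
          refine ⟨hri, hrj, ?_⟩
          intro x hx y hy hxy
          have hxa : x = a' := by
            rw [hR0] at hx; simpa using hx.symm
          subst hxa
          by_contra hne
          apply hfirst y hy
          ext
          · rw [← hxy, h1]
          · revert hne h2; cases x.2 <;> cases y.2 <;> cases d'.2 <;> simp
        · intro l hl f hf hlf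
          have hf2 : f = d' := by
            rw [hR0, hR1] at hf; simpa using hf.symm
          subst hf2
          have hl2 : l ∈ (φ (of j)).toWord.getLast? := by
            rw [List.getLast?_append_of_ne_nil _ (word_ne_nil φ hφ j)] at hl
            exact hl
          by_contra hne
          apply hlast l hl2
          ext
          · exact hlf
          · revert hne; cases l.2 <;> cases f.2 <;> simp

/-- A cyclically reduced word containing all patterns is not mapped by any monomorphism to a
reduced word in which some letter `a` occurs and `a⁻¹` does not occur. -/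
theorem no_patternA [Nontrivial X] (a : Y) (ψ : FreeGroup X →* FreeGroup Y)
    (hψ : Function.Injective ψ) (w : List (X × Bool)) (hw : IsCyclicallyReduced w)
    (hocc : (a, true) ∈ (ψ (mk w)).toWord) (hpos : (a, false) ∉ (ψ (mk w)).toWord)
    (hno : ∀ i j : X, i ≠ j →
      P1 (Fintype.card X) i j <:+: w ∧ P2 (Fintype.card X) i j <:+: w) : False := by
  -- choose the best conjugate
  let f : FreeGroup Y → ℕ := fun c => ∑ x, (c⁻¹ * ψ (of x) * c).norm
  obtain ⟨c, hc⟩ : ∃ c, ∀ c', f c ≤ f c' := by
    have hne : (Set.range f).Nonempty := ⟨f 1, 1, rfl⟩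
    obtain ⟨c, hc⟩ := Nat.sInf_mem hne
    exact ⟨c, fun c' => by rw [hc]; exact Nat.sInf_le ⟨c', rfl⟩⟩
  let φ : FreeGroup X →* FreeGroup Y := (MulAut.conj c⁻¹).toMonoidHom.comp ψ
  have hφc : ∀ g, φ g = c⁻¹ * ψ g * c := by
    intro g
    simp [φ, MulAut.conj_apply]
  have hφ : Function.Injective φ := by
    intro a b hab
    rw [hφc, hφc] at hab
    exact hψ (mul_left_cancel (mul_right_cancel hab))
  have hE : Etot φ = f c := by
    unfold Etot; simp only [hφc, f]
  have hmin : ∀ d : Y × Bool, Etot φ ≤ ∑ x, ((mk [d])⁻¹ * φ (of x) * mk [d]).norm := by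
    intro d
    rw [hE]
    refine (hc (c * mk [d])).trans (le_of_eq ?_)
    simp only [f]
    refine Finset.sum_congr rfl fun x _ => ?_
    congr 1
    rw [hφc]; group
  obtain ⟨i, _, hi⟩ := Finset.exists_max_image (Finset.univ : Finset X)
    (fun x => na a (φ (of x))) Finset.univ_nonempty
  have hAi : Atot a φ ≤ Fintype.card X * na a (φ (of i)) := by
    unfold Atot
    calc ∑ x, na a (φ (of x)) ≤ ∑ _x : X, na a (φ (of i)) :=
          Finset.sum_le_sum fun x hx => hi x hx
      _ = Fintype.card X * na a (φ (of i)) := by simp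
  -- some generator involves `a`
  have hApos : 0 < Atot a φ := by
    rw [Nat.pos_iff_ne_zero]
    intro h0
    have h1 : ∀ x, na a (φ (of x)) = 0 := by
      intro x
      unfold Atot at h0
      exact (Finset.sum_eq_zero_iff.1 h0) x (Finset.mem_univ x)
    have h2 : ∀ x, na a (φ (of x)⁻¹) = 0 := by
      intro x
      rw [_root_.map_inv, na_inv, h1]
    have h3 : ∀ g, na a (φ g) = 0 := by
      intro g
      induction g using FreeGroup.induction_on with
      | C1 => rw [_root_.map_one]; simp [na]
      | of x => exact h1 x
      | inv_of x _ => exact h2 x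
      | mul x y hx hy =>
        rw [_root_.map_mul]
        have := na_mul_le a (φ x) (φ y)
        omega
    have h4 : za a (ψ (mk w)) = za a (φ (mk w)) := by
      rw [hφc, za_mul, za_mul, za_inv]; ring
    have h5 := za_le a (φ (mk w))
    rw [h3] at h5
    rw [za_eq a hpos] at h4
    have h6 : 0 < na a (ψ (mk w)) := by
      unfold na
      rw [List.countP_pos_iff]
      exact ⟨_, hocc, by simp⟩
    push_cast at h5
    omega
  have hnapos : 0 < na a (φ (of i)) := by
    rw [Nat.pos_iff_ne_zero]
    intro h0
    rw [h0, mul_zero] at hAi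
    omega
  rcases good_any φ hφ hmin i with hcyc | ⟨j, hij, hcyc⟩
  · obtain ⟨j, hj⟩ := exists_ne i
    obtain ⟨α, β, hαβ⟩ := (hno i j hj.symm).1
    have hw' : w = α ++ ((v1 (Fintype.card X) i ++
        ([(j, true)] ++ invRev (v1 (Fintype.card X) i))) ++ β) := by
      rw [← hαβ]; simp [P1]
    rw [hw'] at hw hpos
    have h1 := no_bigA a ψ hψ c φ hφc _ _ _ _ hw hpos
    have e1 : (mk (v1 (Fintype.card X) i) : FreeGroup X) =
        of i ^ (2 * (5 * Fintype.card X + 1)) := by
      unfold v1
      rw [← toWord_of_pow, mk_toWord]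
    rw [e1, _root_.map_pow, na_pow_cyc a hcyc] at h1
    nlinarith
  · obtain ⟨α, β, hαβ⟩ := (hno i j hij).2
    have hw' : w = α ++ ((v2 (Fintype.card X) i j ++
        ([(i, true)] ++ invRev (v2 (Fintype.card X) i j))) ++ β) := by
      rw [← hαβ]; simp [P2]
    rw [hw'] at hw hpos
    have h1 := no_bigA a ψ hψ c φ hφc _ _ _ _ hw hpos
    have e1 : (mk (v2 (Fintype.card X) i j) : FreeGroup X) =
        (of i * of j) ^ (5 * Fintype.card X + 1) := by
      unfold v2
      rw [← pow_mk]
      congr 1
    have e2 : (φ (of i * of j)).toWord = (φ (of i)).toWord ++ (φ (of j)).toWord := by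
      rw [_root_.map_mul, toWord_mul, hcyc.isReduced.reduce_eq]
    have e3 : na a (φ (of i * of j)) = na a (φ (of i)) + na a (φ (of j)) := by
      unfold na
      rw [e2, List.countP_append]
    rw [e1, _root_.map_pow, na_pow_cyc a (by rw [e2]; exact hcyc), e3] at h1
    have h4 : 0 ≤ (5 * Fintype.card X + 1) * na a (φ (of j)) := Nat.zero_le _
    nlinarith

end

end Q28.TP
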