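import Mathlib

/-!
Groups of derived length `d` with an element `a` of order dividing `6` in the last but one derived
subgroup acting as multiplication by `5` on an element `c` of order `7` of the last derived
subgroup, and the equation `x x^{-a} x^{a^2} = c` over them.
-/

namespace Q28.UniEq

open Subgroup
open scoped commutatorElement

/-- the key step -/
theorem no_solution {H : Type*} [Group H] (m : ℕ) (hH : derivedSeries H (m + 2) = ⊥) (a c x : H)
    (ha : a ∈ derivedSeries H m) (hc : c ∈ derivedSeries H (m + 1)) (ha6 : a ^ 6 = 1)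
    (hc7 : c ^ 7 = 1) (hca : a⁻¹ * c * a = c ^ 5)
    (heq : x * (a⁻¹ * x⁻¹ * a) * (a⁻¹ * a⁻¹ * x * a * a) = c) : c = 1 := by
  -- step 1: `x` lies in the last derived subgroup
  have hx : ∀ i, i ≤ m + 1 → x ∈ derivedSeries H i := by
    intro i
    induction i with
    | zero => intro _; exact mem_top x
    | succ i ih =>
      intro hi
      have hxi := ih (by omega)
      have hai : a ∈ derivedSeries H i := derivedSeries_antitone H (by omega) ha
      have hci : c ∈ derivedSeries H (i + 1) := derivedSeries_antitone H (by omega) hc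
      have hn : (derivedSeries H (i + 1)).Normal := derivedSeries_normal H (i + 1)
      let q : H →* H ⧸ derivedSeries H (i + 1) := QuotientGroup.mk' _
      have hcomm : q x * q a = q a * q x := by
        have h1 : ⁅x, a⁆ ∈ derivedSeries H (i + 1) := commutator_mem_commutator hxi hai
        have h2 : q ⁅x, a⁆ = 1 := (QuotientGroup.eq_one_iff _).2 h1
        rw [map_commutatorElement, commutatorElement_eq_one_iff_mul_comm] at h2
        exact h2
      have hqc : q c = 1 := (QuotientGroup.eq_one_iff _).2 hci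
      have hqx : q x = 1 := by
        have h3 := congrArg q heq
        simp only [map_mul, map_inv] at h3
        rw [hqc] at h3
        have h4 : (q a)⁻¹ * (q x)⁻¹ * q a = (q x)⁻¹ := by
          rw [← mul_inv_rev, hcomm, mul_inv_rev, inv_mul_cancel_right]
        have h5 : (q a)⁻¹ * (q a)⁻¹ * q x * q a * q a = q x := by
          have : (q a)⁻¹ * (q a)⁻¹ * q x * q a * q a = (q a)⁻¹ * ((q a)⁻¹ * (q x * q a)) * q a := by
            simp only [mul_assoc]
          rw [this, hcomm, inv_mul_cancel_left, mul_assoc, hcomm, inv_mul_cancel_left]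
        rw [h4, h5, mul_inv_cancel, one_mul] at h3
        exact h3
      exact (QuotientGroup.eq_one_iff _).1 hqx
  -- step 2: compute in the last derived subgroup
  let A : Subgroup H := derivedSeries H (m + 1)
  have hAn : A.Normal := derivedSeries_normal H (m + 1)
  have hAcomm : ∀ y z : A, y * z = z * y := by
    intro y z
    apply Subtype.ext
    have h1 : ⁅(y : H), (z : H)⁆ ∈ derivedSeries H (m + 2) :=
      commutator_mem_commutator y.2 z.2
    rw [hH, mem_bot, commutatorElement_eq_one_iff_mul_comm] at h1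
    exact h1
  let _ : CommGroup A := { (inferInstance : Group A) with mul_comm := hAcomm }
  let α : A →* A := (MulAut.conjNormal a⁻¹ : MulAut A).toMonoidHom
  have hα : ∀ y : A, ((α y : A) : H) = a⁻¹ * y * a := by
    intro y
    show ((MulAut.conjNormal a⁻¹ y : A) : H) = _
    rw [MulAut.conjNormal_apply, inv_inv]
  have h6 : ∀ y : A, α (α (α (α (α (α y))))) = y := by
    intro y
    apply Subtype.ext
    simp only [hα]
    have : a⁻¹ * (a⁻¹ * (a⁻¹ * (a⁻¹ * (a⁻¹ * (a⁻¹ * (y : H) * a) * a) * a) * a) * a) * a =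
        (a ^ 6)⁻¹ * y * a ^ 6 := by
      simp only [pow_succ, pow_zero, one_mul, mul_inv_rev, mul_assoc]
    rw [this, ha6]; simp
  let X : A := ⟨x, hx (m + 1) le_rfl⟩
  let C : A := ⟨c, hc⟩
  have hC : α C = C ^ 5 := by
    apply Subtype.ext
    rw [hα]
    exact hca
  have hC7 : C ^ 7 = 1 := Subtype.ext hc7
  have hE : X * (α X)⁻¹ * α (α X) = C := by
    apply Subtype.ext
    simp only [Subgroup.coe_mul, Subgroup.coe_inv, hα]
    show x * (a⁻¹ * x * a)⁻¹ * (a⁻¹ * (a⁻¹ * x * a) * a) = c
    rw [← heq]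
    group
  -- additive notation
  let β : Additive A →+ Additive A := MonoidHom.toAdditive α
  obtain ⟨X', hX'⟩ : ∃ X' : Additive A, X' = Additive.ofMul X := ⟨_, rfl⟩
  obtain ⟨C', hC'⟩ : ∃ C' : Additive A, C' = Additive.ofMul C := ⟨_, rfl⟩
  have g6 : β (β (β (β (β (β X'))))) = X' := by
    rw [hX']; exact congrArg Additive.ofMul (h6 X)
  have gC : β C' = (5 : ℤ) • C' := by
    rw [hC']
    have := congrArg Additive.ofMul hC
    rw [ofMul_pow] at this
    have h5 : (5 : ℤ) • Additive.ofMul C = 5 • Additive.ofMul C := by norm_cast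
    rw [h5]
    exact this
  have g7 : (7 : ℤ) • C' = 0 := by
    rw [hC']
    have := congrArg Additive.ofMul hC7
    rw [ofMul_pow] at this
    have h5 : (7 : ℤ) • Additive.ofMul C = 7 • Additive.ofMul C := by norm_cast
    rw [h5, this]; rfl
  have gE : X' - β X' + β (β X') = C' := by
    rw [hX', hC']
    have := congrArg Additive.ofMul hE
    rw [ofMul_mul, ofMul_mul, ofMul_inv, ← sub_eq_add_neg] at this
    exact this
  have gE1 := congrArg β gE
  have gE2 := congrArg β gE1
  have gE3 := congrArg β gE2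
  have gE4 := congrArg β gE3
  simp only [map_add, map_sub] at gE1 gE2 gE3 gE4
  rw [gC] at gE1 gE2 gE3 gE4
  simp only [map_zsmul, gC] at gE2 gE3 gE4
  rw [g6] at gE4
  have g2 : (744 : ℤ) • C' = 0 := by
    linear_combination (norm := module) gE + gE1 - gE3 - gE4
  have g1 : C' = 0 := by
    have e1 : C' = (4 * 744 : ℤ) • C' - (425 * 7 : ℤ) • C' := by
      rw [← sub_smul]; norm_num
    rw [mul_smul, mul_smul, g2, g7] at e1
    simpa using e1
  have g0 : C = 1 := by
    rw [hC'] at g1
    exact Additive.ofMul.injective g1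
  exact congrArg Subtype.val g0

/-- the groups we want; `d = m + 2` is the derived length -/
def Good (K : Type) [Group K] (m : ℕ) : Prop :=
  derivedSeries K (m + 2) = ⊥ ∧ ∃ a ∈ derivedSeries K m, ∃ c ∈ derivedSeries K (m + 1),
    a ^ 6 = 1 ∧ c ^ 7 = 1 ∧ c ≠ 1 ∧ a⁻¹ * c * a = c ^ 5

/-! ### The affine group over `ZMod 7` -/

/-- the affine group of the line over the field with seven elements -/
@[ext]
structure Aff where
  /-- linear part -/
  u : (ZMod 7)ˣ
  /-- translation part -/
  t : ZMod 7

namespace Aff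

instance : Mul Aff := ⟨fun g h => ⟨g.u * h.u, g.u * h.t + g.t⟩⟩
instance : One Aff := ⟨⟨1, 0⟩⟩
instance : Inv Aff := ⟨fun g => ⟨g.u⁻¹, -((g.u⁻¹ : (ZMod 7)ˣ) : ZMod 7) * g.t⟩⟩

theorem mul_u (g h : Aff) : (g * h).u = g.u * h.u := rfl
theorem mul_t (g h : Aff) : (g * h).t = g.u * h.t + g.t := rfl
theorem one_u : (1 : Aff).u = 1 := rfl
theorem one_t : (1 : Aff).t = 0 := rfl
theorem inv_u (g : Aff) : (g⁻¹).u = g.u⁻¹ := rfl
theorem inv_t (g : Aff) : (g⁻¹).t = -((g.u⁻¹ : (ZMod 7)ˣ) : ZMod 7) * g.t := rfl

instance : Group Aff where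
  mul_assoc a b c := by
    ext
    · simp only [mul_u, mul_assoc]
    · simp only [mul_t, mul_u, Units.val_mul]; ring
  one_mul a := by
    ext
    · simp only [mul_u, one_u, one_mul]
    · simp only [mul_t, one_u, one_t, Units.val_one]; ring
  mul_one a := by
    ext
    · simp only [mul_u, one_u, mul_one]
    · simp only [mul_t, one_t]; ring
  inv_mul_cancel a := by
    ext
    · simp only [mul_u, inv_u, one_u, inv_mul_cancel]
    · simp only [mul_t, inv_u, inv_t, one_t]; ring

instance : Finite Aff := by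
  have : Function.Injective (fun g : Aff => (g.u, g.t)) := by
    intro g h hgh
    simp only [Prod.mk.injEq] at hgh
    exact Aff.ext hgh.1 hgh.2
  exact Finite.of_injective _ this

/-- the translations -/
def trans : Subgroup Aff where
  carrier := {g | g.u = 1}
  mul_mem' := by
    intro a b ha hb
    have ha : a.u = 1 := ha
    have hb : b.u = 1 := hb
    show (a * b).u = 1
    rw [mul_u, ha, hb, one_mul]
  one_mem' := rfl
  inv_mem' := by
    intro a ha
    have ha : a.u = 1 := ha
    show (a⁻¹).u = 1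
    rw [inv_u, ha, inv_one]

theorem derived_le : derivedSeries Aff 1 ≤ trans := by
  show ⁅(⊤ : Subgroup Aff), (⊤ : Subgroup Aff)⁆ ≤ trans
  rw [commutator_le]
  intro g _ h _
  show (g * h * g⁻¹ * h⁻¹).u = 1
  simp only [mul_u, inv_u]
  rw [mul_comm g.u h.u, mul_inv_cancel_right, mul_inv_cancel]

theorem derived_two : derivedSeries Aff 2 = ⊥ := by
  rw [eq_bot_iff]
  show ⁅derivedSeries Aff 1, derivedSeries Aff 1⁆ ≤ ⊥
  rw [commutator_le]
  intro g hg h hh
  rw [mem_bot, commutatorElement_eq_one_iff_mul_comm]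
  have h1 : g.u = 1 := derived_le hg
  have h2 : h.u = 1 := derived_le hh
  ext
  · rw [mul_u, mul_u, mul_comm]
  · rw [mul_t, mul_t, h1, h2]
    simp only [Units.val_one, one_mul]
    rw [add_comm]

/-- the unit `3` -/
def three : (ZMod 7)ˣ := ⟨3, 5, by decide, by decide⟩

theorem good : Good Aff 0 := by
  refine ⟨derived_two, ⟨three, 0⟩, mem_top _, ⟨1, 1⟩, ?_, ?_, ?_, ?_, ?_⟩
  · have h : (⟨1, 1⟩ : Aff) = ⁅(⟨three, 0⟩ : Aff), (⟨1, 4⟩ : Aff)⁆ := by
      rw [commutatorElement_def]
      ext
      · simp only [mul_u, inv_u]; decide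
      · simp only [mul_t, mul_u, inv_t, inv_u]; decide
    rw [h]
    exact commutator_mem_commutator (mem_top _) (mem_top _)
  · simp only [pow_succ, pow_zero]
    ext
    · simp only [mul_u, one_u]; decide
    · simp only [mul_t, mul_u, one_u, one_t]; decide
  · simp only [pow_succ, pow_zero]
    ext
    · simp only [mul_u, one_u]; decide
    · simp only [mul_t, mul_u, one_u, one_t]; decide
  · intro h
    have := congrArg Aff.t h
    exact absurd this (by decide)
  · simp only [pow_succ, pow_zero]
    ext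
    · simp only [mul_u, one_u, inv_u]; decide
    · simp only [mul_t, mul_u, one_u, one_t, inv_u, inv_t]; decide

end Aff

/-! ### The wreath product step -/

section Wreath

variable {K : Type} [Group K]

/-- the cyclic group of order three -/
abbrev C3 : Type := Multiplicative (ZMod 3)

/-- the wreath product -/
abbrev W (K : Type) [Group K] : Type := RegularWreathProduct K C3

/-- the embedding of the base group -/
def ι : (C3 → K) →* W K where
  toFun f := ⟨f, 1⟩
  map_one' := rfl
  map_mul' f g := by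
    ext x
    · simp
    · simp

theorem ι_injective : Function.Injective (ι (K := K)) := fun f g h =>
  congrArg RegularWreathProduct.left h

theorem comm_inl (p q : C3) (g : K) :
    ι (Pi.mulSingle p g * Pi.mulSingle q g⁻¹) =
      ⁅ι (Pi.mulSingle p g), (RegularWreathProduct.inl (q * p⁻¹) : W K)⁆ := by
  rw [commutatorElement_def]
  ext x
  · simp only [ι, MonoidHom.coe_mk, OneHom.coe_mk, RegularWreathProduct.mul_left,
      RegularWreathProduct.mul_right, RegularWreathProduct.inv_left, RegularWreathProduct.inv_right,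
      RegularWreathProduct.left_inl, RegularWreathProduct.right_inl, Pi.mul_apply, Pi.one_apply,
      Pi.inv_apply, mul_one, inv_one, one_mul, mul_assoc]
    congr 1
    by_cases hx : x = q
    · subst hx
      rw [Pi.mulSingle_eq_same]
      have : (x * p⁻¹)⁻¹ * x = p := by group
      simp [Pi.mulSingle_eq_same]
    · rw [Pi.mulSingle_eq_of_ne hx]
      have : (q * p⁻¹)⁻¹ * x ≠ p := by
        intro h
        apply hx
        calc x = (q * p⁻¹) * ((q * p⁻¹)⁻¹ * x) := by group
          _ = (q * p⁻¹) * p := by rw [h]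
          _ = q := by group
      simp_all [Pi.mulSingle_eq_of_ne]
  · simp [ι]

theorem comm_base {p q r : C3} (hpq : p ≠ q) (hpr : p ≠ r) (hqr : q ≠ r) (h k : K) :
    ι (Pi.mulSingle p ⁅h, k⁆) = ⁅ι (K := K) (Pi.mulSingle p h * Pi.mulSingle q h⁻¹),
      ι (Pi.mulSingle p k * Pi.mulSingle r k⁻¹)⁆ := by
  rw [← map_commutatorElement]
  congr 1
  funext x
  show _ = ⁅(Pi.mulSingle p h * Pi.mulSingle q h⁻¹ : C3 → K) x,
    (Pi.mulSingle p k * Pi.mulSingle r k⁻¹ : C3 → K) x⁆
  simp only [Pi.mul_apply]
  by_cases hxp : x = p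
  · subst hxp
    rw [Pi.mulSingle_eq_same, Pi.mulSingle_eq_same, Pi.mulSingle_eq_same,
      Pi.mulSingle_eq_of_ne hpq, Pi.mulSingle_eq_of_ne hpr, mul_one, mul_one]
  · rw [Pi.mulSingle_eq_of_ne hxp, Pi.mulSingle_eq_of_ne hxp, Pi.mulSingle_eq_of_ne hxp]
    by_cases hxq : x = q
    · subst hxq
      rw [Pi.mulSingle_eq_same, Pi.mulSingle_eq_of_ne hqr]
      simp
    · rw [Pi.mulSingle_eq_of_ne hxq]
      simp

theorem memB (j : ℕ) (hA : ∀ g ∈ derivedSeries K j, ∀ p q : C3, p ≠ q →
      ι (Pi.mulSingle p g * Pi.mulSingle q g⁻¹) ∈ derivedSeries (W K) (j + 1)) :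
    ∀ g ∈ derivedSeries K (j + 1), ∀ p : C3,
      ι (Pi.mulSingle p g) ∈ derivedSeries (W K) (j + 2) := by
  intro g hg p
  have hle : derivedSeries K (j + 1) ≤
      (derivedSeries (W K) (j + 2)).comap ((ι (K := K)).comp (MonoidHom.mulSingle (fun _ => K) p)) := by
    show ⁅derivedSeries K j, derivedSeries K j⁆ ≤ _
    rw [commutator_le]
    intro h hh k hk
    rw [mem_comap]
    show ι (Pi.mulSingle p ⁅h, k⁆) ∈ _
    obtain ⟨q, r, hpq, hpr, hqr⟩ : ∃ q r : C3, p ≠ q ∧ p ≠ r ∧ q ≠ r := by
      revert p; decide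
    rw [comm_base hpq hpr hqr]
    exact commutator_mem_commutator (hA h hh p q hpq) (hA k hk p r hpr)
  exact hle hg

theorem memA (j : ℕ) : ∀ g ∈ derivedSeries K j, ∀ p q : C3, p ≠ q →
      ι (Pi.mulSingle p g * Pi.mulSingle q g⁻¹) ∈ derivedSeries (W K) (j + 1) := by
  induction j with
  | zero =>
    intro g _ p q _
    rw [comm_inl]
    exact commutator_mem_commutator (mem_top _) (mem_top _)
  | succ j ih =>
    intro g hg p q _
    rw [map_mul]
    exact mul_mem (memB j ih g hg p) (memB j ih g⁻¹ (inv_mem hg) q)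

/-- the elements of the base group with all coordinates in `D` -/
def baseSub (D : Subgroup K) : Subgroup (W K) where
  carrier := {w | w.right = 1 ∧ ∀ x, w.left x ∈ D}
  mul_mem' := by
    rintro a b ⟨ha, ha'⟩ ⟨hb, hb'⟩
    refine ⟨by rw [RegularWreathProduct.mul_right, ha, hb, one_mul], fun x => ?_⟩
    rw [RegularWreathProduct.mul_left]
    exact mul_mem (ha' x) (hb' _)
  one_mem' := ⟨rfl, fun _ => one_mem _⟩
  inv_mem' := by
    rintro a ⟨ha, ha'⟩
    refine ⟨by rw [RegularWreathProduct.inv_right, ha, inv_one], fun x => ?_⟩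
    rw [RegularWreathProduct.inv_left]
    exact inv_mem (ha' _)

theorem derived_le_base (i : ℕ) :
    derivedSeries (W K) (i + 1) ≤ baseSub (derivedSeries K i) := by
  induction i with
  | zero =>
    show ⁅(⊤ : Subgroup (W K)), (⊤ : Subgroup (W K))⁆ ≤ _
    rw [commutator_le]
    intro a _ b _
    refine ⟨?_, fun x => mem_top _⟩
    rw [commutatorElement_def]
    simp only [RegularWreathProduct.mul_right, RegularWreathProduct.inv_right]
    rw [mul_comm a.right b.right, mul_inv_cancel_right, mul_inv_cancel]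
  | succ i ih =>
    show ⁅derivedSeries (W K) (i + 1), derivedSeries (W K) (i + 1)⁆ ≤ _
    rw [commutator_le]
    intro a ha b hb
    obtain ⟨ha1, ha2⟩ := ih ha
    obtain ⟨hb1, hb2⟩ := ih hb
    have hA : a = ι a.left := by
      ext x
      · rfl
      · exact ha1
    have hB : b = ι b.left := by
      ext x
      · rfl
      · exact hb1
    rw [hA, hB, ← map_commutatorElement]
    refine ⟨rfl, fun x => ?_⟩
    show ⁅a.left, b.left⁆ x ∈ _
    have : ⁅a.left, b.left⁆ x = ⁅a.left x, b.left x⁆ := rfl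
    rw [this]
    exact commutator_mem_commutator (ha2 x) (hb2 x)

theorem good_step {m : ℕ} (h : Good K m) : Good (W K) (m + 1) := by
  obtain ⟨h1, a, ha, c, hc, ha6, hc7, hc1, hca⟩ := h
  let p : C3 := Multiplicative.ofAdd 0
  let q : C3 := Multiplicative.ofAdd 1
  have hpq : p ≠ q := by decide
  refine ⟨?_, ι (Pi.mulSingle p a * Pi.mulSingle q a⁻¹), memA m a ha p q hpq,
    ι (Pi.mulSingle p c), memB m (memA m) c hc p, ?_, ?_, ?_, ?_⟩
  · rw [eq_bot_iff]
    refine (derived_le_base (m + 2)).trans ?_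
    rintro w ⟨hw1, hw2⟩
    rw [mem_bot]
    ext x
    · have := hw2 x
      rw [h1, mem_bot] at this
      exact this
    · exact hw1
  · rw [← map_pow]
    have : (Pi.mulSingle p a * Pi.mulSingle q a⁻¹ : C3 → K) ^ 6 = 1 := by
      funext x
      simp only [Pi.pow_apply, Pi.mul_apply, Pi.one_apply]
      by_cases hx : x = p
      · subst hx
        rw [Pi.mulSingle_eq_same, Pi.mulSingle_eq_of_ne hpq, mul_one, ha6]
      · rw [Pi.mulSingle_eq_of_ne hx, one_mul]
        by_cases hx' : x = q
        · subst hx'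
          rw [Pi.mulSingle_eq_same, inv_pow, ha6, inv_one]
        · rw [Pi.mulSingle_eq_of_ne hx', one_pow]
    rw [this, map_one]
  · rw [← map_pow, ← Pi.mulSingle_pow, hc7, Pi.mulSingle_one, map_one]
  · intro h
    have h2 : Pi.mulSingle p c = (1 : C3 → K) := ι_injective (by rw [h, map_one])
    have h3 := congrFun h2 p
    rw [Pi.mulSingle_eq_same] at h3
    exact hc1 h3
  · rw [← map_inv, ← map_mul, ← map_mul, ← map_pow]
    congr 1
    funext x
    simp only [Pi.mul_apply, Pi.inv_apply, Pi.pow_apply]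
    by_cases hx : x = p
    · subst hx
      rw [Pi.mulSingle_eq_same, Pi.mulSingle_eq_same, Pi.mulSingle_eq_of_ne hpq, mul_one, hca]
    · rw [Pi.mulSingle_eq_of_ne hx, Pi.mulSingle_eq_of_ne hx]
      simp

end Wreath

theorem exists_good (m : ℕ) : ∃ (K : Type) (_ : Group K), Finite K ∧ Good K m := by
  induction m with
  | zero => exact ⟨Aff, inferInstance, inferInstance, Aff.good⟩
  | succ m ih =>
    obtain ⟨K, hK, hf, hg⟩ := ih
    exact ⟨W K, inferInstance, inferInstance, good_step hg⟩

end Q28.UniEq
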